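import Mathlib

/-!
# The Poonen-Rains law: statements of the modules, part 4 (finite combinatorics)

`T` is a finite type, `T1` a set of `2 j + 1` elements, `T2` a set of two elements, and `T` is the
disjoint union of `T1` and `T2`.  `M` is a maximal totally singular subspace of `T → Ty`.
The slice `sl T1 D2 j` consists of the `D` with `D \ T1 = D2` and `#(D ∩ T1) = j`.
-/

set_option autoImplicit false

namespace Pool.PRL

/-- The group of local types: `0` trivial, `(0, 1)` nontrivial unit class, `(1, 0)` nontrivial class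
of the ramified twists, `(1, 1)` the product of the last two. -/
abbrev Ty : Type := ZMod 2 × ZMod 2

section

variable {T : Type} [Fintype T] [DecidableEq T]

/-- The quadratic form. -/
def qf (m : T → Ty) : ZMod 2 := ∑ v, (m v).1 * (m v).2

/-- The coordinate subspaces. -/
def LS (S : Finset T) : Set (T → Ty) := {x | ∀ v, if v ∈ S then (x v).2 = 0 else (x v).1 = 0}

/-- The support. -/
def supp (m : T → Ty) : Finset T := Finset.univ.filter fun v => m v ≠ 0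

/-- The unnormalised Poonen-Rains weights. -/
noncomputable def cr (r : ℕ) : ℝ := ∏ j ∈ Finset.range r, 2 / ((2 : ℝ) ^ (j + 1) - 1)

/-- The Poonen-Rains law for the prime `2`. -/
noncomputable def PR (r : ℕ) : ℝ := (∏' j : ℕ, (1 + (1 / 2 : ℝ) ^ j))⁻¹ * cr r

/-- The slices. -/
def sl (T1 D2 : Finset T) (j : ℕ) : Finset (Finset T) :=
  Finset.univ.filter fun D => D \ T1 = D2 ∧ (D ∩ T1).card = j

/-- The support of `m` contains about one half of the elements of `D ∩ T1` and of `T1 \ D`. -/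
def Bal (η : ℝ) (T1 D : Finset T) (m : T → Ty) : Prop :=
  |((supp m ∩ (D ∩ T1)).card : ℝ) - (D ∩ T1).card / 2| ≤ η * T1.card ∧
    |((supp m ∩ (T1 \ D)).card : ℝ) - (T1 \ D).card / 2| ≤ η * T1.card

end

/-- FLP: the dimension of the intersection changes by exactly one. -/
def FLPStmt : Prop :=
  ∀ (T : Type) [Fintype T] [DecidableEq T] (M : AddSubgroup (T → Ty)), (∀ m ∈ M, qf m = 0) →
    Nat.card M = 2 ^ Fintype.card T → ∀ (D : Finset T) (v : T), v ∉ D →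
    ((∃ m ∈ M, m ∈ LS D ∧ m v ≠ 0) →
      {m | m ∈ M ∧ m ∈ LS D}.ncard = 2 * {m | m ∈ M ∧ m ∈ LS (insert v D)}.ncard ∧
      ∀ m ∈ M, m ∈ LS (insert v D) → m v = 0) ∧
    ((∀ m ∈ M, m ∈ LS D → m v = 0) →
      {m | m ∈ M ∧ m ∈ LS (insert v D)}.ncard = 2 * {m | m ∈ M ∧ m ∈ LS D}.ncard ∧
      ∃ m ∈ M, m ∈ LS (insert v D) ∧ m v ≠ 0)

/-- PAR: the cardinalities of the intersections are powers of two, and the parity of the exponent is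
`s + #D`. -/
def PARStmt : Prop :=
  ∀ (T : Type) [Fintype T] [DecidableEq T] (M : AddSubgroup (T → Ty)), (∀ m ∈ M, qf m = 0) →
    Nat.card M = 2 ^ Fintype.card T → ∃ s : ℕ, ∀ D : Finset T, ∃ r : ℕ,
      {m | m ∈ M ∧ m ∈ LS D}.ncard = 2 ^ r ∧ Even (r + s + D.card)

/-- COD: the union of the supports of a subspace with balanced nonzero elements. -/
def CODStmt : Prop :=
  ∀ (T : Type) [Fintype T] [DecidableEq T] (D : Finset T) (A : AddSubgroup (T → Ty)) (r : ℕ)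
    (B : Finset T) (η : ℝ), (∀ m ∈ A, m ∈ LS D) → Nat.card A = 2 ^ r →
    (∀ m ∈ A, m ≠ 0 → |((supp m ∩ B).card : ℝ) - B.card / 2| ≤ η) →
    |({v | v ∈ B ∧ ∃ m ∈ A, m v ≠ 0}.ncard : ℝ) - (1 - (1 / 2) ^ r) * B.card| ≤ 2 * η

/-- SLC: the law on two adjacent slices of equal size. -/
def SLCStmt : Prop :=
  ∀ ε : ℝ, 0 < ε → ∃ (k0 : ℕ) (η : ℝ), 0 < η ∧
    ∀ (T : Type) [Fintype T] [DecidableEq T] (T1 D2 : Finset T) (j : ℕ), Disjoint T1 D2 →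
    T1.card = 2 * j + 1 → k0 ≤ j → ∀ M : AddSubgroup (T → Ty), (∀ m ∈ M, qf m = 0) →
    Nat.card M = 2 ^ Fintype.card T →
    ({D | D ∈ sl T1 D2 j ∪ sl T1 D2 (j + 1) ∧
      ∃ m ∈ M, m ≠ 0 ∧ m ∈ LS D ∧ ¬ Bal η T1 D m}.ncard : ℝ) ≤ η * ((2 * j + 1).choose j : ℝ) →
    ∀ R : ℕ, ∑ r ∈ Finset.range R, |({D | D ∈ sl T1 D2 j ∪ sl T1 D2 (j + 1) ∧
      {m | m ∈ M ∧ m ∈ LS D}.ncard = 2 ^ r}.ncard : ℝ) / ((2 * j + 1).choose j : ℝ) -
        2 * PR r| ≤ ε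

/-- IDN: the Poonen-Rains weights. -/
def IDNStmt : Prop :=
  (∀ r, 0 < PR r) ∧ (∀ r : ℕ, (1 - (1 / 2 : ℝ) ^ (r + 1)) * PR (r + 1) = (1 / 2) ^ r * PR r) ∧
    HasSum PR 1 ∧ HasSum (fun r => (-1) ^ r * PR r) 0 ∧ (0.2097 : ℝ) < PR 0 ∧ PR 0 < 0.2098 ∧
    PR 1 = 2 * PR 0

/-- SLZ: the law on the set `sl T1 ∅ (j + 1) ∪ sl T1 T2 j`. -/
def SLZStmt : Prop :=
  ∀ ε : ℝ, 0 < ε → ∃ (k0 : ℕ) (η : ℝ), 0 < η ∧
    ∀ (T : Type) [Fintype T] [DecidableEq T] (T1 T2 : Finset T) (j : ℕ), Disjoint T1 T2 →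
    T1 ∪ T2 = Finset.univ → T2.card = 2 → T1.card = 2 * j + 1 → k0 ≤ j →
    ∀ M : AddSubgroup (T → Ty), (∀ m ∈ M, qf m = 0) → Nat.card M = 2 ^ Fintype.card T →
    (∀ D2 : Finset T, D2 = ∅ ∨ D2 = T2 → ({D | D ∈ sl T1 D2 j ∪ sl T1 D2 (j + 1) ∧
      ∃ m ∈ M, m ≠ 0 ∧ m ∈ LS D ∧ ¬ Bal η T1 D m}.ncard : ℝ) ≤
        η * ((2 * j + 1).choose j : ℝ)) →
    (sl T1 ∅ (j + 1) ∪ sl T1 T2 j).card = 2 * (2 * j + 1).choose j ∧
    {D | D ∈ sl T1 ∅ (j + 1) ∪ sl T1 T2 j ∧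
      ∃ r, Even r ∧ {m | m ∈ M ∧ m ∈ LS D}.ncard = 2 ^ r}.ncard = (2 * j + 1).choose j ∧
    ∀ R : ℕ, ∑ r ∈ Finset.range R, |({D | D ∈ sl T1 ∅ (j + 1) ∪ sl T1 T2 j ∧
      {m | m ∈ M ∧ m ∈ LS D}.ncard = 2 ^ r}.ncard : ℝ) / (2 * (2 * j + 1).choose j : ℝ) -
        PR r| ≤ ε

/-- BLC: almost all the elements of `LS D` are balanced. -/
def BLCStmt : Prop :=
  ∀ ε η : ℝ, 0 < ε → 0 < η → ∃ k0 : ℕ, ∀ (T : Type) [Fintype T] [DecidableEq T]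
    (T1 D : Finset T), k0 ≤ T1.card →
    ({m | m ∈ LS D ∧ ¬ Bal η T1 D m}.ncard : ℝ) ≤ ε * 2 ^ Fintype.card T

end Pool.PRL
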