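import Pool.Agent.H75.PRL.Defs

/-!
# The Poonen-Rains law: statements of the modules, part 3 (reciprocity, class group)
-/

set_option autoImplicit false

namespace Pool.PRL

open Polynomial Matrix Pool.AVR Pool.AVS Pool.RZ

/-! ### The class group -/

/-- CGB: there are at least `2 ^ #T` classes. -/
def CGBStmt : Prop :=
  ∀ (F : Type) [Field F] [Finite F], (2 : F) ≠ 0 → ∀ (n : ℕ) (T : Finset F[X])
    (f : F[X] × F[X] × F[X]), 1 ≤ n → (∀ P ∈ T, P.Monic ∧ Irreducible P) → f ∈ FmT F n T →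
    (Rc f T).Finite → 2 ^ T.card ≤ (Rc f T).ncard

/-! ### Reciprocity -/

/-- DIA: diagonalisation of a ternary form. -/
def DIAStmt : Prop :=
  ∀ (F : Type) [Field F], (2 : F) ≠ 0 → ∀ (G : Matrix (Fin 3) (Fin 3) (RatFunc F))
    (ε : RatFunc F), Gᵀ = G → ε ≠ 0 → G.det = -ε ^ 2 →
    ∃ (a b : F[X]) (g : Matrix (Fin 3) (Fin 3) (RatFunc F)), a ≠ 0 ∧ b ≠ 0 ∧ g.det ≠ 0 ∧
      gᵀ * G * g = Matrix.diagonal ![rf a, rf b, -rf (a * b)]

/-- QRC: quadratic reciprocity over `F[t]`. -/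
def QRCStmt : Prop :=
  ∀ (F : Type) [Field F] [Finite F], (2 : F) ≠ 0 →
    (∀ P Q : F[X], P.Monic → Irreducible P → Q.Monic → Irreducible Q → P ≠ Q →
      ((SqM P Q ↔ SqM Q P) ↔ (Even (P.natDegree * Q.natDegree) ∨ IsSquare (-1 : F)))) ∧
    ∀ (P : F[X]) (c : F), P.Monic → Irreducible P → c ≠ 0 →
      (SqM P (C c) ↔ (Even P.natDegree ∨ IsSquare c))

/-- HPF: the product formula for Hilbert symbols over `F(t)`. -/
def HPFStmt : Prop :=
  ∀ (F : Type) [Field F] [Finite F], (2 : F) ≠ 0 → ∀ a b : F[X], a ≠ 0 → b ≠ 0 →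
    {P : F[X] | P.Monic ∧ Irreducible P ∧ ¬ HbP P a b}.Finite ∧
    (Even {P : F[X] | P.Monic ∧ Irreducible P ∧ ¬ HbP P a b}.ncard ↔ HbI a b)

/-- LHL: the Hilbert symbol over a local field. -/
def LHLStmt : Prop :=
  ∀ (L : Type) [Field L] (O : ValuationSubring L) (π : L), Loc L O π → ∀ (u v : L) (i j : ℕ),
    UI (O : Set L) u → UI (O : Set L) v →
    (Iso2 (π ^ i * u) (π ^ j * v) ↔
      ∃ w ∈ O, ((-1) ^ (i * j) * u ^ j * v ^ i - w ^ 2) / π ∈ O)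

/-- LHS: the Hilbert symbol at `P`. -/
def LHSStmt : Prop :=
  ∀ (F : Type) [Field F] [Finite F], (2 : F) ≠ 0 → ∀ P : F[X], P.Monic → Irreducible P →
    ∀ (L : Type) [Field L] (O : ValuationSubring L) (ι : RatFunc F →+* L),
    IsComp F (IP P) (rf P) L O ι → ∀ a b : F[X], a ≠ 0 → b ≠ 0 →
    (Iso2 (ι (rf a)) (ι (rf b)) ↔ HbP P a b)

/-- LHI: the Hilbert symbol at infinity. -/
def LHIStmt : Prop :=
  ∀ (F : Type) [Field F] [Finite F], (2 : F) ≠ 0 →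
    ∀ (L : Type) [Field L] (O : ValuationSubring L) (ι : RatFunc F →+* L),
    IsComp F (Iinf F) (RatFunc.X)⁻¹ L O ι → ∀ a b : F[X], a ≠ 0 → b ≠ 0 →
    (Iso2 (ι (rf a)) (ι (rf b)) ↔ HbI a b)

/-- EIL: a form with a unimodular lattice is isotropic over the completion. -/
def EILStmt : Prop :=
  ∀ (F : Type) [Field F] (I : Set (RatFunc F)) (ϖ : RatFunc F) (L : Type) [Field L]
    (O : ValuationSubring L) (ι : RatFunc F →+* L), IsComp F I ϖ L O ι →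
    ∀ (G : Matrix (Fin 3) (Fin 3) (RatFunc F)) (ε : RatFunc F), Gᵀ = G → ε ≠ 0 →
    G.det = -ε ^ 2 → EL I G → IsoM (G.map ι)

/-- OAL: a form of type `OAP` is anisotropic over the completion. -/
def OALStmt : Prop :=
  ∀ (F : Type) [Field F] (P : F[X]), Irreducible P → ∀ (L : Type) [Field L]
    (O : ValuationSubring L) (ι : RatFunc F →+* L), IsComp F (IP P) (rf P) L O ι →
    ∀ (G : Matrix (Fin 3) (Fin 3) (RatFunc F)), Gᵀ = G → OAP P G → ¬ IsoM (G.map ι)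

/-- HRS: reciprocity. -/
def HRSStmt : Prop :=
  ∀ (F : Type) [Field F] [Finite F], (2 : F) ≠ 0 → ∀ (T : Finset F[X])
    (G : Matrix (Fin 3) (Fin 3) (RatFunc F)) (ε : RatFunc F), Gᵀ = G → ε ≠ 0 →
    G.det = -ε ^ 2 → (∀ P ∈ T, P.Monic ∧ Irreducible P) →
    (∀ P : F[X], P.Monic → Irreducible P → P ∉ T → EL (IP P) G) → EL (Iinf F) G →
    (∀ P ∈ T, EL (IP P) G ∨ OAP P G) → Even {P | P ∈ T ∧ OAP P G}.ncard

end Pool.PRL
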