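import Pool.Agent.H75.PRL.S6

/-! # PRL, module FIP: from the law for one curve to the law for the family -/

set_option autoImplicit false

namespace Pool.PRL

open Polynomial Matrix Pool.AVR Pool.AVS Pool.RZ

namespace FIP

section

variable {F : Type} [Field F]

open Classical in
theorem Sl_sub {T1 T2 S : Finset F[X]} (h : S ∈ Sl T1 T2) : S ⊆ T1 ∪ T2 := by
  unfold Sl at h
  rw [Finset.mem_union, Finset.mem_image] at h
  rcases h with h | ⟨U, hU, rfl⟩
  · exact (Finset.mem_powersetCard.1 h).1.trans Finset.subset_union_left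
  · exact Finset.union_subset_union (Finset.mem_powersetCard.1 hU).1 (Finset.Subset.refl _)

open Classical in
theorem deg_Sl {e : ℕ} {T1 T2 S : Finset F[X]} (ha : Adm e T1 T2)
    (hdis : Disjoint T1 T2) (h : S ∈ Sl T1 T2) :
    ∑ P ∈ S, P.natDegree = 2 * (e * (T1.card / 2 + 1)) := by
  obtain ⟨_, h1, h2, h3⟩ := ha
  have hs : ∀ U ⊆ T1, ∑ P ∈ U, P.natDegree = U.card * (2 * e) := by
    intro U hU
    rw [Finset.sum_congr rfl (fun P hP => (h1 P (hU hP)).2.2), Finset.sum_const, smul_eq_mul]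
  unfold Sl at h
  rw [Finset.mem_union, Finset.mem_image] at h
  rcases h with h | ⟨U, hU, rfl⟩
  · obtain ⟨h4, h5⟩ := Finset.mem_powersetCard.1 h
    rw [hs S h4, h5]
    ring
  · obtain ⟨h4, h5⟩ := Finset.mem_powersetCard.1 hU
    rw [Finset.sum_union (Finset.disjoint_of_subset_left h4 hdis), hs U h4, h5,
      Finset.sum_congr rfl (fun P hP => (h2 P hP).2.2), Finset.sum_const, h3, smul_eq_mul]
    ring

open Classical in
theorem Sl_card {T1 T2 : Finset F[X]} :
    0 < (Sl T1 T2).card ∨ T1.card = 0 := by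
  by_cases h : T1.card = 0
  · exact Or.inr h
  · left
    have h3 : T1.card / 2 + 1 ≤ T1.card := by omega
    obtain ⟨U, hU, hU2⟩ := Finset.exists_subset_card_eq h3
    exact Finset.card_pos.2 ⟨U, Finset.mem_union_left _ (Finset.mem_powersetCard.2 ⟨hU, hU2⟩)⟩

theorem adm_dis {e : ℕ} {T1 T2 : Finset F[X]} (ha : Adm e T1 T2) : Disjoint T1 T2 := by
  obtain ⟨_, h1, h2, _⟩ := ha
  rw [Finset.disjoint_left]
  intro P hP hP2
  have e1 := (h1 P hP).2.2
  have e2 := (h2 P hP2).2.2
  have e3 := (h2 P hP2).2.1.natDegree_pos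
  omega

open Classical in
theorem adm_ev {e : ℕ} {T1 T2 : Finset F[X]} (ha : Adm e T1 T2) : EvT (T1 ∪ T2) := by
  obtain ⟨he, h1, h2, _⟩ := ha
  intro P hP
  rcases Finset.mem_union.1 hP with hP | hP
  · obtain ⟨a, b, c⟩ := h1 P hP
    exact ⟨a, b, by rw [c]; exact even_two_mul e⟩
  · obtain ⟨a, b, c⟩ := h2 P hP
    exact ⟨a, b, by rw [c]; exact he⟩

end

/-- Averages. -/
theorem avg {α : Type} (A : Finset α) (hA : A.Nonempty) (a : α → ℕ → ℝ) (p : ℕ → ℝ)
    (good : α → Prop) (δ M ε : ℝ) (R : ℕ) (hM : 0 ≤ M) (hδ : 0 ≤ δ) (hgood : ∀ f ∈ A, good f →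
      ∑ r ∈ Finset.range R, |a f r - p r| ≤ δ)
    (hall : ∀ f ∈ A, ∑ r ∈ Finset.range R, |a f r - p r| ≤ M)
    (hbad : ({f | f ∈ A ∧ ¬ good f}.ncard : ℝ) ≤ ε * A.card) :
    ∑ r ∈ Finset.range R, |(∑ f ∈ A, a f r) / A.card - p r| ≤ δ + M * ε := by
  classical
  have hc : (0 : ℝ) < A.card := by exact_mod_cast hA.card_pos
  have h1 : ∀ r, |(∑ f ∈ A, a f r) / A.card - p r| ≤ (∑ f ∈ A, |a f r - p r|) / A.card := by
    intro r
    have e1 : (∑ f ∈ A, a f r) / A.card - p r = (∑ f ∈ A, (a f r - p r)) / A.card := by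
      rw [Finset.sum_sub_distrib, Finset.sum_const, nsmul_eq_mul]
      field_simp
    rw [e1, abs_div, abs_of_pos hc]
    exact div_le_div_of_nonneg_right (Finset.abs_sum_le_sum_abs _ _) hc.le
  calc ∑ r ∈ Finset.range R, |(∑ f ∈ A, a f r) / A.card - p r|
      ≤ ∑ r ∈ Finset.range R, (∑ f ∈ A, |a f r - p r|) / A.card :=
        Finset.sum_le_sum fun r _ => h1 r
    _ = (∑ f ∈ A, ∑ r ∈ Finset.range R, |a f r - p r|) / A.card := by
        rw [← Finset.sum_div, Finset.sum_comm]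
    _ ≤ (∑ f ∈ A, (δ + if good f then 0 else M)) / A.card := by
        refine div_le_div_of_nonneg_right (Finset.sum_le_sum fun f hf => ?_) hc.le
        by_cases hg : good f
        · rw [if_pos hg, add_zero]
          exact hgood f hf hg
        · rw [if_neg hg]
          linarith [hall f hf]
    _ ≤ δ + M * ε := by
        have e2 : ∑ f ∈ A, (if good f then (0 : ℝ) else M) =
            M * (A.filter fun f => ¬ good f).card := by
          rw [Finset.sum_ite, Finset.sum_const_zero, zero_add, Finset.sum_const, nsmul_eq_mul]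
          ring
        have e3 : {f | f ∈ A ∧ ¬ good f}.ncard = (A.filter fun f => ¬ good f).card := by
          rw [← Set.ncard_coe_finset]
          congr 1
          ext f
          simp
        rw [e3] at hbad
        rw [Finset.sum_add_distrib, Finset.sum_const, nsmul_eq_mul, e2, div_le_iff₀ hc]
        have := mul_le_mul_of_nonneg_left hbad hM
        linarith

open Classical in
/-- Counting pairs. -/
theorem cnt {F : Type} [Field F] (hTWP : TWPStmt) [Finite F] (h2 : (2 : F) ≠ 0) {e n : ℕ}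
    {T1 T2 : Finset F[X]} (ha : Adm e T1 T2) (hA : (FmT F n (T1 ∪ T2)).Finite)
    (q : F[X] × F[X] × F[X] → Prop) :
    {g | g ∈ ZF e T1 T2 (n + e * (T1.card / 2 + 1)) ∧ q g}.Finite ∧
    {g | g ∈ ZF e T1 T2 (n + e * (T1.card / 2 + 1)) ∧ q g}.ncard =
      ∑ f ∈ hA.toFinset, {S | S ∈ Sl T1 T2 ∧ q (tw (pr S) f)}.ncard := by
  have hT := hTWP F h2 n (T1 ∪ T2) (adm_ev ha)
  set A := hA.toFinset with hAdef
  have hinj : Set.InjOn (fun x : (F[X] × F[X] × F[X]) × Finset F[X] => tw (pr x.2) x.1)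
      (A ×ˢ Sl T1 T2 : Finset _) := by
    rintro ⟨f, S⟩ hx ⟨f', S'⟩ hx' hxx
    rw [Finset.mem_coe, Finset.mem_product] at hx hx'
    have h3 := (hT.2 f (hA.mem_toFinset.1 hx.1)).2.2.2.2.2.2.2 S (Sl_sub hx.2)
    have h4 := h3.2.2.2.2 S' (Sl_sub hx'.2) f' (hA.mem_toFinset.1 hx'.1) hxx
    exact Prod.ext h4.2 h4.1
  have hset : {g | g ∈ ZF e T1 T2 (n + e * (T1.card / 2 + 1)) ∧ q g} =
      (((A ×ˢ Sl T1 T2).filter fun x => q (tw (pr x.2) x.1)).image
        (fun x : (F[X] × F[X] × F[X]) × Finset F[X] => tw (pr x.2) x.1) : Finset _) := by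
    ext g
    simp only [Finset.coe_image, Finset.coe_filter, Finset.mem_product, Set.mem_image]
    constructor
    · rintro ⟨⟨f, hf, S, hS, rfl⟩, hq⟩
      rw [Nat.add_sub_cancel] at hf
      exact ⟨(f, S), ⟨⟨hA.mem_toFinset.2 hf, hS⟩, hq⟩, rfl⟩
    · rintro ⟨⟨f, S⟩, ⟨⟨hf, hS⟩, hq⟩, rfl⟩
      refine ⟨⟨f, ?_, S, hS, rfl⟩, hq⟩
      rw [Nat.add_sub_cancel]
      exact hA.mem_toFinset.1 hf
  refine ⟨by rw [hset]; exact Finset.finite_toSet _, ?_⟩
  rw [hset, Set.ncard_coe_finset, Finset.card_image_of_injOn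
    (hinj.mono (by exact_mod_cast Finset.filter_subset _ _))]
  have e1 : ∀ f, {S | S ∈ Sl T1 T2 ∧ q (tw (pr S) f)}.ncard =
      ((Sl T1 T2).filter fun S => q (tw (pr S) f)).card := by
    intro f
    rw [← Set.ncard_coe_finset]
    congr 1
    ext S
    simp
  simp only [e1]
  rw [Finset.card_filter, Finset.sum_product]
  refine Finset.sum_congr rfl fun f _ => ?_
  rw [Finset.card_filter]

end FIP

open FIP in
open Classical in
theorem fip (hTWP : TWPStmt) (hIDN : IDNStmt) : FIPStmt := by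
  intro F _ _ h2 ε e n T1 T2 hε ha ho _ hfin hne hlaw
  obtain ⟨hPRpos, _, hPRsum, _⟩ := hIDN
  have hdis := adm_dis ha
  have hev := adm_ev ha
  have hT := hTWP F h2 n (T1 ∪ T2) hev
  set A := hfin.toFinset with hAdef
  have hAc : (FmT F n (T1 ∪ T2)).ncard = A.card := Set.ncard_eq_toFinset_card _ hfin
  have hAne : A.Nonempty := by
    rw [hAdef, Set.Finite.toFinset_nonempty]
    exact hne
  have hA0 : (0 : ℝ) < A.card := by exact_mod_cast hAne.card_pos
  have hS0 : 0 < (Sl T1 T2).card := by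
    rcases Sl_card (T1 := T1) (T2 := T2) with h | h
    · exact h
    · rw [h] at ho
      exact absurd ho (by decide)
  have hS0' : (0 : ℝ) < (Sl T1 T2).card := by exact_mod_cast hS0
  have hsub : ZF e T1 T2 (n + e * (T1.card / 2 + 1)) ⊆ Irr F (n + e * (T1.card / 2 + 1)) := by
    rintro g ⟨f, hf, S, hS, rfl⟩
    rw [Nat.add_sub_cancel] at hf
    have h3 := ((hT.2 f hf).2.2.2.2.2.2.2 S (Sl_sub hS)).1
    rwa [((hT.1 S (Sl_sub hS)).2.2.1), deg_Sl ha hdis hS,
      Nat.mul_div_cancel_left _ two_pos] at h3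
  have hcnt := fun q => cnt hTWP h2 ha hfin q
  have hZc : (ZF e T1 T2 (n + e * (T1.card / 2 + 1))).ncard = (Sl T1 T2).card * A.card := by
    have h3 := (hcnt (fun _ => True)).2
    simp only [and_true, Set.ofPred_mem_eq] at h3
    rw [h3]
    have h4 : ∀ f ∈ hfin.toFinset, {S | S ∈ Sl T1 T2}.ncard = (Sl T1 T2).card := by
      intro f _
      exact Set.ncard_coe_finset _
    rw [Finset.sum_congr rfl h4, Finset.sum_const, smul_eq_mul, mul_comm]
  have hZfin : (ZF e T1 T2 (n + e * (T1.card / 2 + 1))).Finite := by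
    have h3 := (hcnt (fun _ => True)).1
    simpa only [and_true, Set.ofPred_mem_eq] using h3
  -- proportions
  have hprop : ∀ q : F[X] × F[X] × F[X] → Prop,
      ({g | g ∈ ZF e T1 T2 (n + e * (T1.card / 2 + 1)) ∧ q g}.ncard : ℝ) /
        (ZF e T1 T2 (n + e * (T1.card / 2 + 1))).ncard =
      (∑ f ∈ A, (({S | S ∈ Sl T1 T2 ∧ q (tw (pr S) f)}.ncard : ℝ) / (Sl T1 T2).card)) /
        A.card := by
    intro q
    rw [(hcnt q).2, hZc]
    push_cast
    rw [← Finset.sum_div, div_div]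
  refine ⟨hsub, hZfin, by rw [hZc, hAc], hS0, ?_, ?_⟩
  · intro R
    have h5 := avg A hAne
      (fun f r => ({S | S ∈ Sl T1 T2 ∧ (Sel (tw (pr S) f)).ncard = 2 ^ r}.ncard : ℝ) /
        (Sl T1 T2).card) PR (LawF ε T1 T2) ε 2 ε R (by norm_num) hε.le
      (fun f _ hg => hg.2.2 R) ?_ ?_
    · refine le_trans (le_of_eq (Finset.sum_congr rfl fun r _ => ?_)) (h5.trans (by linarith))
      rw [hprop (fun g => (Sel g).ncard = 2 ^ r)]
    · intro f _
      have h6 : ∑ r ∈ Finset.range R,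
          ({S | S ∈ Sl T1 T2 ∧ (Sel (tw (pr S) f)).ncard = 2 ^ r}.ncard : ℝ) /
            (Sl T1 T2).card ≤ 1 := by
        rw [← Finset.sum_div, div_le_one hS0']
        have h7 : ∀ r, {S | S ∈ Sl T1 T2 ∧ (Sel (tw (pr S) f)).ncard = 2 ^ r}.ncard =
            ((Sl T1 T2).filter fun S => (Sel (tw (pr S) f)).ncard = 2 ^ r).card := by
          intro r
          rw [← Set.ncard_coe_finset]
          congr 1
          ext S
          simp
        simp only [h7]
        rw [← Nat.cast_sum]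
        have h8 := Finset.card_biUnion (s := Finset.range R)
          (t := fun r => (Sl T1 T2).filter fun S => (Sel (tw (pr S) f)).ncard = 2 ^ r) ?_
        · rw [← h8]
          exact_mod_cast Finset.card_le_card (Finset.biUnion_subset.2 fun r _ =>
            Finset.filter_subset _ _)
        · intro r _ r' _ hrr
          rw [Function.onFun, Finset.disjoint_left]
          intro S hS hS'
          rw [Finset.mem_filter] at hS hS'
          exact hrr (Nat.pow_right_injective (le_refl 2) (hS.2.symm.trans hS'.2))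
      have h9 : ∑ r ∈ Finset.range R, PR r ≤ 1 :=
        sum_le_hasSum _ (fun r _ => (hPRpos r).le) hPRsum
      calc _ ≤ ∑ r ∈ Finset.range R,
            (({S | S ∈ Sl T1 T2 ∧ (Sel (tw (pr S) f)).ncard = 2 ^ r}.ncard : ℝ) /
              (Sl T1 T2).card + PR r) := by
            refine Finset.sum_le_sum fun r _ => ?_
            rw [abs_le]
            have := (hPRpos r).le
            have h10 : (0 : ℝ) ≤ ({S | S ∈ Sl T1 T2 ∧
              (Sel (tw (pr S) f)).ncard = 2 ^ r}.ncard : ℝ) / (Sl T1 T2).card := by positivity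
            constructor <;> linarith
        _ ≤ 2 := by
            rw [Finset.sum_add_distrib]
            linarith
    · rw [hAc] at hlaw
      simpa only [hAdef, Set.Finite.mem_toFinset] using hlaw
  · have h5 := avg A hAne
      (fun f _ => (({S | S ∈ Sl T1 T2 ∧ ∃ r : ℕ, Even r ∧
        (Sel (tw (pr S) f)).ncard = 2 ^ r}.ncard : ℝ) / (Sl T1 T2).card))
      (fun _ => 1 / 2) (LawF ε T1 T2) 0 1 ε 1 zero_le_one le_rfl ?_ ?_ ?_
    · rw [Finset.sum_range_one] at h5
      rw [hprop (fun g => ∃ r : ℕ, Even r ∧ (Sel g).ncard = 2 ^ r)]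
      linarith
    · intro f _ hg
      rw [Finset.sum_range_one]
      have h6 := hg.2.1
      have h7 : (2 : ℝ) * ({S | S ∈ Sl T1 T2 ∧ ∃ r : ℕ, Even r ∧
        (Sel (tw (pr S) f)).ncard = 2 ^ r}.ncard : ℝ) = (Sl T1 T2).card := by exact_mod_cast h6
      rw [← h7, abs_nonpos_iff]
      have h8 : ({S | S ∈ Sl T1 T2 ∧ ∃ r : ℕ, Even r ∧
        (Sel (tw (pr S) f)).ncard = 2 ^ r}.ncard : ℝ) ≠ 0 := by
        intro h
        rw [h, mul_zero] at h7
        exact hS0'.ne h7
      field_simp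
      norm_num
    · intro f _
      rw [Finset.sum_range_one]
      have h6 : {S | S ∈ Sl T1 T2 ∧ ∃ r : ℕ, Even r ∧
          (Sel (tw (pr S) f)).ncard = 2 ^ r}.ncard ≤ (Sl T1 T2).card := by
        rw [← Set.ncard_coe_finset]
        exact Set.ncard_le_ncard (fun S hS => hS.1) (Finset.finite_toSet _)
      have h7 : ({S | S ∈ Sl T1 T2 ∧ ∃ r : ℕ, Even r ∧
          (Sel (tw (pr S) f)).ncard = 2 ^ r}.ncard : ℝ) / (Sl T1 T2).card ≤ 1 := by
        rw [div_le_one hS0']
        exact_mod_cast h6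
      have h8 : (0 : ℝ) ≤ ({S | S ∈ Sl T1 T2 ∧ ∃ r : ℕ, Even r ∧
          (Sel (tw (pr S) f)).ncard = 2 ^ r}.ncard : ℝ) / (Sl T1 T2).card := by positivity
      rw [abs_le]
      constructor <;> linarith
    · rw [hAc] at hlaw
      simpa only [hAdef, Set.Finite.mem_toFinset] using hlaw

end Pool.PRL
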