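import Pool.Agent.H75.PRL.Defs

/-!
# The Poonen-Rains law: statements of the modules, part 2 (local solubility)
-/

set_option autoImplicit false

namespace Pool.PRL

open Polynomial Matrix Pool.AVR Pool.AVS Pool.RZ

/-- SCD: the substitution `X ↦ d X` identifies the algebra of the twist `tw d f` with that of
`f`. -/
def SCDStmt : Prop :=
  ∀ (F : Type) [Field F] (d : F[X]) (f : F[X] × F[X] × F[X]), d ≠ 0 →
    (∀ h : (RatFunc F)[X], (scd d h).comp (C (rf d) * X) = h ∧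
      scd d (h.comp (C (rf d) * X)) = h) ∧
    (∀ h : (RatFunc F)[X],
      Algebra.norm (RatFunc F) (AdjoinRoot.mk (cubK (tw d f)) (scd d h)) =
        Algebra.norm (RatFunc F) (AdjoinRoot.mk (cubK f) h) ∧
      (IsCoprime (scd d h) (cubK (tw d f)) ↔ IsCoprime h (cubK f)) ∧
      (∀ (L : Type) [Field L] (ι : RatFunc F →+* L),
        LocSol (ι (kf (tw d f)).1) (ι (kf (tw d f)).2.1) (ι (kf (tw d f)).2.2)
          ((scd d h).map ι) ↔ LSD ι d f h) ∧
      ∀ G B : Matrix (Fin 3) (Fin 3) (RatFunc F),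
        RepH (kf (tw d f)).1 (kf (tw d f)).2.1 (kf (tw d f)).2.2 (scd d h) G (rf d • B) ↔
          RepH (kf f).1 (kf f).2.1 (kf f).2.2 h G B) ∧
    ∃ e : ((Alg f)ˣ ⧸ Sq f) ≃* ((Alg (tw d f))ˣ ⧸ Sq (tw d f)),
      ∀ (u : (Alg f)ˣ) (u' : (Alg (tw d f))ˣ) (h : (RatFunc F)[X]),
        (u : Alg f) = AdjoinRoot.mk (cubK f) h →
        (u' : Alg (tw d f)) = AdjoinRoot.mk (cubK (tw d f)) (scd d h) →
        e (QuotientGroup.mk u) = QuotientGroup.mk u'

/-- CYM: cyclic vectors for a matrix whose characteristic polynomial has a discriminant of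
valuation at most one. -/
def CYMStmt : Prop :=
  ∀ (F : Type) [Field F] [Finite F], (2 : F) ≠ 0 → ∀ P : F[X], P.Monic → Irreducible P →
    ∀ (M : Matrix (Fin 3) (Fin 3) (RatFunc F)) (a b c : RatFunc F), MI (IP P) M →
    M.charpoly = cub a b c → disc a b c / rf P ^ 2 ∉ IP P →
    ∃ v : Fin 3 → RatFunc F, (∀ i, v i ∈ IP P) ∧
      UI (IP P) (Matrix.of ![v, M *ᵥ v, M *ᵥ (M *ᵥ v)]).det

/-- CYC: a class with a unimodular stable lattice at `P` is the class of a unit, if the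
discriminant has valuation at most one. -/
def CYCStmt : Prop :=
  ∀ (F : Type) [Field F] [Finite F], (2 : F) ≠ 0 → ∀ P : F[X], P.Monic → Irreducible P →
    ∀ f : F[X] × F[X] × F[X], ¬ P ^ 2 ∣ disc f.1 f.2.1 f.2.2 →
    ∀ (h : (RatFunc F)[X]) (G B : Matrix (Fin 3) (Fin 3) (RatFunc F)),
    RepH (kf f).1 (kf f).2.1 (kf f).2.2 h G B → GI (IP P) G → MI (IP P) B → US P f h

/-- LU1: at a prime not dividing `d`, the class of a point of the twist is the class of a unit. -/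
def LU1Stmt : Prop :=
  ∀ (F : Type) [Field F] [Finite F], (2 : F) ≠ 0 → ∀ P : F[X], P.Monic → Irreducible P →
    ∀ (f : F[X] × F[X] × F[X]) (d : F[X]), ¬ P ^ 2 ∣ disc f.1 f.2.1 f.2.2 → ¬ P ∣ d →
    ∀ (L : Type) [Field L] (O : ValuationSubring L) (ι : RatFunc F →+* L),
    IsComp F (IP P) (rf P) L O ι → ∀ h : (RatFunc F)[X], LSD ι d f h → US P f h

/-- SMP: a symmetric matrix whose discriminant has valuation at most one has a smooth point
modulo the uniformizer. -/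
def SMPStmt : Prop :=
  ∀ (F : Type) [Field F] [Finite F], (2 : F) ≠ 0 →
    (∀ P : F[X], P.Monic → Irreducible P → ∀ (L : Type) [Field L] (O : ValuationSubring L)
      (ι : RatFunc F →+* L), IsComp F (IP P) (rf P) L O ι →
      ∀ B : Matrix (Fin 3) (Fin 3) L, Bᵀ = B → MI (O : Set L) B → dB B / ι (rf P) ^ 2 ∉ O →
      ∃ (z : Fin 3 → L) (w : L), Smo (O : Set L) (ι (rf P)) (AA L) B z w) ∧
    ∀ (L : Type) [Field L] (O : ValuationSubring L) (ι : RatFunc F →+* L),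
      IsComp F (Iinf F) (RatFunc.X)⁻¹ L O ι →
      ∀ B : Matrix (Fin 3) (Fin 3) L, Bᵀ = B → MI (O : Set L) B →
      dB B / ι (RatFunc.X)⁻¹ ^ 2 ∉ O →
      ∃ (z : Fin 3 → L) (w : L), Smo (O : Set L) (ι (RatFunc.X)⁻¹) (AA L) B z w

/-- LSM: local solubility from a smooth point. `τ` is a scaling factor. -/
def LSMStmt : Prop :=
  ∀ (L : Type) [Field L] (O : ValuationSubring L) (π : L), Loc L O π →
    ∀ (τ a b c ε : L) (h : L[X]) (G B : Matrix (Fin 3) (Fin 3) L), τ ≠ 0 →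
    (cub a b c).Separable → RepH a b c h G B → GI (O : Set L) G → G.det = -ε ^ 2 →
    MI (O : Set L) ((τ ^ 2)⁻¹ • B) →
    (∃ κ : Matrix (Fin 3) (Fin 3) L, GI (O : Set L) κ ∧ κᵀ * G * κ = AA L ∧
      ∃ (z : Fin 3 → L) (w : L),
        Smo (O : Set L) π (AA L) ((τ ^ 2)⁻¹ • (κᵀ * B * κ)) z w) →
    LocSol a b c h

/-- LSU: local solubility from a unimodular lattice, the discriminant having valuation at most
one. -/
def LSUStmt : Prop :=
  ∀ (F : Type) [Field F] [Finite F], (2 : F) ≠ 0 →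
    (∀ P : F[X], P.Monic → Irreducible P → ∀ (L : Type) [Field L] (O : ValuationSubring L)
      (ι : RatFunc F →+* L), IsComp F (IP P) (rf P) L O ι →
      ∀ (τ a b c ε : RatFunc F) (h : (RatFunc F)[X]) (G B : Matrix (Fin 3) (Fin 3) (RatFunc F)),
      τ ≠ 0 → RepH a b c h G B → GI (IP P) G → G.det = -ε ^ 2 → MI (IP P) ((τ ^ 2)⁻¹ • B) →
      disc (a / τ ^ 2) (b / τ ^ 4) (c / τ ^ 6) / rf P ^ 2 ∉ IP P →
      LocSol (ι a) (ι b) (ι c) (h.map ι)) ∧
    ∀ (L : Type) [Field L] (O : ValuationSubring L) (ι : RatFunc F →+* L),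
      IsComp F (Iinf F) (RatFunc.X)⁻¹ L O ι →
      ∀ (τ a b c ε : RatFunc F) (h : (RatFunc F)[X]) (G B : Matrix (Fin 3) (Fin 3) (RatFunc F)),
      τ ≠ 0 → RepH a b c h G B → GI (Iinf F) G → G.det = -ε ^ 2 →
      MI (Iinf F) ((τ ^ 2)⁻¹ • B) →
      disc (a / τ ^ 2) (b / τ ^ 4) (c / τ ^ 6) / (RatFunc.X)⁻¹ ^ 2 ∉ Iinf F →
      LocSol (ι a) (ι b) (ι c) (h.map ι)

/-- LU2: at a prime not dividing `d`, the class of a unit of square norm is the class of a point of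
the twist. -/
def LU2Stmt : Prop :=
  ∀ (F : Type) [Field F] [Finite F], (2 : F) ≠ 0 → ∀ P : F[X], P.Monic → Irreducible P →
    ∀ (f : F[X] × F[X] × F[X]) (d : F[X]), ¬ P ^ 2 ∣ disc f.1 f.2.1 f.2.2 → ¬ P ∣ d →
    ∀ (L : Type) [Field L] (O : ValuationSubring L) (ι : RatFunc F →+* L),
    IsComp F (IP P) (rf P) L O ι → ∀ h : (RatFunc F)[X], IsCoprime h (cubK f) →
    IsSquare (Algebra.norm (RatFunc F) (AdjoinRoot.mk (cubK f) h)) → US P f h → LSD ι d f h

/-- SQR: square roots of elements congruent to `1` in a cubic algebra over a local field. -/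
def SQRStmt : Prop :=
  ∀ (L : Type) [Field L] (O : ValuationSubring L) (π : L), Loc L O π → ∀ (a b c : L) (p : L[X]),
    a ∈ O → b ∈ O → c ∈ O → (∀ i, p.coeff i ∈ O) → ∃ s : L[X], cub a b c ∣ (1 + C π * p) - s ^ 2

/-- SQL: a class which is trivial modulo `P` is trivial over the completion. -/
def SQLStmt : Prop :=
  ∀ (F : Type) [Field F] [Finite F], (2 : F) ≠ 0 → ∀ P : F[X], P.Monic → Irreducible P →
    ∀ (f : F[X] × F[X] × F[X]) (L : Type) [Field L] (O : ValuationSubring L)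
    (ι : RatFunc F →+* L), IsComp F (IP P) (rf P) L O ι → ∀ h : (RatFunc F)[X],
    IsCoprime h (cubK f) → TR P f h → ∃ s : L[X], (cubK f).map ι ∣ h.map ι - s ^ 2

/-- LT1: at a simple divisor `P` of `d`, the class of a point of the twist has type `(0, 0)` or
`(1, 0)`. -/
def LT1Stmt : Prop :=
  ∀ (F : Type) [Field F] [Finite F], (2 : F) ≠ 0 → ∀ P : F[X], P.Monic → Irreducible P →
    ∀ (f : F[X] × F[X] × F[X]) (d : F[X]), T12P P f → P ∣ d → ¬ P ^ 2 ∣ d →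
    ∀ (L : Type) [Field L] (O : ValuationSubring L) (ι : RatFunc F →+* L),
    IsComp F (IP P) (rf P) L O ι → ∀ h : (RatFunc F)[X], IsCoprime h (cubK f) →
    IsSquare (Algebra.norm (RatFunc F) (AdjoinRoot.mk (cubK f) h)) → LSD ι d f h →
      Typ P f (0, 0) h ∨ Typ P f (1, 0) h

/-- LT2: the converse. -/
def LT2Stmt : Prop :=
  ∀ (F : Type) [Field F] [Finite F], (2 : F) ≠ 0 → ∀ P : F[X], P.Monic → Irreducible P →
    Even P.natDegree → ∀ (f : F[X] × F[X] × F[X]) (d : F[X]), (cubK f).Separable →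
    P ∣ d → ¬ P ^ 2 ∣ d →
    ∀ (L : Type) [Field L] (O : ValuationSubring L) (ι : RatFunc F →+* L),
    IsComp F (IP P) (rf P) L O ι → ∀ h : (RatFunc F)[X], IsCoprime h (cubK f) →
    IsSquare (Algebra.norm (RatFunc F) (AdjoinRoot.mk (cubK f) h)) →
    Typ P f (0, 0) h ∨ Typ P f (1, 0) h → LSD ι d f h

/-- LI1: at infinity every class of square norm is the class of a point. -/
def LI1Stmt : Prop :=
  ∀ (F : Type) [Field F] [Finite F], (2 : F) ≠ 0 → ∀ (n : ℕ) (f : F[X] × F[X] × F[X]),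
    f ∈ Fam F n → NR (top3 n f) → ∀ d : F[X], d.Monic → Even d.natDegree →
    ∀ (L : Type) [Field L] (O : ValuationSubring L) (ι : RatFunc F →+* L),
    IsComp F (Iinf F) (RatFunc.X)⁻¹ L O ι → ∀ h : (RatFunc F)[X], IsCoprime h (cubK f) →
    IsSquare (Algebra.norm (RatFunc F) (AdjoinRoot.mk (cubK f) h)) → LSD ι d f h

/-- SEL: the 2-Selmer groups of the twists, in terms of types. -/
def SELStmt : Prop :=
  ∀ (F : Type) [Field F] [Finite F], (2 : F) ≠ 0 → ∀ (n : ℕ) (T : Finset F[X])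
    (f : F[X] × F[X] × F[X]), 1 ≤ n → EvT T → f ∈ FmT F n T → ∀ S ⊆ T,
    ∃ e : ((Alg f)ˣ ⧸ Sq f) ≃* ((Alg (tw (pr S) f))ˣ ⧸ Sq (tw (pr S) f)),
      ∀ ξ : (Alg f)ˣ ⧸ Sq f, e ξ ∈ Sel (tw (pr S) f) ↔
        ξ ∈ Rc f T ∧ ∀ P ∈ T, ∃ x : Ty, TyC f P x ξ ∧ (P ∈ S → x.2 = 0) ∧ (P ∉ S → x.1 = 0)

end Pool.PRL
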