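import Pool.Agent.H75.PRL.Defs

/-!
# The Poonen-Rains law: statements of the modules, part 1 (types and lattices at `P`)
-/

set_option autoImplicit false

namespace Pool.PRL

open Polynomial Matrix Pool.AVR Pool.AVS Pool.RZ

/-- SPU: uniqueness of the factorisation modulo `P`, and the uniformizer `vp`. -/
def SPUStmt : Prop :=
  ∀ (F : Type) [Field F] (P : F[X]) (f : F[X] × F[X] × F[X]), P.Monic → Irreducible P →
    (∀ e β γ e' β' γ' : F[X], Spl P f e β γ → Spl P f e' β' γ' → e = e' ∧ β = β' ∧ γ = γ') ∧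
    ∀ e β γ : F[X], Spl P f e β γ → ¬ P ∣ e ^ 2 + β * e + γ ∧
      P ∣ e ^ 3 + f.1 * e ^ 2 + f.2.1 * e + f.2.2 ∧
      (∀ p : F[X][X], UnP P f p → ¬ P ∣ p.eval e) ∧
      IsCoprime (lf (vp P β γ)) (cubK f) ∧
      ∃ ν : F[X], Algebra.norm (RatFunc F) (AdjoinRoot.mk (cubK f) (lf (vp P β γ))) =
        rf (P ^ 2 * ν) ∧ ¬ P ∣ ν ∧ SqM P ν

/-- CLA: every class of square norm has a type. -/
def CLAStmt : Prop :=
  ∀ (F : Type) [Field F] [Finite F], (2 : F) ≠ 0 → ∀ (P : F[X]) (f : F[X] × F[X] × F[X]),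
    P.Monic → Irreducible P → T12P P f → ∀ h : (RatFunc F)[X], IsCoprime h (cubK f) →
    IsSquare (Algebra.norm (RatFunc F) (AdjoinRoot.mk (cubK f) h)) → ∃ x : Ty, Typ P f x h

/-- TYM: the types are multiplicative and depend only on the class. -/
def TYMStmt : Prop :=
  ∀ (F : Type) [Field F] [Finite F] (P : F[X]) (f : F[X] × F[X] × F[X]),
    P.Monic → Irreducible P →
    (∀ (x y : Ty) (h h' : (RatFunc F)[X]), Typ P f x h → Typ P f y h' →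
      Typ P f (x + y) (h * h')) ∧
    (∀ (x : Ty) (h h' u : (RatFunc F)[X]), Typ P f x h → IsCoprime u (cubK f) →
      cubK f ∣ h' - h * u ^ 2 → Typ P f x h') ∧
    (T12P P f → ∀ h : (RatFunc F)[X], US P f h ↔ Typ P f (0, 0) h ∨ Typ P f (0, 1) h) ∧
    (T12P P f → ∀ h : (RatFunc F)[X], TR P f h → Typ P f (0, 0) h)

/-- TYP: a unit class of square norm and trivial type is trivial modulo `P`. -/
def TYPStmt : Prop :=
  ∀ (F : Type) [Field F] [Finite F], (2 : F) ≠ 0 → ∀ (P : F[X]) (f : F[X] × F[X] × F[X]),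
    P.Monic → Irreducible P → ∀ h : (RatFunc F)[X],
    IsSquare (Algebra.norm (RatFunc F) (AdjoinRoot.mk (cubK f) h)) → Typ P f (0, 0) h →
      TR P f h

/-- LMI: the lattice of a class of type `(0, 1)` has no common isotropic vector modulo `P`. -/
def LMIStmt : Prop :=
  ∀ (F : Type) [Field F] [Finite F], (2 : F) ≠ 0 → ∀ (P : F[X]) (f : F[X] × F[X] × F[X]),
    P.Monic → Irreducible P → ∀ h : (RatFunc F)[X],
    IsSquare (Algebra.norm (RatFunc F) (AdjoinRoot.mk (cubK f) h)) → Typ P f (0, 1) h →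
    ∃ g : Matrix (Fin 3) (Fin 3) (RatFunc F), g.det ≠ 0 ∧ GI (IP P) (gᵀ * g0 f h * g) ∧
      MI (IP P) (gᵀ * g1 f h * g) ∧
      ∀ z : Fin 3 → RatFunc F, (∀ i, z i ∈ IP P) → bil (gᵀ * g0 f h * g) z z / rf P ∈ IP P →
        bil (gᵀ * g1 f h * g) z z / rf P ∈ IP P → ∀ i, z i / rf P ∈ IP P

/-- QFP: the binary form attached to a polynomial modulo `P`: for a unit `p` the forms
`τ(p (X - e)² r²)` and `τ(X p (X - e)² r²)`, `r = r0 + r1 X`, modulo `P`. -/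
def QFPStmt : Prop :=
  ∀ (F : Type) [Field F] [Finite F], (2 : F) ≠ 0 → ∀ (P : F[X]) (f : F[X] × F[X] × F[X]),
    P.Monic → Irreducible P → ∀ (e β γ : F[X]), Spl P f e β γ →
    ∀ p : F[X][X], UnP P f p → ∃ (M N : Matrix (Fin 2) (Fin 2) F[X]) (νq : F[X]),
      (∀ i j, rf (M i j) = tau (kf f).1 (kf f).2.1 (kf f).2.2
        (lf (p * (X - C e) ^ 2 * X ^ ((i : ℕ) + (j : ℕ)))) ∧
        rf (N i j) = tau (kf f).1 (kf f).2.1 (kf f).2.2
          (lf (X * (p * (X - C e) ^ 2 * X ^ ((i : ℕ) + (j : ℕ)))))) ∧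
      ¬ P ∣ νq ∧ P ∣ M 0 0 * M 1 1 - M 0 1 ^ 2 + νq * (e ^ 2 + β * e + γ) ∧
      (∃ ν : F[X], Algebra.norm (RatFunc F) (AdjoinRoot.mk (cubK f) (lf p)) = rf ν ∧
        P ∣ ν - p.eval e * νq) ∧
      -- anisotropic, or two isotropic lines with values of `N` in different square classes
      ((¬ SqM P (νq * (e ^ 2 + β * e + γ)) ∧
        ∀ v : Fin 2 → F[X], P ∣ bil2 M v v → ∀ i, P ∣ v i) ∨
       (SqM P (νq * (e ^ 2 + β * e + γ)) ∧ ∃ v v' : Fin 2 → F[X],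
        P ∣ bil2 M v v ∧ P ∣ bil2 M v' v' ∧ ¬ P ∣ bil2 M v v' ∧ ¬ P ∣ v 0 * v' 1 - v 1 * v' 0 ∧
        ¬ P ∣ bil2 N v v ∧ ¬ P ∣ bil2 N v' v' ∧ ¬ SqM P (bil2 N v v * bil2 N v' v')))

/-- PLP: the Gram matrices of a class of odd type in the basis `s Q̃, s (X - e), s X (X - e)`. -/
def PLPStmt : Prop :=
  ∀ (F : Type) [Field F] [Finite F], (2 : F) ≠ 0 → ∀ (P : F[X]) (f : F[X] × F[X] × F[X]),
    P.Monic → Irreducible P → ∀ (e β γ : F[X]), Spl P f e β γ →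
    ∀ (h s : (RatFunc F)[X]) (p : F[X][X]), IsCoprime h (cubK f) → UnP P f p →
    cubK f ∣ h * s ^ 2 - lf (vp P β γ * p) →
    ∃ (g : Matrix (Fin 3) (Fin 3) (RatFunc F)) (G B : Matrix (Fin 3) (Fin 3) F[X]), g.det ≠ 0 ∧
      gᵀ * g0 f h * g = G.map (algebraMap F[X] (RatFunc F)) ∧
      gᵀ * g1 f h * g = B.map (algebraMap F[X] (RatFunc F)) ∧
      ¬ P ∣ G 0 0 ∧ (∀ j : Fin 2, P ∣ G 0 j.succ ∧ P ∣ B 0 j.succ) ∧
      ∀ i j : Fin 2, ∃ x y : F[X],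
        G i.succ j.succ = P * x ∧ B i.succ j.succ = P * y ∧
        (rf x - tau (kf f).1 (kf f).2.1 (kf f).2.2
          (lf (p * (X - C e) ^ 2 * X ^ ((i : ℕ) + (j : ℕ))))) / rf P ∈ IP P ∧
        (rf y - tau (kf f).1 (kf f).2.1 (kf f).2.2
          (lf (X * (p * (X - C e) ^ 2 * X ^ ((i : ℕ) + (j : ℕ)))))) / rf P ∈ IP P

/-- LBB: the lattice of a class of type `(1, 0)`. -/
def LBBStmt : Prop :=
  ∀ (F : Type) [Field F] [Finite F], (2 : F) ≠ 0 → ∀ (P : F[X]) (f : F[X] × F[X] × F[X]),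
    P.Monic → Irreducible P → ∀ h : (RatFunc F)[X], IsCoprime h (cubK f) →
    IsSquare (Algebra.norm (RatFunc F) (AdjoinRoot.mk (cubK f) h)) → Typ P f (1, 0) h →
    ∀ d : F[X], P ∣ d → ¬ P ^ 2 ∣ d →
    ∃ g : Matrix (Fin 3) (Fin 3) (RatFunc F), g.det ≠ 0 ∧ GI (IP P) (gᵀ * g0 f h * g) ∧
      MI (IP P) (rf d • (gᵀ * g1 f h * g)) ∧
      BShK P (gᵀ * g0 f h * g) (rf d • (gᵀ * g1 f h * g))

/-- LCC: the lattice of a class of type `(1, 1)`. -/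
def LCCStmt : Prop :=
  ∀ (F : Type) [Field F] [Finite F], (2 : F) ≠ 0 → ∀ (P : F[X]) (f : F[X] × F[X] × F[X]),
    P.Monic → Irreducible P → ∀ h : (RatFunc F)[X], IsCoprime h (cubK f) →
    IsSquare (Algebra.norm (RatFunc F) (AdjoinRoot.mk (cubK f) h)) → Typ P f (1, 1) h →
    OAP P (g0 f h)

/-- EXI: existence of the types. -/
def EXIStmt : Prop :=
  ∀ (F : Type) [Field F] [Finite F], (2 : F) ≠ 0 → ∀ (P : F[X]) (f : F[X] × F[X] × F[X]),
    P.Monic → Irreducible P → T12P P f → ∀ x : Ty, x = (0, 1) ∨ x = (1, 0) →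
    ∃ h : (RatFunc F)[X], IsCoprime h (cubK f) ∧
      IsSquare (Algebra.norm (RatFunc F) (AdjoinRoot.mk (cubK f) h)) ∧ Typ P f x h

/-- TYQ: the type is unique. -/
def TYQStmt : Prop :=
  ∀ (F : Type) [Field F] [Finite F], (2 : F) ≠ 0 → ∀ (P : F[X]) (f : F[X] × F[X] × F[X]),
    P.Monic → Irreducible P → ∀ h : (RatFunc F)[X], IsCoprime h (cubK f) →
    IsSquare (Algebra.norm (RatFunc F) (AdjoinRoot.mk (cubK f) h)) →
    ∀ x y : Ty, Typ P f x h → Typ P f y h → x = y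

end Pool.PRL
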