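import Pool.Agent.H75.PRL.Defs

/-!
# The Poonen-Rains law: statements of the modules, part 5 (integral matrices, counting)

`y : F[X] → Ty` is a pattern without the value `(1, 1)` on `T`, `d = pr (odd T y)`.
-/

set_option autoImplicit false

namespace Pool.PRL

open Polynomial Matrix Pool.AVR Pool.AVS Pool.RZ

section

variable {R : Type} [CommRing R]

/-- `T12` over a ring. -/
def T12R (t : R × R × R) : Prop :=
  ∃ e β γ : R, (∀ x : R, x ^ 2 + β * x + γ ≠ 0) ∧ t = (β - e, γ - e * β, -(e * γ))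

/-- Common isotropic vectors over a ring (in the applications a field). -/
def TrR (B : Matrix (Fin 3) (Fin 3) R) : Prop :=
  ∃ z : Fin 3 → R, z ≠ 0 ∧ bil (AA R) z z = 0 ∧ bil B z z = 0

end

/-- The residues modulo `P ^ 4` of the matrices of type `(1, 0)`. -/
def W4 {F : Type} [Field F] (P d : F[X]) : Set (Matrix (Fin 3) (Fin 3) (AdjoinRoot (P ^ 4))) :=
  {x | ∃ B : Matrix (Fin 3) (Fin 3) F[X], B.map (AdjoinRoot.mk (P ^ 4)) = x ∧ Bᵀ = B ∧ BSh P B ∧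
    ∃ f : F[X] × F[X] × F[X], T12P P f ∧ ia B = d * f.1 ∧ ib B = d ^ 2 * f.2.1 ∧
      ic B = d ^ 3 * f.2.2}

/-- TWP: the family and its twists. -/
def TWPStmt : Prop :=
  ∀ (F : Type) [Field F] [Finite F], (2 : F) ≠ 0 → ∀ (n : ℕ) (T : Finset F[X]), EvT T →
    (∀ S ⊆ T, (pr S).Monic ∧ Even (pr S).natDegree ∧ (pr S).natDegree = ∑ P ∈ S, P.natDegree ∧
      (∀ P : F[X], Irreducible P → ¬ P ^ 2 ∣ pr S) ∧
      ∀ P : F[X], P.Monic → Irreducible P → (P ∣ pr S ↔ P ∈ S)) ∧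
    ∀ f ∈ FmT F n T, f ∈ Fam F n ∧ NR (top3 n f) ∧ Irreducible (cubK f) ∧ (cubK f).Separable ∧
      disc f.1 f.2.1 f.2.2 ≠ 0 ∧ (∀ P : F[X], Irreducible P → ¬ P ^ 2 ∣ disc f.1 f.2.1 f.2.2) ∧
      (∀ P ∈ T, ¬ P ∣ disc f.1 f.2.1 f.2.2) ∧
      ∀ S ⊆ T, tw (pr S) f ∈ Irr F (n + (pr S).natDegree / 2) ∧
        tw (pr S) f ∈ Ell F (n + (pr S).natDegree / 2) ∧
        NR (top3 (n + (pr S).natDegree / 2) (tw (pr S) f)) ∧
        (∀ P ∈ T, P ∉ S → T12P P (tw (pr S) f)) ∧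
        ∀ S' ⊆ T, ∀ f' ∈ FmT F n T, tw (pr S) f = tw (pr S') f' → S = S' ∧ f = f'

/-- KYP: the integral matrix of a class with given types. -/
def KYPStmt : Prop :=
  ∀ (F : Type) [Field F] [Finite F], (2 : F) ≠ 0 → ∀ (n : ℕ) (T : Finset F[X]), EvT T →
    ∀ f ∈ FmT F n T, ∀ y : F[X] → Ty, (∀ P ∈ T, y P ≠ (1, 1)) →
    ∀ h : (RatFunc F)[X], IsCoprime h (cubK f) →
    IsSquare (Algebra.norm (RatFunc F) (AdjoinRoot.mk (cubK f) h)) →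
    (∀ P : F[X], P.Monic → Irreducible P → P ∉ T → US P f h) →
    (∀ P ∈ T, Typ P f (y P) h) →
    ∃ (m : ℕ) (B : Matrix (Fin 3) (Fin 3) F[X]),
      Bd (n + (pr (odd T y)).natDegree / 2) m B ∧
      RepH (kf (tw (pr (odd T y)) f)).1 (kf (tw (pr (odd T y)) f)).2.1
        (kf (tw (pr (odd T y)) f)).2.2 (scd (pr (odd T y)) h) (AA (RatFunc F))
        (B.map (algebraMap F[X] (RatFunc F))) ∧ LocY T y B

/-- CNP: the counting inequality for one curve. -/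
def CNPStmt : Prop :=
  ∀ (F : Type) [Field F] [Finite F], (2 : F) ≠ 0 → ∀ (n : ℕ) (T : Finset F[X]), 1 ≤ n → EvT T →
    ∀ f ∈ FmT F n T, ∀ y : F[X] → Ty, (∀ P ∈ T, y P ≠ (1, 1)) →
    (PatR f T y).Finite ∧
    ((PatR f T y).ncard : ℝ) ≤
      ∑ m ∈ Finset.range (n + (pr (odd T y)).natDegree / 2 + 1),
        ({B : Matrix (Fin 3) (Fin 3) F[X] | Bd (n + (pr (odd T y)).natDegree / 2) m B ∧
          (AA F[X] * B).charpoly = cubP (tw (pr (odd T y)) f) ∧ LocY T y B}.ncard : ℝ) /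
          (GG F m).ncard

/-- TCT: the number of cubics of type `T12`. -/
def TCTStmt : Prop :=
  ∀ (k : Type) [Field k] [Finite k],
    2 * {t : k × k × k | T12R t}.ncard = Nat.card k ^ 3 - Nat.card k ^ 2

/-- FB3: the fibre over a cubic of type `T12`, without common isotropic vector. -/
def FB3Stmt : Prop :=
  ∀ (k : Type) [Field k] [Finite k], (2 : k) ≠ 0 → ∀ t : k × k × k, T12R t →
    2 * {B : Matrix (Fin 3) (Fin 3) k | B ∈ Fb t.1 t.2.1 t.2.2 ∧ ¬ TrR B}.ncard ≤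
      Nat.card k ^ 3 - Nat.card k

/-- CBP: the conditions modulo `P`. -/
def CBPStmt : Prop :=
  ∀ (F : Type) [Field F] [Finite F], (2 : F) ≠ 0 → ∀ P : F[X], P.Monic → Irreducible P →
    (∀ f : F[X] × F[X] × F[X], T12P P f ↔
      T12R (AdjoinRoot.mk P f.1, AdjoinRoot.mk P f.2.1, AdjoinRoot.mk P f.2.2)) ∧
    (∀ B : Matrix (Fin 3) (Fin 3) F[X], TrP P B ↔ TrR (B.map (AdjoinRoot.mk P))) ∧
    (2 * ({t : AdjoinRoot P × AdjoinRoot P × AdjoinRoot P | T12R t}.ncard : ℝ) =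
      (Nat.card F : ℝ) ^ (3 * P.natDegree) - (Nat.card F : ℝ) ^ (2 * P.natDegree)) ∧
    (4 * ({B : Matrix (Fin 3) (Fin 3) (AdjoinRoot P) | Bᵀ = B ∧ T12R (ia B, ib B, ic B) ∧
      TrR B}.ncard : ℝ) ≤
      ((Nat.card F : ℝ) ^ (3 * P.natDegree) - (Nat.card F : ℝ) ^ P.natDegree) *
        ((Nat.card F : ℝ) ^ (3 * P.natDegree) - (Nat.card F : ℝ) ^ (2 * P.natDegree))) ∧
    4 * ({B : Matrix (Fin 3) (Fin 3) (AdjoinRoot P) | Bᵀ = B ∧ T12R (ia B, ib B, ic B) ∧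
      ¬ TrR B}.ncard : ℝ) ≤
      ((Nat.card F : ℝ) ^ (3 * P.natDegree) - (Nat.card F : ℝ) ^ P.natDegree) *
        ((Nat.card F : ℝ) ^ (3 * P.natDegree) - (Nat.card F : ℝ) ^ (2 * P.natDegree))

/-- FB4: the number of residues modulo `P ^ 4` of the matrices of type `(1, 0)`. -/
def FB4Stmt : Prop :=
  ∀ (F : Type) [Field F] [Finite F], (2 : F) ≠ 0 → ∀ P : F[X], P.Monic → Irreducible P →
    ∀ d : F[X], P ∣ d → ¬ P ^ 2 ∣ d →
    4 * ((W4 P d).ncard : ℝ) ≤ ((Nat.card F : ℝ) ^ (2 * P.natDegree) - 1) *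
      (Nat.card F : ℝ) ^ (13 * P.natDegree) *
      ((Nat.card F : ℝ) ^ (3 * P.natDegree) - (Nat.card F : ℝ) ^ (2 * P.natDegree))

/-- NUP: upper bound for the number of matrices. -/
def NUPStmt : Prop :=
  ∀ (F : Type) [Field F] [Finite F], (2 : F) ≠ 0 → ∀ (T S : Finset F[X]), EvT T →
    (∀ P ∈ S, P.Monic ∧ Irreducible P ∧ P ∉ T) → ∀ y : F[X] → Ty, (∀ P ∈ T, y P ≠ (1, 1)) →
    ∃ D : ℕ, ∀ n m : ℕ, m + D ≤ n + (pr (odd T y)).natDegree / 2 →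
    ({B : Matrix (Fin 3) (Fin 3) F[X] | Bd (n + (pr (odd T y)).natDegree / 2) m B ∧
      (∃ f ∈ FmT F n T, (AA F[X] * B).charpoly = cubP (tw (pr (odd T y)) f)) ∧
      LocY T y B}.ncard : ℝ) ≤
      (Nat.card F : ℝ) ^ (12 * n + 6) *
        (ddT F T S / 2 ^ T.card * (1 - 1 / (Nat.card F : ℝ) ^ 2)) *
        ((∏ P ∈ T, (1 - 1 / (Nat.card F : ℝ) ^ (2 * P.natDegree))) *
          ∏ P ∈ S, (1 - 1 / (Nat.card F : ℝ) ^ (2 * P.natDegree)))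

/-- DNP: lower bound for the number of curves of the family. -/
def DNPStmt : Prop :=
  ∀ (F : Type) [Field F] [Finite F], (2 : F) ≠ 0 → ∀ T : Finset F[X], EvT T →
    ∀ ε : ℝ, 0 < ε → ∃ D : ℕ, ∀ S : Finset F[X], (∀ P ∈ S, P.Monic ∧ Irreducible P ∧ P ∉ T) →
    (∀ P : F[X], P.Monic → Irreducible P → P.natDegree ≤ D → P ∉ T → P ∈ S) →
    ∃ N : ℕ, ∀ n : ℕ, N ≤ n → (FmT F n T).Finite ∧
      (Nat.card F : ℝ) ^ (12 * n + 3) * (ddT F T S - ε) ≤ (FmT F n T).ncard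

/-- PRP: the density is bounded below. -/
def PRPStmt : Prop :=
  ∀ (F : Type) [Field F] [Finite F], (2 : F) ≠ 0 → ∀ T : Finset F[X], EvT T →
    ∃ c : ℝ, 0 < c ∧ ∀ S : Finset F[X], (∀ P ∈ S, P.Monic ∧ Irreducible P) → c ≤ ddT F T S

/-- AVP: the average number of nontrivial classes with given types. -/
def AVPStmt : Prop :=
  ∀ (F : Type) [Field F] [Finite F], (2 : F) ≠ 0 → ∀ T : Finset F[X], EvT T →
    (∃ δ : ℝ, 0 < δ ∧ ∃ N : ℕ, ∀ n : ℕ, N ≤ n → (FmT F n T).Finite ∧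
      δ * (Nat.card F : ℝ) ^ (12 * n + 3) ≤ (FmT F n T).ncard) ∧
    ∀ y : F[X] → Ty, (∀ P ∈ T, y P ≠ (1, 1)) → ∀ ε : ℝ, 0 < ε → ∃ N : ℕ, ∀ n : ℕ, N ≤ n →
      (FmT F n T).Finite ∧ (∀ f ∈ FmT F n T, (PatR f T y).Finite) ∧
      ∑ᶠ f ∈ FmT F n T, ((PatR f T y).ncard : ℝ) ≤ (2 / 2 ^ T.card + ε) * (FmT F n T).ncard

end Pool.PRL
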