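import Pool.Agent.H75.PRL.S7

/-! # PRL, module FIQ: from the law for one curve to the law for a family -/

set_option autoImplicit false

namespace Pool.PRL

open Polynomial Matrix Pool.AVR Pool.AVS Pool.RZ

namespace FIQ

open FIP

open Classical in
/-- Counting pairs. -/
theorem cnt {F : Type} [Field F] (hTWP : TWPStmt) [Finite F] (h2 : (2 : F) ≠ 0) {e n : ℕ}
    {T1 T2 : Finset F[X]} (ha : Adm e T1 T2) {A : Set (F[X] × F[X] × F[X])}
    (hAs : A ⊆ FmT F n (T1 ∪ T2)) (hA : A.Finite) (q : F[X] × F[X] × F[X] → Prop) :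
    {g | g ∈ ZA T1 T2 A ∧ q g}.Finite ∧
    {g | g ∈ ZA T1 T2 A ∧ q g}.ncard =
      ∑ f ∈ hA.toFinset, {S | S ∈ Sl T1 T2 ∧ q (tw (pr S) f)}.ncard := by
  have hT := hTWP F h2 n (T1 ∪ T2) (adm_ev ha)
  set A' := hA.toFinset with hAdef
  have hinj : Set.InjOn (fun x : (F[X] × F[X] × F[X]) × Finset F[X] => tw (pr x.2) x.1)
      (A' ×ˢ Sl T1 T2 : Finset _) := by
    rintro ⟨f, S⟩ hx ⟨f', S'⟩ hx' hxx
    rw [Finset.mem_coe, Finset.mem_product] at hx hx'
    have h3 := (hT.2 f (hAs (hA.mem_toFinset.1 hx.1))).2.2.2.2.2.2.2 S (Sl_sub hx.2)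
    have h4 := h3.2.2.2.2 S' (Sl_sub hx'.2) f' (hAs (hA.mem_toFinset.1 hx'.1)) hxx
    exact Prod.ext h4.2 h4.1
  have hset : {g | g ∈ ZA T1 T2 A ∧ q g} =
      (((A' ×ˢ Sl T1 T2).filter fun x => q (tw (pr x.2) x.1)).image
        (fun x : (F[X] × F[X] × F[X]) × Finset F[X] => tw (pr x.2) x.1) : Finset _) := by
    ext g
    simp only [Finset.coe_image, Finset.coe_filter, Finset.mem_product, Set.mem_image]
    constructor
    · rintro ⟨⟨f, hf, S, hS, rfl⟩, hq⟩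
      exact ⟨(f, S), ⟨⟨hA.mem_toFinset.2 hf, hS⟩, hq⟩, rfl⟩
    · rintro ⟨⟨f, S⟩, ⟨⟨hf, hS⟩, hq⟩, rfl⟩
      exact ⟨⟨f, hA.mem_toFinset.1 hf, S, hS, rfl⟩, hq⟩
  refine ⟨by rw [hset]; exact Finset.finite_toSet _, ?_⟩
  rw [hset, Set.ncard_coe_finset, Finset.card_image_of_injOn
    (hinj.mono (by exact_mod_cast Finset.filter_subset _ _))]
  have e1 : ∀ f, {S | S ∈ Sl T1 T2 ∧ q (tw (pr S) f)}.ncard =
      ((Sl T1 T2).filter fun S => q (tw (pr S) f)).card := by
    intro f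
    rw [← Set.ncard_coe_finset]
    congr 1
    ext S
    simp
  simp only [e1]
  rw [Finset.card_filter, Finset.sum_product]
  refine Finset.sum_congr rfl fun f _ => ?_
  rw [Finset.card_filter]

end FIQ

open FIP FIQ in
open Classical in
theorem fiq (hTWP : TWPStmt) (hIDN : IDNStmt) (hRKP : RKPStmt) : FIQStmt := by
  intro F _ _ h2 ε e n T1 T2 A₀ hε ha ho hAs hfin hne hlaw
  obtain ⟨hPRpos, _, hPRsum, _, hPR0, _, hPR1⟩ := hIDN
  have hdis := adm_dis ha
  have hev := adm_ev ha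
  have hT := hTWP F h2 n (T1 ∪ T2) hev
  set A := hfin.toFinset with hAdef
  have hAc : A₀.ncard = A.card := Set.ncard_eq_toFinset_card _ hfin
  have hAne : A.Nonempty := by
    rw [hAdef, Set.Finite.toFinset_nonempty]
    exact hne
  have hA0 : (0 : ℝ) < A.card := by exact_mod_cast hAne.card_pos
  have hS0 : 0 < (Sl T1 T2).card := by
    rcases Sl_card (T1 := T1) (T2 := T2) with h | h
    · exact h
    · rw [h] at ho
      exact absurd ho (by decide)
  have hS0' : (0 : ℝ) < (Sl T1 T2).card := by exact_mod_cast hS0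
  have hsub : ZA T1 T2 A₀ ⊆ Irr F (n + e * (T1.card / 2 + 1)) := by
    rintro g ⟨f, hf, S, hS, rfl⟩
    have h3 := ((hT.2 f (hAs hf)).2.2.2.2.2.2.2 S (Sl_sub hS)).1
    rwa [((hT.1 S (Sl_sub hS)).2.2.1), deg_Sl ha hdis hS,
      Nat.mul_div_cancel_left _ two_pos] at h3
  have hcnt := fun q => cnt hTWP h2 ha hAs hfin q
  have hZc : (ZA T1 T2 A₀).ncard = (Sl T1 T2).card * A.card := by
    have h3 := (hcnt (fun _ => True)).2
    simp only [and_true, Set.ofPred_mem_eq] at h3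
    rw [h3]
    have h4 : ∀ f ∈ hfin.toFinset, {S | S ∈ Sl T1 T2}.ncard = (Sl T1 T2).card := by
      intro f _
      exact Set.ncard_coe_finset _
    rw [Finset.sum_congr rfl h4, Finset.sum_const, smul_eq_mul, mul_comm]
  have hZfin : (ZA T1 T2 A₀).Finite := by
    have h3 := (hcnt (fun _ => True)).1
    simpa only [and_true, Set.ofPred_mem_eq] using h3
  have hZ0 : (0 : ℝ) < (ZA T1 T2 A₀).ncard := by
    rw [hZc]
    push_cast
    positivity
  -- proportions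
  have hprop : ∀ q : F[X] × F[X] × F[X] → Prop,
      ({g | g ∈ ZA T1 T2 A₀ ∧ q g}.ncard : ℝ) / (ZA T1 T2 A₀).ncard =
      (∑ f ∈ A, (({S | S ∈ Sl T1 T2 ∧ q (tw (pr S) f)}.ncard : ℝ) / (Sl T1 T2).card)) /
        A.card := by
    intro q
    rw [(hcnt q).2, hZc]
    push_cast
    rw [← Finset.sum_div, div_div]
  have hmain : ∀ R : ℕ, ∑ r ∈ Finset.range R,
      |({g | g ∈ ZA T1 T2 A₀ ∧ (Sel g).ncard = 2 ^ r}.ncard : ℝ) / (ZA T1 T2 A₀).ncard -
        PR r| ≤ 3 * ε := by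
    intro R
    have h5 := avg A hAne
      (fun f r => ({S | S ∈ Sl T1 T2 ∧ (Sel (tw (pr S) f)).ncard = 2 ^ r}.ncard : ℝ) /
        (Sl T1 T2).card) PR (LawF ε T1 T2) ε 2 ε R (by norm_num) hε.le
      (fun f _ hg => hg.2.2 R) ?_ ?_
    · refine le_trans (le_of_eq (Finset.sum_congr rfl fun r _ => ?_)) (h5.trans (by linarith))
      rw [hprop (fun g => (Sel g).ncard = 2 ^ r)]
    · intro f _
      have h6 : ∑ r ∈ Finset.range R,
          ({S | S ∈ Sl T1 T2 ∧ (Sel (tw (pr S) f)).ncard = 2 ^ r}.ncard : ℝ) /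
            (Sl T1 T2).card ≤ 1 := by
        rw [← Finset.sum_div, div_le_one hS0']
        have h7 : ∀ r, {S | S ∈ Sl T1 T2 ∧ (Sel (tw (pr S) f)).ncard = 2 ^ r}.ncard =
            ((Sl T1 T2).filter fun S => (Sel (tw (pr S) f)).ncard = 2 ^ r).card := by
          intro r
          rw [← Set.ncard_coe_finset]
          congr 1
          ext S
          simp
        simp only [h7]
        rw [← Nat.cast_sum]
        have h8 := Finset.card_biUnion (s := Finset.range R)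
          (t := fun r => (Sl T1 T2).filter fun S => (Sel (tw (pr S) f)).ncard = 2 ^ r) ?_
        · rw [← h8]
          exact_mod_cast Finset.card_le_card (Finset.biUnion_subset.2 fun r _ =>
            Finset.filter_subset _ _)
        · intro r _ r' _ hrr
          rw [Function.onFun, Finset.disjoint_left]
          intro S hS hS'
          rw [Finset.mem_filter] at hS hS'
          exact hrr (Nat.pow_right_injective (le_refl 2) (hS.2.symm.trans hS'.2))
      have h9 : ∑ r ∈ Finset.range R, PR r ≤ 1 :=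
        sum_le_hasSum _ (fun r _ => (hPRpos r).le) hPRsum
      calc _ ≤ ∑ r ∈ Finset.range R,
            (({S | S ∈ Sl T1 T2 ∧ (Sel (tw (pr S) f)).ncard = 2 ^ r}.ncard : ℝ) /
              (Sl T1 T2).card + PR r) := by
            refine Finset.sum_le_sum fun r _ => ?_
            rw [abs_le]
            have := (hPRpos r).le
            have h10 : (0 : ℝ) ≤ ({S | S ∈ Sl T1 T2 ∧
              (Sel (tw (pr S) f)).ncard = 2 ^ r}.ncard : ℝ) / (Sl T1 T2).card := by positivity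
            constructor <;> linarith
        _ ≤ 2 := by
            rw [Finset.sum_add_distrib]
            linarith
    · rw [hAc] at hlaw
      simpa only [hAdef, Set.Finite.mem_toFinset] using hlaw
  refine ⟨hsub, hZfin, by rw [hZc, hAc], hS0, hmain, ?_, ?_, ?_⟩
  · have h5 := avg A hAne
      (fun f _ => (({S | S ∈ Sl T1 T2 ∧ ∃ r : ℕ, Even r ∧
        (Sel (tw (pr S) f)).ncard = 2 ^ r}.ncard : ℝ) / (Sl T1 T2).card))
      (fun _ => 1 / 2) (LawF ε T1 T2) 0 1 ε 1 zero_le_one le_rfl ?_ ?_ ?_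
    · rw [Finset.sum_range_one] at h5
      rw [hprop (fun g => ∃ r : ℕ, Even r ∧ (Sel g).ncard = 2 ^ r)]
      linarith
    · intro f _ hg
      rw [Finset.sum_range_one]
      have h6 := hg.2.1
      have h7 : (2 : ℝ) * ({S | S ∈ Sl T1 T2 ∧ ∃ r : ℕ, Even r ∧
        (Sel (tw (pr S) f)).ncard = 2 ^ r}.ncard : ℝ) = (Sl T1 T2).card := by exact_mod_cast h6
      rw [← h7, abs_nonpos_iff]
      have h8 : ({S | S ∈ Sl T1 T2 ∧ ∃ r : ℕ, Even r ∧
        (Sel (tw (pr S) f)).ncard = 2 ^ r}.ncard : ℝ) ≠ 0 := by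
        intro h
        rw [h, mul_zero] at h7
        exact hS0'.ne h7
      field_simp
      norm_num
    · intro f _
      rw [Finset.sum_range_one]
      have h6 : {S | S ∈ Sl T1 T2 ∧ ∃ r : ℕ, Even r ∧
          (Sel (tw (pr S) f)).ncard = 2 ^ r}.ncard ≤ (Sl T1 T2).card := by
        rw [← Set.ncard_coe_finset]
        exact Set.ncard_le_ncard (fun S hS => hS.1) (Finset.finite_toSet _)
      have h7 : ({S | S ∈ Sl T1 T2 ∧ ∃ r : ℕ, Even r ∧
          (Sel (tw (pr S) f)).ncard = 2 ^ r}.ncard : ℝ) / (Sl T1 T2).card ≤ 1 := by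
        rw [div_le_one hS0']
        exact_mod_cast h6
      have h8 : (0 : ℝ) ≤ ({S | S ∈ Sl T1 T2 ∧ ∃ r : ℕ, Even r ∧
          (Sel (tw (pr S) f)).ncard = 2 ^ r}.ncard : ℝ) / (Sl T1 T2).card := by positivity
      rw [abs_le]
      constructor <;> linarith
    · rw [hAc] at hlaw
      simpa only [hAdef, Set.Finite.mem_toFinset] using hlaw
  · have h3 := hmain 1
    rw [Finset.sum_range_one, pow_zero] at h3
    have h4 := (abs_le.1 h3).1
    have h5 : (0.2097 - 3 * ε) ≤ ({g | g ∈ ZA T1 T2 A₀ ∧ (Sel g).ncard = 1}.ncard : ℝ) /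
        (ZA T1 T2 A₀).ncard := by linarith
    rw [le_div_iff₀ hZ0] at h5
    refine h5.trans ?_
    have h6 : {g | g ∈ ZA T1 T2 A₀ ∧ (Sel g).ncard = 1}.ncard ≤
        {g | g ∈ ZA T1 T2 A₀ ∧ Finite (EK g)}.ncard :=
      Set.ncard_le_ncard (fun g hg => ⟨hg.1, (hRKP F h2 _ g (hsub hg.1)).1 hg.2⟩)
        (hZfin.subset fun g hg => hg.1)
    exact_mod_cast h6
  · have h3 := hmain 2
    rw [Finset.sum_range_succ, Finset.sum_range_one, pow_zero, pow_one] at h3
    have h4 := abs_le.1 (le_refl |({g | g ∈ ZA T1 T2 A₀ ∧ (Sel g).ncard = 1}.ncard : ℝ) /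
      (ZA T1 T2 A₀).ncard - PR 0|)
    have h5 := abs_le.1 (le_refl |({g | g ∈ ZA T1 T2 A₀ ∧ (Sel g).ncard = 2}.ncard : ℝ) /
      (ZA T1 T2 A₀).ncard - PR 1|)
    have h6 : (0.6291 - 3 * ε) ≤ (({g | g ∈ ZA T1 T2 A₀ ∧ (Sel g).ncard = 1}.ncard : ℝ) +
        ({g | g ∈ ZA T1 T2 A₀ ∧ (Sel g).ncard = 2}.ncard : ℝ)) /
        (ZA T1 T2 A₀).ncard := by
      rw [add_div]
      linarith [h4.1, h5.1]
    rw [le_div_iff₀ hZ0] at h6
    refine h6.trans ?_
    have h7 : Disjoint {g | g ∈ ZA T1 T2 A₀ ∧ (Sel g).ncard = 1}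
        {g | g ∈ ZA T1 T2 A₀ ∧ (Sel g).ncard = 2} := by
      rw [Set.disjoint_left]
      rintro g ⟨_, h8⟩ ⟨_, h9⟩
      omega
    have h8 := Set.ncard_union_eq h7 (hZfin.subset fun g hg => hg.1)
      (hZfin.subset fun g hg => hg.1)
    have h9 : ({g | g ∈ ZA T1 T2 A₀ ∧ (Sel g).ncard = 1} ∪
        {g | g ∈ ZA T1 T2 A₀ ∧ (Sel g).ncard = 2}).ncard ≤
        {g | g ∈ ZA T1 T2 A₀ ∧ AddGroup.FG (EK g) ∧ rk g ≤ 1}.ncard := by
      refine Set.ncard_le_ncard ?_ (hZfin.subset fun g hg => hg.1)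
      rintro g (hg | hg)
      · exact ⟨hg.1, (hRKP F h2 _ g (hsub hg.1)).2 (Or.inl hg.2)⟩
      · exact ⟨hg.1, (hRKP F h2 _ g (hsub hg.1)).2 (Or.inr hg.2)⟩
    rw [h8] at h9
    exact_mod_cast h9

end Pool.PRL
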