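import Pool.Agent.H75.PRL.S7

/-! # PRL, module SHA: short equations -/

set_option autoImplicit false

namespace Pool.PRL

open Polynomial Matrix Pool.AVR Pool.AVS Pool.RZ

namespace SHA

section

variable {F : Type} [Field F]

theorem subs_comp {f f' f0 : F[X] × F[X] × F[X]} {r r0 : F[X]} (h : Subs 1 r f f')
    (h0 : Subs 1 r0 f f0) : Subs 1 (r0 - r) f' f0 := by
  obtain ⟨a1, a2, a3⟩ := h
  obtain ⟨b1, b2, b3⟩ := h0
  refine ⟨?_, ?_, ?_⟩
  · rw [b1, a1]; ring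
  · rw [b2, a2, a1]; ring
  · rw [b3, a3, a2, a1]; ring

theorem subs_symm {f f' : F[X] × F[X] × F[X]} {r : F[X]} (h : Subs 1 r f f') :
    Subs 1 (-r) f' f := by
  have h0 : Subs 1 0 f f := ⟨by ring, by ring, by ring⟩
  have := subs_comp h h0
  rwa [zero_sub] at this

theorem subs_tw {f f' : F[X] × F[X] × F[X]} {r : F[X]} (h : Subs 1 r f f') (d : F[X]) :
    Subs 1 (d * r) (tw d f) (tw d f') := by
  obtain ⟨a1, a2, a3⟩ := h
  refine ⟨?_, ?_, ?_⟩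
  · simp only [tw]; rw [a1]; ring
  · simp only [tw]; rw [a2]; ring
  · simp only [tw]; rw [a3]; ring

/-- The degree of a translation. -/
theorem deg_r (h3 : (3 : F) ≠ 0) {n : ℕ} {f f' : F[X] × F[X] × F[X]} {r : F[X]}
    (h : Subs 1 r f f') (hf : f ∈ Fam F n) (hf' : f' ∈ Fam F n) : r.natDegree ≤ 2 * n := by
  have e1 : r = C (3⁻¹ : F) * (f.1 - f'.1) := by
    rw [h.1]
    have : C (3⁻¹ : F) * (f.1 - (1 ^ 2 * f.1 - 3 * r)) = C (3⁻¹ * 3 : F) * r := by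
      rw [C_mul, show (C (3 : F) : F[X]) = 3 from rfl]
      ring
    rw [this, inv_mul_cancel₀ h3, C_1, one_mul]
  rw [e1]
  refine (natDegree_C_mul_le _ _).trans ?_
  exact (natDegree_sub_le _ _).trans (max_le hf.1 hf'.1)

theorem fam_subs {n : ℕ} {f f' : F[X] × F[X] × F[X]} {r : F[X]} (h : Subs 1 r f f')
    (hf : f ∈ Fam F n) (hr : r.natDegree ≤ 2 * n) : f' ∈ Fam F n := by
  obtain ⟨a1, a2, a3⟩ := h
  obtain ⟨b1, b2, b3⟩ := hf
  have c3 : (3 : F[X]).natDegree = 0 := by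
    rw [show (3 : F[X]) = C (3 : F) from rfl, natDegree_C]
  have c2 : (2 : F[X]).natDegree = 0 := by
    rw [show (2 : F[X]) = C (2 : F) from rfl, natDegree_C]
  refine ⟨?_, ?_, ?_⟩
  · rw [a1]
    refine (natDegree_sub_le _ _).trans (max_le ?_ ?_)
    · simpa using b1
    · exact natDegree_mul_le.trans (by omega)
  · rw [a2]
    refine (natDegree_add_le _ _).trans (max_le ((natDegree_sub_le _ _).trans (max_le ?_ ?_)) ?_)
    · simpa using b2
    · have e1 := natDegree_mul_le (p := 2 * 1 ^ 2 * r) (q := f.1)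
      have e2 := natDegree_mul_le (p := (2 : F[X]) * 1 ^ 2) (q := r)
      have e3 : ((2 : F[X]) * 1 ^ 2).natDegree = 0 := by rw [one_pow, mul_one, c2]
      omega
    · have e1 := natDegree_mul_le (p := (3 : F[X])) (q := r ^ 2)
      have e2 := natDegree_pow_le (p := r) (n := 2)
      omega
  · rw [a3]
    refine (natDegree_sub_le _ _).trans (max_le ((natDegree_add_le _ _).trans (max_le
      ((natDegree_sub_le _ _).trans (max_le ?_ ?_)) ?_)) ?_)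
    · simpa using b3
    · rw [one_pow, one_mul]
      have e1 := natDegree_mul_le (p := r) (q := f.2.1)
      omega
    · rw [one_pow, one_mul]
      have e1 := natDegree_mul_le (p := r ^ 2) (q := f.1)
      have e2 := natDegree_pow_le (p := r) (n := 2)
      omega
    · have e2 := natDegree_pow_le (p := r) (n := 3)
      omega

theorem coeff_mul3 {p q : F[X]} {a b : ℕ} (hp : p.natDegree ≤ a) (hq : q.natDegree ≤ b) :
    (p * q).coeff (a + b) = p.coeff a * q.coeff b := coeff_mul_add_eq_of_natDegree_le hp hq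

/-- The top coefficients. -/
theorem top_subs {n : ℕ} {f f' : F[X] × F[X] × F[X]} {r : F[X]} (h : Subs 1 r f f')
    (hf : f ∈ Fam F n) (hr : r.natDegree ≤ 2 * n) :
    top3 n f' = ((top3 n f).1 - 3 * r.coeff (2 * n),
      (top3 n f).2.1 - 2 * r.coeff (2 * n) * (top3 n f).1 + 3 * r.coeff (2 * n) ^ 2,
      (top3 n f).2.2 - r.coeff (2 * n) * (top3 n f).2.1 + r.coeff (2 * n) ^ 2 * (top3 n f).1 -
        r.coeff (2 * n) ^ 3) := by
  obtain ⟨a1, a2, a3⟩ := h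
  obtain ⟨b1, b2, b3⟩ := hf
  have hr2 : (r * r).natDegree ≤ 2 * n + 2 * n := natDegree_mul_le.trans (by omega)
  have k2 : ∀ (p : F[X]) (k : ℕ), (2 * p).coeff k = 2 * p.coeff k := fun p k => by
    rw [show (2 : F[X]) = C (2 : F) from rfl, coeff_C_mul]
  have k3 : ∀ (p : F[X]) (k : ℕ), (3 * p).coeff k = 3 * p.coeff k := fun p k => by
    rw [show (3 : F[X]) = C (3 : F) from rfl, coeff_C_mul]
  have e1 : f'.1.coeff (2 * n) = f.1.coeff (2 * n) - 3 * r.coeff (2 * n) := by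
    rw [a1, one_pow, one_mul, coeff_sub, k3]
  have e2 : f'.2.1.coeff (4 * n) = f.2.1.coeff (4 * n) -
      2 * r.coeff (2 * n) * f.1.coeff (2 * n) + 3 * r.coeff (2 * n) ^ 2 := by
    have : f'.2.1 = f.2.1 - 2 * (r * f.1) + 3 * (r * r) := by rw [a2]; ring
    rw [this, coeff_add, coeff_sub, k2, k3, show 4 * n = 2 * n + 2 * n by ring,
      coeff_mul3 hr b1, coeff_mul3 hr hr]
    ring
  have e3 : f'.2.2.coeff (6 * n) = f.2.2.coeff (6 * n) -
      r.coeff (2 * n) * f.2.1.coeff (4 * n) + r.coeff (2 * n) ^ 2 * f.1.coeff (2 * n) -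
        r.coeff (2 * n) ^ 3 := by
    have : f'.2.2 = f.2.2 - r * f.2.1 + r * r * f.1 - r * r * r := by rw [a3]; ring
    rw [this, coeff_sub, coeff_add, coeff_sub]
    have g1 : (r * f.2.1).coeff (6 * n) = r.coeff (2 * n) * f.2.1.coeff (4 * n) := by
      rw [show 6 * n = 2 * n + 4 * n by ring, coeff_mul3 hr b2]
    have g2 : (r * r * f.1).coeff (6 * n) =
        r.coeff (2 * n) * r.coeff (2 * n) * f.1.coeff (2 * n) := by
      rw [show 6 * n = (2 * n + 2 * n) + 2 * n by ring, coeff_mul3 hr2 b1, coeff_mul3 hr hr]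
    have g3 : (r * r * r).coeff (6 * n) =
        r.coeff (2 * n) * r.coeff (2 * n) * r.coeff (2 * n) := by
      rw [show 6 * n = (2 * n + 2 * n) + 2 * n by ring, coeff_mul3 hr2 hr, coeff_mul3 hr hr]
    rw [g1, g2, g3]
    ring
  unfold top3
  rw [e1, e2, e3]

theorem nr_subs {t : F × F × F} (r : F) (h : NR t) :
    NR (t.1 - 3 * r, t.2.1 - 2 * r * t.1 + 3 * r ^ 2,
      t.2.2 - r * t.2.1 + r ^ 2 * t.1 - r ^ 3) := by
  intro x hx
  refine h (x - r) ?_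
  rw [← hx]
  ring

theorem t12r_subs {R : Type} [CommRing R] {a b c : R} (r : R) (h : T12R (a, b, c)) :
    T12R (a - 3 * r, b - 2 * r * a + 3 * r ^ 2, c - r * b + r ^ 2 * a - r ^ 3) := by
  obtain ⟨e, β, γ, h1, h2⟩ := h
  obtain ⟨rfl, rfl, rfl⟩ : a = β - e ∧ b = γ - e * β ∧ c = -(e * γ) := by
    simpa [Prod.ext_iff] using h2
  refine ⟨e + r, β - 2 * r, γ - β * r + r ^ 2, ?_, ?_⟩
  · intro x hx
    refine h1 (x - r) ?_
    rw [← hx]
    ring
  · refine Prod.ext ?_ (Prod.ext ?_ ?_)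
    · ring
    · ring
    · ring

end

open Classical in
theorem fmt_subs (hCBP : CBPStmt) {F : Type} [Field F] [Finite F] (h2 : (2 : F) ≠ 0)
    (h3 : (3 : F) ≠ 0) {n : ℕ} {T : Finset F[X]} (hT : EvT T) {f f' : F[X] × F[X] × F[X]}
    {r : F[X]} (h : Subs 1 r f f') (hf' : f' ∈ Fam F n) (hf : f ∈ FmT F n T) :
    f' ∈ FmT F n T := by
  obtain ⟨⟨hfF, hsq, hdeg⟩, hT12, hNR⟩ := hf
  have hr := deg_r h3 h hfF hf'
  have hd := disc_subs h
  refine ⟨⟨hf', by rw [hd]; exact hsq, by rw [hd]; exact hdeg⟩, ?_, ?_⟩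
  · intro P hP
    have h4 := ((hCBP F h2 P (hT P hP).1 (hT P hP).2.1).1 f).1 (hT12 P hP)
    rw [(hCBP F h2 P (hT P hP).1 (hT P hP).2.1).1 f']
    have h5 := t12r_subs (AdjoinRoot.mk P r) h4
    obtain ⟨a1, a2, a3⟩ := h
    rw [a1, a2, a3]
    convert h5 using 2
    · simp only [map_sub, map_mul, map_pow, map_one, map_ofNat]
      ring
    · refine Prod.ext ?_ ?_
      · simp only [map_add, map_sub, map_mul, map_pow, map_one, map_ofNat]
        ring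
      · simp only [map_add, map_sub, map_mul, map_pow, map_one]
        ring
  · rw [top_subs h hfF hr]
    exact nr_subs _ hNR

open Classical in
theorem lawF_subs (hSHI : SHIStmt) {F : Type} [Field F] {ε : ℝ} {T1 T2 : Finset F[X]}
    {f f' : F[X] × F[X] × F[X]} {r : F[X]} (h : Subs 1 r f f') (hl : LawF ε T1 T2 f) :
    LawF ε T1 T2 f' := by
  have hn : ∀ S : Finset F[X], (Sel (tw (pr S) f')).ncard = (Sel (tw (pr S) f)).ncard :=
    fun S => ((hSHI F _ _ 1 _ one_ne_zero (subs_tw h (pr S))).1).symm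
  obtain ⟨h1, h2, h3⟩ := hl
  refine ⟨fun S hS => ?_, ?_, ?_⟩
  · obtain ⟨_, r, hr⟩ := h1 S hS
    refine ⟨Set.finite_of_ncard_pos ?_, r, by rw [hn, hr]⟩
    rw [hn, hr]
    positivity
  · simpa only [hn] using h2
  · simpa only [hn] using h3

open Classical in
/-- Counting with a translation invariant property. -/
theorem cnt (hSHC : SHCStmt) {F : Type} [Field F] [Finite F] (h2 : (2 : F) ≠ 0)
    (h3 : (3 : F) ≠ 0) (n : ℕ) (hfin : (Ell F n).Finite) (Q : F[X] × F[X] × F[X] → Prop)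
    (hQ : ∀ (f f' : F[X] × F[X] × F[X]) (r : F[X]), Subs 1 r f f' → f ∈ Ell F n →
      f' ∈ Ell F n → (Q f ↔ Q f')) :
    {f | f ∈ Ell F n ∧ Q f}.ncard = Nat.card F ^ (2 * n + 1) * {f | f ∈ Sht F n ∧ Q f}.ncard := by
  obtain ⟨hSf, hS⟩ := hSHC F h2 h3 (fun f => if ∃ (f0 : F[X] × F[X] × F[X]) (r : F[X]),
    Subs 1 r f f0 ∧ f0.1 = 0 ∧ f0 ∈ Ell F n ∧ Q f0 then 1 else 0) (fun f f' r hr => by
      have e1 : (∃ (f0 : F[X] × F[X] × F[X]) (r : F[X]),
          Subs 1 r f f0 ∧ f0.1 = 0 ∧ f0 ∈ Ell F n ∧ Q f0) ↔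
          ∃ (f0 : F[X] × F[X] × F[X]) (r : F[X]),
          Subs 1 r f' f0 ∧ f0.1 = 0 ∧ f0 ∈ Ell F n ∧ Q f0 := by
        constructor
        · rintro ⟨f0, r0, h4, h5⟩
          exact ⟨f0, _, subs_comp hr h4, h5⟩
        · rintro ⟨f0, r0, h4, h5⟩
          exact ⟨f0, _, subs_comp (subs_symm hr) h4, h5⟩
      simp only [e1]) n
  rw [finsum_mem_eq_finite_toFinset_sum _ hfin, finsum_mem_eq_finite_toFinset_sum _ hSf,
    Finset.sum_boole, Finset.sum_boole] at hS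
  have e2 : ((hfin.toFinset.filter fun f => ∃ (f0 : F[X] × F[X] × F[X]) (r : F[X]),
      Subs 1 r f f0 ∧ f0.1 = 0 ∧ f0 ∈ Ell F n ∧ Q f0).card) =
      {f | f ∈ Ell F n ∧ Q f}.ncard := by
    rw [← Set.ncard_coe_finset]
    congr 1
    ext f
    simp only [Finset.coe_filter, Set.Finite.mem_toFinset]
    refine and_congr_right fun hf => ?_
    constructor
    · rintro ⟨f0, r, h4, h5, h6, h7⟩
      exact (hQ f f0 r h4 hf h6).2 h7
    · intro hq
      set r : F[X] := C (3⁻¹ : F) * f.1 with hr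
      have hrd : r.natDegree ≤ 2 * n := (natDegree_C_mul_le _ _).trans hf.1.1
      set f0 : F[X] × F[X] × F[X] := (1 ^ 2 * f.1 - 3 * r,
        1 ^ 4 * f.2.1 - 2 * 1 ^ 2 * r * f.1 + 3 * r ^ 2,
        1 ^ 6 * f.2.2 - 1 ^ 4 * r * f.2.1 + 1 ^ 2 * r ^ 2 * f.1 - r ^ 3) with hf0
      have h4 : Subs 1 r f f0 := ⟨rfl, rfl, rfl⟩
      have h5 : f0.1 = 0 := by
        rw [hf0, hr]
        have : (3 : F[X]) * (C (3⁻¹ : F) * f.1) = C (3 * 3⁻¹ : F) * f.1 := by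
          rw [C_mul, show (C (3 : F) : F[X]) = 3 from rfl]
          ring
        rw [this, mul_inv_cancel₀ h3, C_1]
        ring
      have h6 : f0 ∈ Ell F n := ⟨fam_subs h4 hf.1 hrd, by rw [disc_subs h4]; exact hf.2⟩
      exact ⟨f0, r, h4, h5, h6, (hQ f f0 r h4 hf h6).1 hq⟩
  have e3 : ((hSf.toFinset.filter fun f => ∃ (f0 : F[X] × F[X] × F[X]) (r : F[X]),
      Subs 1 r f f0 ∧ f0.1 = 0 ∧ f0 ∈ Ell F n ∧ Q f0).card) =
      {f | f ∈ Sht F n ∧ Q f}.ncard := by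
    rw [← Set.ncard_coe_finset]
    congr 1
    ext f
    simp only [Finset.coe_filter, Set.Finite.mem_toFinset]
    refine and_congr_right fun hf => ?_
    constructor
    · rintro ⟨f0, r, h4, h5, h6, h7⟩
      exact (hQ f f0 r h4 hf.1 h6).2 h7
    · intro hq
      exact ⟨f, 0, ⟨by ring, by ring, by ring⟩, hf.2, hf.1, hq⟩
  rw [e2, e3] at hS
  exact_mod_cast hS

end SHA

open SHA in
open Classical in
theorem sha (hCBP : CBPStmt) (hTWP : TWPStmt) (hSHI : SHIStmt) (hSHC : SHCStmt)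
    (hCNF : CNFStmt) : SHAStmt := by
  intro F _ _ h2 h3 n ε T1 T2 hev
  have hfin : (Ell F n).Finite := by
    refine (hCNF F h2 (n + 1) (by omega)).1.subset fun f hf => ?_
    refine ⟨hf.1.1.trans ?_, hf.1.2.1.trans ?_, hf.1.2.2.trans ?_⟩ <;> omega
  have hE : ∀ f ∈ FmT F n (T1 ∪ T2), f ∈ Ell F n := fun f hf =>
    ⟨((hTWP F h2 n _ hev).2 f hf).1, ((hTWP F h2 n _ hev).2 f hf).2.2.2.2.1⟩
  have hF : ∀ (f f' : F[X] × F[X] × F[X]) (r : F[X]), Subs 1 r f f' → f ∈ Ell F n →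
      f' ∈ Ell F n → (f ∈ FmT F n (T1 ∪ T2) ↔ f' ∈ FmT F n (T1 ∪ T2)) :=
    fun f f' r hr hf hf' => ⟨fmt_subs hCBP h2 h3 hev hr hf'.1,
      fmt_subs hCBP h2 h3 hev (subs_symm hr) hf.1⟩
  constructor
  · have h4 := cnt hSHC h2 h3 n hfin (fun f => f ∈ FmT F n (T1 ∪ T2)) hF
    have e1 : {f | f ∈ Ell F n ∧ f ∈ FmT F n (T1 ∪ T2)} = FmT F n (T1 ∪ T2) := by
      ext f
      exact ⟨fun h => h.2, fun h => ⟨hE f h, h⟩⟩
    have e2 : {f | f ∈ Sht F n ∧ f ∈ FmT F n (T1 ∪ T2)} =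
        {f | f ∈ FmT F n (T1 ∪ T2) ∧ f.1 = 0} := by
      ext f
      exact ⟨fun h => ⟨h.2, h.1.2⟩, fun h => ⟨⟨hE f h.1, h.2⟩, h.1⟩⟩
    rw [e1, e2] at h4
    exact h4
  · have h4 := cnt hSHC h2 h3 n hfin (fun f => f ∈ FmT F n (T1 ∪ T2) ∧ ¬ LawF ε T1 T2 f)
      (fun f f' r hr hf hf' => and_congr (hF f f' r hr hf hf') (not_congr
        ⟨lawF_subs hSHI hr, lawF_subs hSHI (subs_symm hr)⟩))
    have e1 : {f | f ∈ Ell F n ∧ f ∈ FmT F n (T1 ∪ T2) ∧ ¬ LawF ε T1 T2 f} =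
        {f | f ∈ FmT F n (T1 ∪ T2) ∧ ¬ LawF ε T1 T2 f} := by
      ext f
      exact ⟨fun h => h.2, fun h => ⟨hE f h.1, h⟩⟩
    have e2 : {f | f ∈ Sht F n ∧ f ∈ FmT F n (T1 ∪ T2) ∧ ¬ LawF ε T1 T2 f} =
        {f | (f ∈ FmT F n (T1 ∪ T2) ∧ f.1 = 0) ∧ ¬ LawF ε T1 T2 f} := by
      ext f
      exact ⟨fun h => ⟨⟨h.2.1, h.1.2⟩, h.2.2⟩, fun h => ⟨⟨hE f h.1.1, h.1.2⟩, h.1.1, h.2⟩⟩
    rw [e1, e2] at h4
    exact h4

end Pool.PRL
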