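import Pool.Agent.H75.PRL.FIQ
import Pool.Agent.H75.PRL.SHA

/-! # PRL, module MN2: the main theorem from the modules -/

set_option autoImplicit false

namespace Pool.PRL

open Polynomial Matrix Pool.AVR Pool.AVS Pool.RZ

theorem lawZ_mono {F : Type} [Field F] {ε : ℝ} {Z : Set (F[X] × F[X] × F[X])}
    (h : LawZ (3 * (ε / 3)) Z) : LawZ ε Z := by
  rwa [mul_div_cancel₀ ε (by norm_num : (3 : ℝ) ≠ 0)] at h

theorem disc_tw' {F : Type} [Field F] (d : F[X]) (f : F[X] × F[X] × F[X]) :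
    disc (tw d f).1 (tw d f).2.1 (tw d f).2.2 = d ^ 6 * disc f.1 f.2.1 f.2.2 := by
  simp only [tw, disc]
  ring

open FIP in
open Classical in
theorem man2 (hLAW : LAWStmt) (hFIQ : FIQStmt) (hSHA : SHAStmt) (hNIR : NIRStmt)
    (hAVP : AVPStmt) (hTWP : TWPStmt) (hCNF : CNFStmt) (hDSC : DSCStmt) (hSHC : SHCStmt)
    (F : Type) [Field F] [Finite F] (h2 : (2 : F) ≠ 0) : MainPR F := by
  intro ε hε
  have hq1 : 1 < Nat.card F := Finite.one_lt_card
  have hq0 : (0 : ℝ) < Nat.card F := by exact_mod_cast (by omega : 0 < Nat.card F)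
  have h2K : (2 : RatFunc F) ≠ 0 := by
    intro h
    apply h2
    have h3 : algebraMap F (RatFunc F) 2 = algebraMap F (RatFunc F) 0 := by
      rw [map_ofNat, map_zero]
      exact h
    exact (algebraMap F (RatFunc F)).injective h3
  have hdiscmap : ∀ f : F[X] × F[X] × F[X],
      disc (algebraMap F[X] (RatFunc F) f.1) (algebraMap F[X] (RatFunc F) f.2.1)
        (algebraMap F[X] (RatFunc F) f.2.2) = algebraMap F[X] (RatFunc F)
          (disc f.1 f.2.1 f.2.2) := by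
    intro f
    simp only [disc, map_add, map_sub, map_mul, map_pow, map_ofNat]
  have hsep : ∀ f : F[X] × F[X] × F[X], (cubK f).Separable ↔ disc f.1 f.2.1 f.2.2 ≠ 0 := by
    intro f
    rw [cubK, (hDSC (RatFunc F) h2K _ _ _).1, hdiscmap]
    exact (map_ne_zero_iff _ (RatFunc.algebraMap_injective F))
  have hIrrEll : ∀ n, Irr F n ⊆ Ell F n := fun n f hf => ⟨hf.1, (hsep f).1 hf.2.2⟩
  have hε' : 0 < ε / 3 := by positivity
  refine ⟨?_, ?_⟩
  · intro k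
    obtain ⟨E1, hE1⟩ := hNIR F k
    obtain ⟨E2, hE2⟩ := hNIR F 2
    obtain ⟨T1, h3, h4⟩ := hE1 (2 * (2 * (E1 + E2))) (by omega)
    obtain ⟨T2, h5, h6⟩ := hE2 (2 * (E1 + E2)) (by omega)
    exact ⟨2 * (E1 + E2), T1, T2, ⟨even_two_mul _, h4, h6, h5⟩, h3⟩
  obtain ⟨k0, hk0⟩ := hLAW F h2 (ε / 3) hε'
  refine ⟨2 * k0 + 1, ?_⟩
  intro e T1 T2 ha ho hk
  obtain ⟨j, hj⟩ := id ho
  have hj2 : T1.card / 2 = j := by omega
  have hdis := adm_dis ha
  have hev := adm_ev ha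
  obtain ⟨N, hN⟩ := hk0 T1 T2 j hdis hev ha.2.2.2 hj (by omega)
  obtain ⟨⟨δ, hδ, N1, hN1⟩, _⟩ := hAVP F h2 (T1 ∪ T2) hev
  set E : ℕ := e * (T1.card / 2 + 1) with hE
  refine ⟨δ / (Nat.card F : ℝ) ^ (12 * E), by positivity, N + N1 + 1 + E, ?_⟩
  intro m hm
  obtain ⟨n, rfl⟩ : ∃ n, m = n + E := ⟨m - E, by omega⟩
  have hn1 : 1 ≤ n := by omega
  obtain ⟨hfin, hbad⟩ := hN n (by omega)
  obtain ⟨_, hdens⟩ := hN1 n (by omega)
  set Fm := FmT F n (T1 ∪ T2) with hFm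
  have hFm0 : (0 : ℝ) < Fm.ncard := lt_of_lt_of_le (by positivity) hdens
  have hne0 : ∀ A : Set (F[X] × F[X] × F[X]), (0 : ℝ) < A.ncard → A.Nonempty := by
    intro A hA
    rw [Set.nonempty_iff_ne_empty]
    intro h
    rw [h, Set.ncard_empty] at hA
    simp at hA
  have hEfin : (Ell F (n + E)).Finite :=
    (hCNF F h2 (n + E) (by omega)).1.subset fun f hf => hf.1
  have hEc : ((Ell F (n + E)).ncard : ℝ) ≤ (Nat.card F : ℝ) ^ (12 * (n + E) + 3) := by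
    have h3 : (Ell F (n + E)).ncard ≤ (Fam F (n + E)).ncard :=
      Set.ncard_le_ncard (fun f hf => hf.1) (hCNF F h2 (n + E) (by omega)).1
    rw [(hCNF F h2 (n + E) (by omega)).2.1] at h3
    exact_mod_cast h3
  have hT := hTWP F h2 n (T1 ∪ T2) hev
  have hmn : n + E - E = n := by omega
  have hZ : ZF e T1 T2 (n + E) = ZA T1 T2 Fm := by
    unfold ZF ZA
    rw [← hE, hmn]
  have hZs : {g | g ∈ ZF e T1 T2 (n + E) ∧ g.1 = 0} = ZA T1 T2 {f | f ∈ Fm ∧ f.1 = 0} := by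
    rw [hZ]
    ext g
    constructor
    · rintro ⟨⟨f, hf, S, hS, rfl⟩, h0⟩
      refine ⟨f, ⟨hf, ?_⟩, S, hS, rfl⟩
      have h4 := (hT.1 S (Sl_sub hS)).1.ne_zero
      simpa [tw, h4] using h0
    · rintro ⟨f, ⟨hf, h0⟩, S, hS, rfl⟩
      refine ⟨⟨f, hf, S, hS, rfl⟩, ?_⟩
      simp [tw, h0]
  -- the density bound
  have hdens2 : ∀ (A : Set (F[X] × F[X] × F[X])) (X : ℝ), 0 < (Sl T1 T2).card →
      X ≤ A.ncard → (ZA T1 T2 A).ncard = (Sl T1 T2).card * A.ncard →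
      X ≤ (ZA T1 T2 A).ncard := by
    intro A X hS hX hc
    rw [hc]
    push_cast
    have h3 : (1 : ℝ) ≤ (Sl T1 T2).card := by exact_mod_cast hS
    have h4 : (0 : ℝ) ≤ A.ncard := by positivity
    nlinarith
  refine ⟨?_, ?_, ?_⟩
  · obtain ⟨hsub, hZfin, hZc, hS0, hlaw⟩ := hFIQ F h2 (ε / 3) e n T1 T2 Fm hε' ha ho
      (Set.Subset.refl _) hfin (hne0 _ hFm0) hbad
    rw [← hE] at hsub
    have hZsub : ZA T1 T2 Fm ⊆ Ell F (n + E) := hsub.trans (hIrrEll _)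
    have h7 := hdens2 Fm _ hS0 hdens hZc
    rw [hZ]
    refine ⟨hZsub, hEfin, ?_, ?_, lawZ_mono hlaw⟩
    · have h3 : (ZA T1 T2 Fm).ncard ≤ (Ell F (n + E)).ncard := Set.ncard_le_ncard hZsub hEfin
      have h4 : (0 : ℝ) < (ZA T1 T2 Fm).ncard := lt_of_lt_of_le (by positivity) h7
      have h5 : 0 < (ZA T1 T2 Fm).ncard := by exact_mod_cast h4
      omega
    · calc δ / (Nat.card F : ℝ) ^ (12 * E) * (Ell F (n + E)).ncard
          ≤ δ / (Nat.card F : ℝ) ^ (12 * E) * (Nat.card F : ℝ) ^ (12 * (n + E) + 3) :=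
            mul_le_mul_of_nonneg_left hEc (by positivity)
        _ = δ * (Nat.card F : ℝ) ^ (12 * n + 3) := by
            rw [show 12 * (n + E) + 3 = 12 * n + 3 + 12 * E by ring, pow_add]
            field_simp
        _ ≤ (ZA T1 T2 Fm).ncard := h7
  · rw [hmn]
    have h4 : ({f | f ∈ Fm ∧ ¬ LawF ε T1 T2 f}.ncard : ℝ) ≤
        ({f | f ∈ Fm ∧ ¬ LawF (ε / 3) T1 T2 f}.ncard : ℝ) := by
      have h5 := Set.ncard_le_ncard (s := {f | f ∈ Fm ∧ ¬ LawF ε T1 T2 f})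
        (t := {f | f ∈ Fm ∧ ¬ LawF (ε / 3) T1 T2 f})
        (fun f hf => ⟨hf.1, fun hl => hf.2 ⟨hl.1, hl.2.1, fun R => (hl.2.2 R).trans
          (by linarith)⟩⟩) (hfin.subset fun f hf => hf.1)
      exact_mod_cast h5
    refine h4.trans (hbad.trans ?_)
    exact mul_le_mul_of_nonneg_right (by linarith) hFm0.le
  · intro h3
    obtain ⟨hs1, hs2⟩ := hSHA F h2 h3 n (ε / 3) T1 T2 hev
    rw [← hFm] at hs1 hs2
    set As : Set (F[X] × F[X] × F[X]) := {f | f ∈ Fm ∧ f.1 = 0} with hAs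
    have hqp : (0 : ℝ) < (Nat.card F : ℝ) ^ (2 * n + 1) := by positivity
    have hs1' : (Fm.ncard : ℝ) = (Nat.card F : ℝ) ^ (2 * n + 1) * As.ncard := by
      exact_mod_cast hs1
    have hs2' : ({f | f ∈ Fm ∧ ¬ LawF (ε / 3) T1 T2 f}.ncard : ℝ) =
        (Nat.card F : ℝ) ^ (2 * n + 1) * {f | f ∈ As ∧ ¬ LawF (ε / 3) T1 T2 f}.ncard := by
      exact_mod_cast hs2
    have hAfin : As.Finite := hfin.subset fun f hf => hf.1
    have hbads : ({f | f ∈ As ∧ ¬ LawF (ε / 3) T1 T2 f}.ncard : ℝ) ≤ ε / 3 * As.ncard := by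
      rw [hs1', hs2'] at hbad
      have : (Nat.card F : ℝ) ^ (2 * n + 1) *
          ({f | f ∈ As ∧ ¬ LawF (ε / 3) T1 T2 f}.ncard : ℝ) ≤
          (Nat.card F : ℝ) ^ (2 * n + 1) * (ε / 3 * As.ncard) := by linarith
      exact le_of_mul_le_mul_left this hqp
    have hdensS : δ * (Nat.card F : ℝ) ^ (10 * n + 2) ≤ As.ncard := by
      rw [hs1', show 12 * n + 3 = (2 * n + 1) + (10 * n + 2) by ring, pow_add] at hdens
      have : (Nat.card F : ℝ) ^ (2 * n + 1) * (δ * (Nat.card F : ℝ) ^ (10 * n + 2)) ≤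
          (Nat.card F : ℝ) ^ (2 * n + 1) * As.ncard := by linarith
      exact le_of_mul_le_mul_left this hqp
    have hAs0 : (0 : ℝ) < As.ncard := lt_of_lt_of_le (by positivity) hdensS
    obtain ⟨hsub, hZfin, hZc, hS0, hlaw⟩ := hFIQ F h2 (ε / 3) e n T1 T2 As hε' ha ho
      (fun f hf => hf.1) hAfin (hne0 _ hAs0) hbads
    rw [← hE] at hsub
    have hZsub : ZA T1 T2 As ⊆ Sht F (n + E) := by
      intro g hg
      refine ⟨hIrrEll _ (hsub hg), ?_⟩
      obtain ⟨f, hf, S, hS, rfl⟩ := hg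
      simp [tw, hf.2]
    have h7 := hdens2 As _ hS0 hdensS hZc
    have hShF : (Sht F (n + E)).Finite := hEfin.subset fun f hf => hf.1
    have hShc : ((Sht F (n + E)).ncard : ℝ) ≤ (Nat.card F : ℝ) ^ (10 * (n + E) + 2) := by
      have h8 := SHA.cnt hSHC h2 h3 (n + E) hEfin (fun _ => True)
        (fun _ _ _ _ _ _ => Iff.rfl)
      simp only [and_true, Set.ofPred_mem_eq] at h8
      have h9 : ((Ell F (n + E)).ncard : ℝ) =
          (Nat.card F : ℝ) ^ (2 * (n + E) + 1) * (Sht F (n + E)).ncard := by exact_mod_cast h8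
      rw [h9, show 12 * (n + E) + 3 = (2 * (n + E) + 1) + (10 * (n + E) + 2) by ring,
        pow_add (Nat.card F : ℝ) (2 * (n + E) + 1) (10 * (n + E) + 2)] at hEc
      exact le_of_mul_le_mul_left hEc (by positivity)
    rw [hZs]
    refine ⟨⟨hZsub, hShF, ?_, ?_, lawZ_mono hlaw⟩, ?_⟩
    · have h3 : (ZA T1 T2 As).ncard ≤ (Sht F (n + E)).ncard := Set.ncard_le_ncard hZsub hShF
      have h4 : (0 : ℝ) < (ZA T1 T2 As).ncard := lt_of_lt_of_le (by positivity) h7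
      have h5 : 0 < (ZA T1 T2 As).ncard := by exact_mod_cast h4
      omega
    · have hq1' : (1 : ℝ) ≤ Nat.card F := by exact_mod_cast hq1.le
      have hpow : (Nat.card F : ℝ) ^ (10 * E) ≤ (Nat.card F : ℝ) ^ (12 * E) :=
        pow_le_pow_right₀ hq1' (by omega)
      calc δ / (Nat.card F : ℝ) ^ (12 * E) * (Sht F (n + E)).ncard
          ≤ δ / (Nat.card F : ℝ) ^ (12 * E) * (Nat.card F : ℝ) ^ (10 * (n + E) + 2) :=
            mul_le_mul_of_nonneg_left hShc (by positivity)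
        _ ≤ δ / (Nat.card F : ℝ) ^ (10 * E) * (Nat.card F : ℝ) ^ (10 * (n + E) + 2) := by
            refine mul_le_mul_of_nonneg_right ?_ (by positivity)
            exact div_le_div_of_nonneg_left hδ.le (by positivity) hpow
        _ = δ * (Nat.card F : ℝ) ^ (10 * n + 2) := by
            rw [show 10 * (n + E) + 2 = 10 * n + 2 + 10 * E by ring, pow_add]
            field_simp
        _ ≤ (ZA T1 T2 As).ncard := h7
    · intro g hg
      refine ⟨hZsub hg, ?_⟩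
      obtain ⟨f, hf, S, hS, rfl⟩ := hg
      rintro P hP ⟨hb, hc⟩
      have h8 : P ^ 12 ∣ disc (tw (pr S) f).1 (tw (pr S) f).2.1 (tw (pr S) f).2.2 := by
        have h9 : (tw (pr S) f).1 = 0 := by simp [tw, hf.2]
        obtain ⟨u, hu⟩ := hb
        obtain ⟨v, hv⟩ := hc
        rw [h9, hu, hv]
        exact ⟨-4 * u ^ 3 - 27 * v ^ 2, by simp only [disc]; ring⟩
      rw [disc_tw'] at h8
      exact not_dvd_pow12 hP ((hT.1 S (Sl_sub hS)).2.2.2.1 P hP)
        ((hT.2 f hf.1).2.2.2.2.2.1 P hP) h8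

end Pool.PRL
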