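import Pool.Agent.H1.PRL.PLP
import Pool.Agent.H33.PRL.TYM

/-!
# PRL, module QFP: the binary form attached to a unit polynomial modulo `P`
-/

set_option autoImplicit false

namespace Pool.PRL

open Polynomial Matrix Pool.AVR Pool.AVS Pool.RZ Pool.RZ.NUN

namespace QFP

section Core

variable {k : Type} [Field k]

/-- The form is anisotropic when the discriminant is not a square. -/
theorem aniso {m0 m1 m2 : k} (hD : ¬ IsSquare (m1 ^ 2 - m0 * m2)) (x y : k)
    (h : m0 * x ^ 2 + 2 * m1 * (x * y) + m2 * y ^ 2 = 0) : x = 0 ∧ y = 0 := by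
  by_cases hy : y = 0
  · refine ⟨?_, hy⟩
    rw [hy] at h
    by_contra hx
    have h1 : m0 * x ^ 2 = 0 := by linear_combination h
    have h2 : m0 = 0 := (mul_eq_zero.1 h1).resolve_right (pow_ne_zero 2 hx)
    apply hD
    rw [h2, zero_mul, sub_zero]
    exact IsSquare.sq m1
  · exfalso
    apply hD
    refine ⟨(m0 * x + m1 * y) / y, ?_⟩
    field_simp
    linear_combination (-m0) * h

theorem disc_nonsq (hk2 : (2 : k) ≠ 0) {β γ : k} (hirr : ∀ x : k, x ^ 2 + β * x + γ ≠ 0) :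
    ¬ IsSquare (β ^ 2 - 4 * γ) := by
  rintro ⟨w, hw⟩
  apply hirr ((-β + w) / 2)
  field_simp
  linear_combination (-1 : k) * hw

/-- Two isotropic lines when the discriminant is a square. -/
theorem iso (hk2 : (2 : k) ≠ 0) {β γ : k} (hirr : ∀ x : k, x ^ 2 + β * x + γ ≠ 0)
    {m0 m1 m2 m3 : k} (h2 : m2 = -β * m1 - γ * m0) (h3 : m3 = -β * m2 - γ * m1)
    (hD0 : m1 ^ 2 - m0 * m2 ≠ 0) (hD : IsSquare (m1 ^ 2 - m0 * m2)) :
    ∃ x y x' y' : k, m0 * x ^ 2 + 2 * m1 * (x * y) + m2 * y ^ 2 = 0 ∧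
      m0 * x' ^ 2 + 2 * m1 * (x' * y') + m2 * y' ^ 2 = 0 ∧
      m0 * (x * x') + m1 * (x * y' + y * x') + m2 * (y * y') ≠ 0 ∧
      x * y' - y * x' ≠ 0 ∧
      ¬ IsSquare ((m1 * x ^ 2 + 2 * m2 * (x * y) + m3 * y ^ 2) *
        (m1 * x' ^ 2 + 2 * m2 * (x' * y') + m3 * y' ^ 2)) := by
  obtain ⟨s, hs⟩ := hD
  have hs0 : s ≠ 0 := by
    rintro rfl
    exact hD0 (by rw [hs, mul_zero])
  have hns := disc_nonsq hk2 hirr
  -- the product is a nonzero square times `β² - 4 γ`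
  have key : ∀ (z t : k), z ≠ 0 → t = z ^ 2 * (β ^ 2 - 4 * γ) → ¬ IsSquare t := by
    rintro z t hz rfl ⟨w, hw⟩
    apply hns
    refine ⟨w / z, ?_⟩
    field_simp
    linear_combination hw
  by_cases hm : m0 = 0
  · have hm1 : m1 ≠ 0 := by
      rintro rfl
      exact hD0 (by rw [hm]; ring)
    refine ⟨1, 0, m2, -2 * m1, ?_, ?_, ?_, ?_, ?_⟩
    · rw [hm]; ring
    · rw [hm]; ring
    · rw [hm]
      have h4 : 0 * (1 * m2) + m1 * (1 * (-2 * m1) + 0 * m2) + m2 * (0 * (-2 * m1)) =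
          -(2 * m1 ^ 2) := by ring
      rw [h4]
      exact neg_ne_zero.2 (mul_ne_zero hk2 (pow_ne_zero 2 hm1))
    · have h4 : 1 * (-2 * m1) - 0 * m2 = -(2 * m1) := by ring
      rw [h4]
      exact neg_ne_zero.2 (mul_ne_zero hk2 hm1)
    · refine key (m1 ^ 2) _ (pow_ne_zero 2 hm1) ?_
      rw [h3, h2, hm]
      ring
  · refine ⟨-m1 + s, m0, -m1 - s, m0, ?_, ?_, ?_, ?_, ?_⟩
    · linear_combination (-m0) * hs
    · linear_combination (-m0) * hs
    · have h4 : m0 * ((-m1 + s) * (-m1 - s)) + m1 * ((-m1 + s) * m0 + m0 * (-m1 - s)) +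
          m2 * (m0 * m0) = -(2 * m0 * s ^ 2) := by
        linear_combination (-m0) * hs
      rw [h4]
      exact neg_ne_zero.2 (mul_ne_zero (mul_ne_zero hk2 hm) (pow_ne_zero 2 hs0))
    · have h4 : (-m1 + s) * m0 - m0 * (-m1 - s) = 2 * s * m0 := by ring
      rw [h4]
      exact mul_ne_zero (mul_ne_zero hk2 hs0) hm
    · refine key (s ^ 2 * m0) _ (mul_ne_zero (pow_ne_zero 2 hs0) hm) ?_
      have hs' : s ^ 2 = m1 ^ 2 + β * m0 * m1 + γ * m0 ^ 2 := by
        rw [h2] at hs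
        linear_combination -hs
      have e1 : m1 * (-m1 + s) ^ 2 + 2 * m2 * ((-m1 + s) * m0) + m3 * m0 ^ 2 =
          s ^ 2 * (2 * m1 - 2 * s + β * m0) := by
        rw [h3, h2]
        linear_combination (-(2 * m1 - 2 * s + β * m0) + m1 ) * hs'
      have e2 : m1 * (-m1 - s) ^ 2 + 2 * m2 * ((-m1 - s) * m0) + m3 * m0 ^ 2 =
          s ^ 2 * (2 * m1 + 2 * s + β * m0) := by
        rw [h3, h2]
        linear_combination (-(2 * m1 + 2 * s + β * m0) + m1 ) * hs'
      rw [e1, e2]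
      linear_combination (-4 * s ^ 4) * hs'

end Core

section Step

variable {R : Type} [CommRing R] {a b c : R}

theorem stepL {p : R[X]} {r0 r1 r2 : R} (e : R)
    (h : cub a b c ∣ p - (C r2 * X ^ 2 + C r1 * X + C r0)) :
    cub a b c ∣ (X - C e) * p - (C (r1 - a * r2 - e * r2) * X ^ 2 + C (r0 - b * r2 - e * r1) * X +
      C (-c * r2 - e * r0)) := by
  obtain ⟨d, hd⟩ := h
  refine ⟨(X - C e) * d + C r2, ?_⟩
  have h1 : p = cub a b c * d + (C r2 * X ^ 2 + C r1 * X + C r0) := by linear_combination hd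
  rw [h1]
  unfold cub
  simp only [map_sub, map_mul, map_neg]
  ring

/-- The first four values. -/
theorem vals [Nontrivial R] {p : R[X]} {r0 r1 r2 : R} (e : R)
    (h : cub a b c ∣ p - (C r2 * X ^ 2 + C r1 * X + C r0)) :
    ∃ w2 w1 w0 : R, w2 = (r0 - b * r2 - e * r1) - a * (r1 - a * r2 - e * r2) -
        e * (r1 - a * r2 - e * r2) ∧
      w1 = (-c * r2 - e * r0) - b * (r1 - a * r2 - e * r2) - e * (r0 - b * r2 - e * r1) ∧
      w0 = -c * (r1 - a * r2 - e * r2) - e * (-c * r2 - e * r0) ∧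
      (∀ m : ℕ, m = 0 → tR a b c (p * (X - C e) ^ 2 * X ^ m) = w2) ∧
      (∀ m : ℕ, m = 1 → tR a b c (p * (X - C e) ^ 2 * X ^ m) = w1 - a * w2) ∧
      (∀ m : ℕ, m = 2 → tR a b c (p * (X - C e) ^ 2 * X ^ m) =
        w0 - b * w2 - a * (w1 - a * w2)) ∧
      (∀ m : ℕ, m = 3 → tR a b c (p * (X - C e) ^ 2 * X ^ m) =
        -c * w2 - b * (w1 - a * w2) - a * (w0 - b * w2 - a * (w1 - a * w2))) := by
  have h1 := stepL e (stepL e h)
  refine ⟨_, _, _, rfl, rfl, rfl, ?_, ?_, ?_, ?_⟩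
  · rintro m rfl
    rw [show p * (X - C e) ^ 2 * X ^ 0 = (X - C e) * ((X - C e) * p) by ring]
    exact tR0 h1
  · rintro m rfl
    rw [show p * (X - C e) ^ 2 * X ^ 1 = X * ((X - C e) * ((X - C e) * p)) by ring]
    exact tR0 (stepX h1)
  · rintro m rfl
    rw [show p * (X - C e) ^ 2 * X ^ 2 = X * (X * ((X - C e) * ((X - C e) * p))) by ring]
    exact tR0 (stepX (stepX h1))
  · rintro m rfl
    rw [show p * (X - C e) ^ 2 * X ^ 3 = X * (X * (X * ((X - C e) * ((X - C e) * p)))) by ring]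
    exact tR0 (stepX (stepX (stepX h1)))

end Step

end QFP

open QFP Pool.Agent.H33.PRL in
theorem qfp : QFPStmt := by
  intro F _ _ h2 P f hPm hP e β γ hSpl p hU
  obtain ⟨hirr0, hf1, hf2, hf3, -, -, -⟩ := hSpl
  -- the residue field
  have : Fact (Irreducible P) := ⟨hP⟩
  set k := AdjoinRoot P with hk
  set φ : F[X] →+* k := AdjoinRoot.mk P with hφ
  have hφs : Function.Surjective φ := AdjoinRoot.mk_surjective
  have hφ0 : ∀ x, φ x = 0 ↔ P ∣ x := fun x => AdjoinRoot.mk_eq_zero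
  have hk2 : (2 : k) ≠ 0 := by
    intro h0
    apply h2
    apply (algebraMap F k).injective
    rw [map_ofNat, map_zero, h0]
  have ha : φ f.1 = φ β - φ e := by
    rw [← map_sub, ← sub_eq_zero, ← map_sub, hφ0]
    exact hf1
  have hb : φ f.2.1 = φ γ - φ e * φ β := by
    rw [← map_mul, ← map_sub, ← sub_eq_zero, ← map_sub, hφ0]
    exact hf2
  have hc : φ f.2.2 = -(φ e * φ γ) := by
    rw [eq_neg_iff_add_eq_zero, ← map_mul, ← map_add, hφ0]
    exact hf3
  have hirr : ∀ x : k, x ^ 2 + φ β * x + φ γ ≠ 0 := by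
    intro x h0
    obtain ⟨y, rfl⟩ := hφs x
    rw [← map_pow, ← map_mul, ← map_add, ← map_add, hφ0] at h0
    exact hirr0 y h0
  have hsq : ∀ a : F[X], SqM P a ↔ IsSquare (φ a) := fun a => sqM_iff P a
  obtain ⟨r0, r1, r2, hr⟩ := exists_rep f.1 f.2.1 f.2.2 p
  obtain ⟨w2, w1, w0, hw2, hw1, hw0, hm0, hm1, hm2, hm3⟩ := vals e hr
  -- the norm
  obtain ⟨-, ν, hν, hdet, hUn⟩ := nun_thm ngh_thm F f p
  have hνe : ν = nu f.1 f.2.1 f.2.2 r0 r1 r2 := by
    rw [g0_lf, ← RingHom.mapMatrix_apply, ← RingHom.map_det, det_G hr] at hdet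
    have h3 : rf (-nu f.1 f.2.1 f.2.2 r0 r1 r2) = rf (-ν) := by
      rw [rf_neg ν]
      exact hdet
    have h4 := rf_inj h3
    exact (neg_inj.1 h4).symm
  set u0 : F[X] := r1 - β * r2 with hu0
  set u1 : F[X] := r0 - β * r1 + (β ^ 2 - γ) * r2 with hu1
  set νq : F[X] := u1 ^ 2 + β * u0 * u1 + γ * u0 ^ 2 with hνq
  have hpe : φ (p.eval e) = φ r2 * φ e ^ 2 + φ r1 * φ e + φ r0 := by
    obtain ⟨d, hd⟩ := hr
    have h3 := congrArg (eval e) hd
    have h4 : eval e (cub f.1 f.2.1 f.2.2) = e ^ 3 + f.1 * e ^ 2 + f.2.1 * e + f.2.2 := by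
      simp [cub]
    rw [eval_mul, h4] at h3
    simp only [eval_sub, eval_add, eval_mul, eval_C, eval_X, eval_pow] at h3
    have h5 := congrArg φ h3
    simp only [map_sub, map_add, map_mul, map_pow] at h5
    rw [ha, hb, hc] at h5
    linear_combination h5
  have hνφ : φ ν = φ (p.eval e) * φ νq := by
    rw [hνe, hνq, hu0, hu1, hpe]
    unfold nu
    simp only [map_sub, map_add, map_mul, map_pow, map_neg]
    rw [ha, hb, hc]
    ring
  have hνq0 : ¬ P ∣ νq := by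
    intro h0
    apply (hUn P hP).1 hU
    rw [← hφ0, hνφ, (hφ0 νq).2 h0, mul_zero]
  set m1 : F[X] := w1 - f.1 * w2 with hm1'
  set m2 : F[X] := w0 - f.2.1 * w2 - f.1 * (w1 - f.1 * w2) with hm2'
  set m3 : F[X] := -f.2.2 * w2 - f.2.1 * (w1 - f.1 * w2) -
    f.1 * (w0 - f.2.1 * w2 - f.1 * (w1 - f.1 * w2)) with hm3'
  have hφm0 : φ w2 = φ u1 - φ e * φ u0 := by
    rw [hw2, hu0, hu1]
    simp only [map_sub, map_add, map_mul, map_pow, map_neg]
    rw [ha, hb]
    ring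
  have hφm1 : φ m1 = -(φ β + φ e) * φ u1 - φ γ * φ u0 := by
    rw [hm1', hw2, hw1, hu0, hu1]
    simp only [map_sub, map_add, map_mul, map_pow, map_neg]
    rw [ha, hb, hc]
    ring
  have hφm2 : φ m2 = -φ β * φ m1 - φ γ * φ w2 := by
    rw [hm2', hm1', hw2, hw1, hw0]
    simp only [map_sub, map_add, map_mul, map_pow, map_neg]
    rw [ha, hb, hc]
    ring
  have hφm3 : φ m3 = -φ β * φ m2 - φ γ * φ m1 := by
    have h3 : φ m3 = -φ f.2.2 * φ w2 - φ f.2.1 * φ m1 - φ f.1 * φ m2 := by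
      rw [hm3', hm2', hm1']
      simp only [map_sub, map_add, map_mul, map_pow, map_neg]
    rw [h3, ha, hb, hc, hφm2]
    ring
  have hD : φ m1 ^ 2 - φ w2 * φ m2 = φ (νq * (e ^ 2 + β * e + γ)) := by
    rw [hφm2, hφm1, hφm0, hνq]
    simp only [map_add, map_mul, map_pow]
    ring
  have hQ0 : φ (e ^ 2 + β * e + γ) ≠ 0 := by
    have := hirr (φ e)
    simpa only [map_add, map_mul, map_pow] using this
  have hD0 : φ m1 ^ 2 - φ w2 * φ m2 ≠ 0 := by
    rw [hD, map_mul]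
    exact mul_ne_zero (fun h0 => hνq0 ((hφ0 _).1 h0)) hQ0
  -- the matrices
  refine ⟨!![w2, m1; m1, m2], !![m1, m2; m2, m3], νq, ?_, hνq0, ?_, ⟨ν, hν, ?_⟩, ?_⟩
  · intro i j
    have hN : ∀ m : ℕ, X * (p * (X - C e) ^ 2 * X ^ m) = p * (X - C e) ^ 2 * X ^ (m + 1) := by
      intro m
      ring
    constructor
    · rw [tau_lf]
      congr 1
      fin_cases i <;> fin_cases j
      · exact (hm0 _ rfl).symm
      · exact (hm1 _ rfl).symm
      · exact (hm1 _ rfl).symm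
      · exact (hm2 _ rfl).symm
    · rw [tau_lf, hN]
      congr 1
      fin_cases i <;> fin_cases j
      · exact (hm1 _ rfl).symm
      · exact (hm2 _ rfl).symm
      · exact (hm2 _ rfl).symm
      · exact (hm3 _ rfl).symm
  · change P ∣ w2 * m2 - m1 ^ 2 + νq * (e ^ 2 + β * e + γ)
    rw [← hφ0, map_add, map_sub, map_mul, map_pow, ← hD]
    ring
  · rw [← hφ0, map_sub, map_mul, hνφ, sub_self]
  · have hM : ∀ v v' : Fin 2 → F[X], φ (bil2 !![w2, m1; m1, m2] v v') =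
        φ w2 * (φ (v 0) * φ (v' 0)) + φ m1 * (φ (v 0) * φ (v' 1) + φ (v 1) * φ (v' 0)) +
          φ m2 * (φ (v 1) * φ (v' 1)) := by
      intro v v'
      simp only [bil2, dotProduct, mulVec, Fin.sum_univ_two, Matrix.of_apply, Matrix.cons_val',
        Matrix.cons_val_zero, Matrix.cons_val_one, map_add, map_mul]
      ring
    have hN : ∀ v : Fin 2 → F[X], φ (bil2 !![m1, m2; m2, m3] v v) =
        φ m1 * φ (v 0) ^ 2 + 2 * φ m2 * (φ (v 0) * φ (v 1)) + φ m3 * φ (v 1) ^ 2 := by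
      intro v
      simp only [bil2, dotProduct, mulVec, Fin.sum_univ_two, Matrix.of_apply, Matrix.cons_val',
        Matrix.cons_val_zero, Matrix.cons_val_one, map_add, map_mul]
      ring
    by_cases hs : IsSquare (φ (νq * (e ^ 2 + β * e + γ)))
    · right
      refine ⟨(hsq _).2 hs, ?_⟩
      obtain ⟨x, y, x', y', k1, k2, k3, k4, k5⟩ := iso hk2 hirr hφm2 hφm3 hD0 (by rw [hD]; exact hs)
      obtain ⟨x, rfl⟩ := hφs x
      obtain ⟨y, rfl⟩ := hφs y
      obtain ⟨x', rfl⟩ := hφs x'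
      obtain ⟨y', rfl⟩ := hφs y'
      refine ⟨![x, y], ![x', y'], ?_, ?_, ?_, ?_, ?_, ?_, ?_⟩
      · rw [← hφ0, hM]
        change φ w2 * (φ x * φ x) + φ m1 * (φ x * φ y + φ y * φ x) + φ m2 * (φ y * φ y) = 0
        linear_combination k1
      · rw [← hφ0, hM]
        change φ w2 * (φ x' * φ x') + φ m1 * (φ x' * φ y' + φ y' * φ x') + φ m2 * (φ y' * φ y') = 0
        linear_combination k2
      · rw [← hφ0, hM]
        exact k3
      · rw [← hφ0]
        change φ (x * y' - y * x') ≠ 0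
        rw [map_sub, map_mul, map_mul]
        exact k4
      · rw [← hφ0, hN]
        intro h0
        apply k5
        change φ m1 * φ x ^ 2 + 2 * φ m2 * (φ x * φ y) + φ m3 * φ y ^ 2 = 0 at h0
        rw [h0, zero_mul]
        exact IsSquare.zero
      · rw [← hφ0, hN]
        intro h0
        apply k5
        change φ m1 * φ x' ^ 2 + 2 * φ m2 * (φ x' * φ y') + φ m3 * φ y' ^ 2 = 0 at h0
        rw [h0, mul_zero]
        exact IsSquare.zero
      · rw [hsq, map_mul, hN, hN]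
        exact k5
    · left
      refine ⟨fun h0 => hs ((hsq _).1 h0), fun v hv => ?_⟩
      rw [← hφ0, hM] at hv
      obtain ⟨k1, k2⟩ := aniso (m0 := φ w2) (m1 := φ m1) (m2 := φ m2) (by rw [hD]; exact hs)
        (φ (v 0)) (φ (v 1)) (by linear_combination hv)
      intro i
      rw [← hφ0]
      fin_cases i
      · exact k1
      · exact k2

end Pool.PRL
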