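import Pool.Agent.H75.PRL.S5
import Pool.Agent.H14.AVR.Final

/-!
# The Poonen-Rains law: statements of the modules, part 6 (assembly), and the main statement

`T1` has `2 j + 1` elements, `T2` has two elements, `T = T1 ∪ T2`.
-/

set_option autoImplicit false

namespace Pool.PRL

open Polynomial Matrix Pool.AVR Pool.AVS Pool.RZ

section

variable {F : Type} [Field F]

open Classical in
/-- The elements of `S` as elements of the type attached to `T`. -/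
noncomputable def sb (T S : Finset F[X]) : Finset {P : F[X] // P ∈ T} :=
  Finset.univ.filter fun P => (P : F[X]) ∈ S

open Classical in
/-- Extension by zero. -/
noncomputable def ex (T : Finset F[X]) (m : {P : F[X] // P ∈ T} → Ty) : F[X] → Ty :=
  fun P => if h : P ∈ T then m ⟨P, h⟩ else 0

open Classical in
/-- The sets of `j + 1` elements of `T1` and the unions of `T2` and of a set of `j` elements of
`T1`, where `#T1 = 2 j + 1`. -/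
noncomputable def Sl (T1 T2 : Finset F[X]) : Finset (Finset F[X]) :=
  T1.powersetCard (T1.card / 2 + 1) ∪ (T1.powersetCard (T1.card / 2)).image (· ∪ T2)

/-- `T1` consists of monic irreducible polynomials of degree `2 e`, `T2` of two monic irreducible
polynomials of degree `e`, and `e` is even. -/
def Adm (e : ℕ) (T1 T2 : Finset F[X]) : Prop :=
  Even e ∧ (∀ P ∈ T1, P.Monic ∧ Irreducible P ∧ P.natDegree = 2 * e) ∧
    (∀ P ∈ T2, P.Monic ∧ Irreducible P ∧ P.natDegree = e) ∧ T2.card = 2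

open Classical in
/-- The family of the twists by the products of the sets of `Sl T1 T2`: curves of height `m`. -/
def ZF (e : ℕ) (T1 T2 : Finset F[X]) (m : ℕ) : Set (F[X] × F[X] × F[X]) :=
  {g | ∃ f ∈ FmT F (m - e * (T1.card / 2 + 1)) (T1 ∪ T2), ∃ S ∈ Sl T1 T2, g = tw (pr S) f}

/-- The law for the twists of one curve. -/
def LawF (ε : ℝ) (T1 T2 : Finset F[X]) (f : F[X] × F[X] × F[X]) : Prop :=
  (∀ S ∈ Sl T1 T2, (Sel (tw (pr S) f)).Finite ∧ ∃ r : ℕ, (Sel (tw (pr S) f)).ncard = 2 ^ r) ∧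
    2 * {S | S ∈ Sl T1 T2 ∧ ∃ r : ℕ, Even r ∧ (Sel (tw (pr S) f)).ncard = 2 ^ r}.ncard =
      (Sl T1 T2).card ∧
    ∀ R : ℕ, ∑ r ∈ Finset.range R,
      |({S | S ∈ Sl T1 T2 ∧ (Sel (tw (pr S) f)).ncard = 2 ^ r}.ncard : ℝ) / (Sl T1 T2).card -
        PR r| ≤ ε

open Classical in
/-- The conditions on one curve under which the law holds. -/
def Good (η : ℝ) (T1 T2 : Finset F[X]) (j : ℕ) (f : F[X] × F[X] × F[X]) : Prop :=
  PatR f (T1 ∪ T2) (fun _ => 0) = ∅ ∧ ∀ D2 : Finset F[X], D2 = ∅ ∨ D2 = T2 →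
    ({D | D ∈ sl (sb (T1 ∪ T2) T1) (sb (T1 ∪ T2) D2) j ∪
        sl (sb (T1 ∪ T2) T1) (sb (T1 ∪ T2) D2) (j + 1) ∧
      ∃ m : {P : F[X] // P ∈ T1 ∪ T2} → Ty, m ≠ 0 ∧ m ∈ LS D ∧
        ¬ Bal η (sb (T1 ∪ T2) T1) D m ∧ (PatR f (T1 ∪ T2) (ex (T1 ∪ T2) m)).Nonempty}.ncard : ℝ) ≤
      η * ((2 * j + 1).choose j : ℝ)

end

open Classical in
/-- MLG: the group of the types of the classes, and the Selmer groups of the twists. -/
def MLGStmt : Prop :=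
  ∀ (F : Type) [Field F] [Finite F], (2 : F) ≠ 0 → ∀ (n : ℕ) (T : Finset F[X]), 1 ≤ n → EvT T →
    ∀ f ∈ FmT F n T, PatR f T (fun _ => 0) = ∅ →
    ∃ M : AddSubgroup ({P : F[X] // P ∈ T} → Ty), (∀ m ∈ M, qf m = 0) ∧
      Nat.card M = 2 ^ T.card ∧ (∀ m ∈ M, m ≠ 0 → (PatR f T (ex T m)).Nonempty) ∧
      ∀ S ⊆ T, (Sel (tw (pr S) f)).Finite ∧
        (Sel (tw (pr S) f)).ncard = {m | m ∈ M ∧ m ∈ LS (sb T S)}.ncard

open Classical in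
/-- QRR: the number of primes of type `(1, 1)` is even, and the types are well defined. -/
def QRRStmt : Prop :=
  ∀ (F : Type) [Field F] [Finite F], (2 : F) ≠ 0 → ∀ (n : ℕ) (T : Finset F[X]), 1 ≤ n → EvT T →
    ∀ f ∈ FmT F n T, ∀ ξ ∈ Rc f T, (∀ P ∈ T, ∃! x : Ty, TyC f P x ξ) ∧
      Even {P | P ∈ T ∧ TyC f P (1, 1) ξ}.ncard

open Classical in
/-- GDF: almost all the curves of the family are good. -/
def GDFStmt : Prop :=
  ∀ (F : Type) [Field F] [Finite F], (2 : F) ≠ 0 → ∀ ε η : ℝ, 0 < ε → 0 < η → ∃ k0 : ℕ,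
    ∀ (T1 T2 : Finset F[X]) (j : ℕ), Disjoint T1 T2 → EvT (T1 ∪ T2) → T2.card = 2 →
    T1.card = 2 * j + 1 → k0 ≤ j → ∃ N : ℕ, ∀ n : ℕ, N ≤ n → (FmT F n (T1 ∪ T2)).Finite ∧
    ({f | f ∈ FmT F n (T1 ∪ T2) ∧ ¬ Good η T1 T2 j f}.ncard : ℝ) ≤
      ε * (FmT F n (T1 ∪ T2)).ncard

open Classical in
/-- LAW: the law for the twists of almost all the curves of the family. -/
def LAWStmt : Prop :=
  ∀ (F : Type) [Field F] [Finite F], (2 : F) ≠ 0 → ∀ ε : ℝ, 0 < ε → ∃ k0 : ℕ,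
    ∀ (T1 T2 : Finset F[X]) (j : ℕ), Disjoint T1 T2 → EvT (T1 ∪ T2) → T2.card = 2 →
    T1.card = 2 * j + 1 → k0 ≤ j → ∃ N : ℕ, ∀ n : ℕ, N ≤ n → (FmT F n (T1 ∪ T2)).Finite ∧
    ({f | f ∈ FmT F n (T1 ∪ T2) ∧ ¬ LawF ε T1 T2 f}.ncard : ℝ) ≤
      ε * (FmT F n (T1 ∪ T2)).ncard

/-- NIR: there are many irreducible polynomials of a given large degree. -/
def NIRStmt : Prop :=
  ∀ (F : Type) [Field F] [Finite F] (k : ℕ), ∃ E : ℕ, ∀ e : ℕ, E ≤ e →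
    ∃ S : Finset F[X], S.card = k ∧ ∀ P ∈ S, P.Monic ∧ Irreducible P ∧ P.natDegree = e

open Classical in
/-- RKP: small Selmer groups and the group of points. -/
def RKPStmt : Prop :=
  ∀ (F : Type) [Field F] [Finite F], (2 : F) ≠ 0 → ∀ (n : ℕ), ∀ g ∈ Irr F n,
    ((Sel g).ncard = 1 → Finite (EK g)) ∧
    ((Sel g).ncard = 1 ∨ (Sel g).ncard = 2 → AddGroup.FG (EK g) ∧ rk g ≤ 1)

open Classical in
/-- FIP: from the law for one curve to the law for the family. -/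
def FIPStmt : Prop :=
  ∀ (F : Type) [Field F] [Finite F], (2 : F) ≠ 0 → ∀ (ε : ℝ) (e n : ℕ) (T1 T2 : Finset F[X]),
    0 < ε → Adm e T1 T2 → Odd T1.card → 1 ≤ n → (FmT F n (T1 ∪ T2)).Finite →
    (FmT F n (T1 ∪ T2)).Nonempty →
    ({f | f ∈ FmT F n (T1 ∪ T2) ∧ ¬ LawF ε T1 T2 f}.ncard : ℝ) ≤
      ε * (FmT F n (T1 ∪ T2)).ncard →
    ZF e T1 T2 (n + e * (T1.card / 2 + 1)) ⊆ Irr F (n + e * (T1.card / 2 + 1)) ∧
    (ZF e T1 T2 (n + e * (T1.card / 2 + 1))).Finite ∧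
    (ZF e T1 T2 (n + e * (T1.card / 2 + 1))).ncard =
      (Sl T1 T2).card * (FmT F n (T1 ∪ T2)).ncard ∧ 0 < (Sl T1 T2).card ∧
    (∀ R : ℕ, ∑ r ∈ Finset.range R,
      |({g | g ∈ ZF e T1 T2 (n + e * (T1.card / 2 + 1)) ∧ (Sel g).ncard = 2 ^ r}.ncard : ℝ) /
        (ZF e T1 T2 (n + e * (T1.card / 2 + 1))).ncard - PR r| ≤ 3 * ε) ∧
    |({g | g ∈ ZF e T1 T2 (n + e * (T1.card / 2 + 1)) ∧
        ∃ r : ℕ, Even r ∧ (Sel g).ncard = 2 ^ r}.ncard : ℝ) /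
      (ZF e T1 T2 (n + e * (T1.card / 2 + 1))).ncard - 1 / 2| ≤ ε

open Classical in
/-- The main theorem. -/
def MainPRL (F : Type) [Field F] : Prop :=
  ∀ ε : ℝ, 0 < ε → ∃ k0 : ℕ,
    (∀ k : ℕ, ∃ (e : ℕ) (T1 T2 : Finset F[X]), Adm e T1 T2 ∧ T1.card = k) ∧
    ∀ (e : ℕ) (T1 T2 : Finset F[X]), Adm e T1 T2 → Odd T1.card → k0 ≤ T1.card →
    ∃ c : ℝ, 0 < c ∧ ∃ N : ℕ, ∀ m : ℕ, N ≤ m →
      ZF e T1 T2 m ⊆ Ell F m ∧ (Ell F m).Finite ∧ 0 < (Ell F m).ncard ∧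
      c * (Ell F m).ncard ≤ (ZF e T1 T2 m).ncard ∧
      (∀ R : ℕ, ∑ r ∈ Finset.range R,
        |({g | g ∈ ZF e T1 T2 m ∧ (Sel g).ncard = 2 ^ r}.ncard : ℝ) / (ZF e T1 T2 m).ncard -
          PR r| ≤ ε) ∧
      |({g | g ∈ ZF e T1 T2 m ∧ ∃ r : ℕ, Even r ∧ (Sel g).ncard = 2 ^ r}.ncard : ℝ) /
        (ZF e T1 T2 m).ncard - 1 / 2| ≤ ε ∧
      (0.2097 - ε) * (ZF e T1 T2 m).ncard ≤ {g | g ∈ ZF e T1 T2 m ∧ Finite (EK g)}.ncard ∧
      (0.6291 - ε) * (ZF e T1 T2 m).ncard ≤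
        {g | g ∈ ZF e T1 T2 m ∧ AddGroup.FG (EK g) ∧ rk g ≤ 1}.ncard ∧
      ({f | f ∈ FmT F (m - e * (T1.card / 2 + 1)) (T1 ∪ T2) ∧ ¬ LawF ε T1 T2 f}.ncard : ℝ) ≤
        ε * (FmT F (m - e * (T1.card / 2 + 1)) (T1 ∪ T2)).ncard

/-- MAN: the main theorem from the modules. -/
def MANStmt : Prop :=
  ∀ (F : Type) [Field F] [Finite F], (2 : F) ≠ 0 → MainPRL F

end Pool.PRL
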