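import Pool.Agent.H34.PRL.OAL

/-!
# PRL, modules EIL and HRS: isotropy over the completions and reciprocity
-/

set_option autoImplicit false

namespace Pool.PRL

open Polynomial Matrix Pool.AVR Pool.AVS Pool.RZ

namespace HRS

/-- Isotropy is invariant under a change of basis. -/
theorem isoM_congr {L : Type} [Field L] (G g : Matrix (Fin 3) (Fin 3) L) (hg : g.det ≠ 0) :
    IsoM (gᵀ * G * g) ↔ IsoM G := by
  have hu : IsUnit g.det := isUnit_iff_ne_zero.2 hg
  constructor
  · rintro ⟨z, hz, h⟩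
    refine ⟨g *ᵥ z, ?_, ?_⟩
    · intro h0
      apply hz
      have h1 := congrArg (fun v => g⁻¹ *ᵥ v) h0
      simp only [Matrix.mulVec_mulVec, Matrix.mulVec_zero, Matrix.nonsing_inv_mul g hu,
        Matrix.one_mulVec] at h1
      exact h1
    · rw [← OAL.bil_cong]
      exact h
  · rintro ⟨z, hz, h⟩
    refine ⟨g⁻¹ *ᵥ z, ?_, ?_⟩
    · intro h0
      apply hz
      have h1 := congrArg (fun v => g *ᵥ v) h0
      simp only [Matrix.mulVec_mulVec, Matrix.mulVec_zero, Matrix.mul_nonsing_inv g hu,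
        Matrix.one_mulVec] at h1
      exact h1
    · rw [OAL.bil_cong, Matrix.mulVec_mulVec, Matrix.mul_nonsing_inv g hu, Matrix.one_mulVec]
      exact h

theorem map_congr_mat {K L : Type} [Field K] [Field L] (ι : K →+* L)
    (G g : Matrix (Fin 3) (Fin 3) K) :
    (gᵀ * G * g).map ι = (g.map ι)ᵀ * G.map ι * g.map ι := by
  rw [Matrix.map_mul, Matrix.map_mul, Matrix.transpose_map]

theorem det_map_ne {K L : Type} [Field K] [Field L] (ι : K →+* L)
    {g : Matrix (Fin 3) (Fin 3) K} (hg : g.det ≠ 0) : (g.map ι).det ≠ 0 := by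
  rw [← RingHom.mapMatrix_apply, ← RingHom.map_det]
  exact (map_ne_zero ι).2 hg

/-- The diagonal form. -/
theorem iso_diag {L : Type} [Field L] (a b : L) :
    IsoM (Matrix.diagonal ![a, b, -(a * b)]) ↔ Iso2 a b := by
  have hb : ∀ z : Fin 3 → L, bil (Matrix.diagonal ![a, b, -(a * b)]) z z =
      a * z 0 ^ 2 + b * z 1 ^ 2 - a * b * z 2 ^ 2 := by
    intro z
    simp only [bil, Matrix.mulVec_diagonal, dotProduct, Fin.sum_univ_three]
    simp
    ring
  constructor
  · rintro ⟨z, hz, h⟩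
    rw [hb] at h
    refine ⟨z 0, z 1, z 2, ?_, by linear_combination h⟩
    by_contra h0
    apply hz
    simp only [not_or, not_not] at h0
    funext i
    fin_cases i
    · exact h0.1
    · exact h0.2.1
    · exact h0.2.2
  · rintro ⟨x, y, z, hz, h⟩
    refine ⟨![x, y, z], ?_, ?_⟩
    · intro h0
      rcases hz with h1 | h1 | h1
      · exact h1 (congrFun h0 0)
      · exact h1 (congrFun h0 1)
      · exact h1 (congrFun h0 2)
    · rw [hb]
      change a * x ^ 2 + b * y ^ 2 - a * b * z ^ 2 = 0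
      linear_combination h

end HRS

open HRS in
theorem eil (hNFO : NFOStmt) : EILStmt := by
  intro F _ I ϖ L _ O ι hc G ε hG hε hd hE
  obtain ⟨g, hg, hGI⟩ := hE
  rw [← isoM_congr (G.map ι) (g.map ι) (det_map_ne ι hg), ← map_congr_mat]
  set M := gᵀ * G * g with hM
  have hMs : Mᵀ = M := by
    rw [hM, Matrix.transpose_mul, Matrix.transpose_mul, Matrix.transpose_transpose, hG,
      Matrix.mul_assoc]
  have hMd : M.det = -(ε * g.det) ^ 2 := by
    rw [hM, Matrix.det_mul, Matrix.det_mul, Matrix.det_transpose, hd]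
    ring
  have hu : UI (O : Set L) (ι (ε * g.det)) := by
    obtain ⟨hd0, hdI, hdI'⟩ := hGI.2
    have h1 : (ι (ε * g.det)) ^ 2 ∈ O := by
      have : (ι (ε * g.det)) ^ 2 = -ι M.det := by
        rw [hMd, map_neg, neg_neg, map_pow]
      rw [this]
      exact O.neg_mem _ ((hc.mem _).2 hdI)
    have h2 : ((ι (ε * g.det)) ^ 2)⁻¹ ∈ O := by
      have : ((ι (ε * g.det)) ^ 2)⁻¹ = -ι M.det⁻¹ := by
        rw [hMd, map_inv₀, map_neg, map_pow, inv_neg, neg_neg]
      rw [this]
      exact O.neg_mem _ ((hc.mem _).2 hdI')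
    have key : ∀ x : L, x ^ 2 ∈ O → x ∈ O := by
      intro x hx
      rcases O.mem_or_inv_mem x with h | h
      · exact h
      · by_cases h0 : x = 0
        · rw [h0]
          exact O.zero_mem
        · have : x = x ^ 2 * x⁻¹ := by field_simp
          rw [this]
          exact O.mul_mem _ _ hx h
    refine ⟨(map_ne_zero ι).2 (mul_ne_zero hε hg), key _ h1, key _ ?_⟩
    rw [inv_pow]
    exact h2
  obtain ⟨κ, hκ, hA⟩ := hNFO L O (ι ϖ) hc.loc (M.map ι) (ι (ε * g.det)) (by
    rw [← Matrix.transpose_map, hMs]) (fun i j => (hc.mem _).2 (hGI.1 i j)) hu (by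
    rw [← RingHom.mapMatrix_apply, ← RingHom.map_det, hMd, map_neg, map_pow])
  rw [← isoM_congr (M.map ι) κ hκ.2.1, hA]
  refine ⟨![1, 0, 0], fun h0 => one_ne_zero (congrFun h0 0), ?_⟩
  simp [bil, AA, dotProduct, Matrix.mulVec, Fin.sum_univ_three]

open HRS in
theorem hrs (hDIA : DIAStmt) (hHPF : HPFStmt) (hLHS : LHSStmt) (hLHI : LHIStmt) (hEIL : EILStmt)
    (hOAL : OALStmt) (hCPP : CPPStmt) (hCPI : CPIStmt) : HRSStmt := by
  intro F _ _ h2 T G ε hG hε hd hT hE hI hEO
  obtain ⟨a, b, g, ha, hb, hg, hdiag⟩ := hDIA F h2 G ε hG hε hd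
  -- isotropy over a completion
  have hiso : ∀ (L : Type) [Field L] (ι : RatFunc F →+* L),
      IsoM (G.map ι) ↔ Iso2 (ι (rf a)) (ι (rf b)) := by
    intro L _ ι
    rw [← isoM_congr (G.map ι) (g.map ι) (det_map_ne ι hg), ← map_congr_mat, hdiag, ← iso_diag]
    have : (Matrix.diagonal ![rf a, rf b, -rf (a * b)]).map ι =
        Matrix.diagonal ![ι (rf a), ι (rf b), -(ι (rf a) * ι (rf b))] := by
      rw [Matrix.diagonal_map (map_zero ι)]
      congr 1
      funext i
      fin_cases i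
      · rfl
      · rfl
      · change ι (-rf (a * b)) = -(ι (rf a) * ι (rf b))
        rw [map_neg, rf, map_mul, map_mul]
    rw [this]
  obtain ⟨hfin, hpar⟩ := hHPF F h2 a b ha hb
  have hinf : HbI a b := by
    have hc := hCPI F h2
    exact (hLHI F h2 _ _ _ hc a b ha hb).1 ((hiso _ _).1 (hEIL F _ _ _ _ _ hc G ε hG hε hd hI))
  have hcP : ∀ P : F[X], P.Monic → Irreducible P → ∃ (L : Type) (_ : Field L)
      (O : ValuationSubring L) (ι : RatFunc F →+* L), IsComp F (IP P) (rf P) L O ι := by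
    intro P hPm hP
    let v : IsDedekindDomain.HeightOneSpectrum F[X] :=
      { asIdeal := Ideal.span {P}
        isPrime := (Ideal.span_singleton_prime hP.ne_zero).2 hP.prime
        ne_bot := by
          rw [Ne, Ideal.span_singleton_eq_bot]
          exact hP.ne_zero }
    exact ⟨_, _, _, _, hCPP F h2 P hPm hP v rfl⟩
  have hEH : ∀ P : F[X], P.Monic → Irreducible P → EL (IP P) G → HbP P a b := by
    intro P hPm hP h
    obtain ⟨L, _, O, ι, hc⟩ := hcP P hPm hP
    exact (hLHS F h2 P hPm hP L O ι hc a b ha hb).1 ((hiso L ι).1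
      (hEIL F _ _ L O ι hc G ε hG hε hd h))
  have hOH : ∀ P : F[X], P.Monic → Irreducible P → OAP P G → ¬ HbP P a b := by
    intro P hPm hP h hH
    obtain ⟨L, _, O, ι, hc⟩ := hcP P hPm hP
    exact hOAL F P hP L O ι hc G hG h ((hiso L ι).2
      ((hLHS F h2 P hPm hP L O ι hc a b ha hb).2 hH))
  have hset : {P | P ∈ T ∧ OAP P G} = {P : F[X] | P.Monic ∧ Irreducible P ∧ ¬ HbP P a b} := by
    ext P
    constructor
    · rintro ⟨hPT, hO⟩
      obtain ⟨hPm, hP⟩ := hT P hPT
      exact ⟨hPm, hP, hOH P hPm hP hO⟩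
    · rintro ⟨hPm, hP, hH⟩
      have hPT : P ∈ T := by
        by_contra h0
        exact hH (hEH P hPm hP (hE P hPm hP h0))
      exact ⟨hPT, (hEO P hPT).resolve_left fun h => hH (hEH P hPm hP h)⟩
  rw [hset]
  exact hpar.2 hinf

end Pool.PRL
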