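import Pool.Agent.H15.AVR.STAB
import Pool.Agent.H2.AVR.AAV
import Pool.Agent.H2.AVR.BIR
import Pool.Agent.H2.AVR.NRM
import Pool.Agent.H2.AVR.RNK
import Pool.Agent.H25.AVR.DSC
import Pool.Agent.H25.AVR.NUM
import Pool.Agent.H29.AVR.LDC
import Pool.Agent.H29.AVR.LDN
import Pool.Agent.H33.AVR.CHP
import Pool.Agent.H33.AVR.DE5
import Pool.Agent.H33.AVR.INJ
import Pool.Agent.H33.AVR.RED
import Pool.Agent.H33.AVR.TA5
import Pool.Agent.H4.AVR.DEN
import Pool.Agent.H4.AVR.ICB
import Pool.Agent.H45.AVR.CHB
import Pool.Agent.H45.AVR.SYB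
import Pool.Agent.H46.AVR.BAS
import Pool.Agent.H46.AVR.HOM
import Pool.Agent.H49.AVR.GRP
import Pool.Agent.H57.AVR.LDB
import Pool.Agent.H57.AVR.MWL
import Pool.Agent.H57.AVR.SCL
import Pool.Agent.H58.AVR.KEY
import Pool.Agent.H59.AVR.DNI
import Pool.Agent.H62.AVR.ISO
import Pool.Agent.H62.AVR.PLL
import Pool.Agent.H64.AVR.PRG
import Pool.Agent.H64.AVR.ST1
import Pool.Agent.H64.AVR.TOP
import Pool.Agent.H65.AVR.LAT
import Pool.Agent.H65.AVR.LDT
import Pool.Agent.H65.AVR.STE
import Pool.Agent.H74.AVR.EQF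
import Pool.Agent.H74.AVR.LDA
import Pool.Agent.H75.AVR.LN2
import Pool.Agent.H75.AVR.SFI
import Pool.Agent.H82.AVR.LDP
import Pool.Agent.H83.AVR.EQB
import Pool.Agent.H85.AVR.KER
import Pool.Agent.H86.AVR.DEL
import Pool.Agent.H86.AVR.TAI
import Pool.Agent.H87.AVR.ZET
import Pool.Agent.H95.AVR.ACT
import Pool.Agent.H95.AVR.CNF
import Pool.Agent.H96.AVR.ST2
import Pool.Agent.H99.AVR.CNB
import Pool.Agent.H99.AVR.FIN
import Pool.Agent.H1.AVS.CHH
import Pool.Agent.H1.AVS.TRC
import Pool.Agent.H5.AVS.GLB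
import Pool.Agent.H15.AVS.SHC
import Pool.Agent.H16.AVS.CLE
import Pool.Agent.H20.AVS.SHP
import Pool.Agent.H29.AVS.INH
import Pool.Agent.H31.AVS.EQP
import Pool.Agent.H33.AVS.NGH
import Pool.Agent.H35.AVS.NR2
import Pool.Agent.H57.AVS.CPH
import Pool.Agent.H65.AVS.SYH
import Pool.Agent.H69.AVS.POL
import Pool.Agent.H77.AVS.BIN
import Pool.Agent.H80.AVS.GLU
import Pool.Agent.H87.AVS.CHI
import Pool.Agent.H4.RZ.PA
import Pool.Agent.H4.RZ.PB
import Pool.Agent.H4.RZ.RC3
import Pool.Agent.H4.RZ.RC4
import Pool.Agent.H19.RZ.DQ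
import Pool.Agent.H19.RZ.KD
import Pool.Agent.H20.RZ.PL
import Pool.Agent.H20.RZ.PT
import Pool.Agent.H20.RZ.PU
import Pool.Agent.H20.RZ.TY
import Pool.Agent.H26.RZ.AV
import Pool.Agent.H35.RZ.RC2
import Pool.Agent.H51.RZ.FB1
import Pool.Agent.H51.RZ.FB2
import Pool.Agent.H52.RZ.INF
import Pool.Agent.H54.RZ.NUN
import Pool.Agent.H54.RZ.RC1
import Pool.Agent.H77.RZ.PN
import Pool.Agent.H59.RZ.DN
import Pool.Agent.H59.RZ.NU
import Pool.Agent.H77.RZ.CB
import Pool.Agent.H77.RZ.FI2
import Pool.Agent.H77.RZ.Final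
import Pool.Agent.H77.RZ.LM
import Pool.Agent.H77.RZ.RCP
import Pool.Agent.H77.RZ.TWF
import Pool.Agent.H77.RZ.UPM
import Pool.Agent.H77.RZ.USE
import Pool.Agent.H87.RZ.PR2
import Pool.Agent.H88.RZ.CN
import Pool.Agent.H88.RZ.KY
import Pool.Agent.H96.RZ.QF
import Pool.Agent.H96.RZ.SQ
import Pool.Agent.H11.AVS.SOL
import Pool.Agent.H16.AVS.EMB
import Pool.Agent.H16.AVS.SEH
import Pool.Agent.H17.AVS.LAC
import Pool.Agent.H33.AVS.TRS
import Pool.Agent.H40.AVS.HSM
import Pool.Agent.H43.AVS.CPI
import Pool.Agent.H5.AVS.RIP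
import Pool.Agent.H53.AVS.CPP
import Pool.Agent.H57.AVS.PTB
import Pool.Agent.H83.AVS.LDE
import Pool.Agent.H83.AVS.NFO
import Pool.Agent.H87.AVS.BSH
import Pool.Agent.H98.AVS.RII
import Pool.Agent.H12.AVS.CONE
import Pool.Agent.H12.AVS.ISV
import Pool.Agent.H33.AVS.EXH
import Pool.Agent.H55.AVS.MAS
import Pool.Agent.H23.AVS.TRN
import Pool.Agent.H70.AVS.LTO
import Pool.Agent.H7.AVS.DBL
import Pool.Agent.H85.AVS.APX
import Pool.Agent.H65.AVS.DS1
import Pool.Agent.H65.AVS.DS2
import Pool.Agent.H15.AVS.LVF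
import Pool.Agent.H69.AVS.TRA
import Pool.Agent.H12.AVS.LLG
import Pool.Agent.H68.AVS.LCL
import Pool.Agent.H37.AVS.EBU
import Pool.Agent.H64.AVS.UNI
import Pool.Agent.H61.AVS.SLP
import Pool.Agent.H36.AVS.DIX
import Pool.Agent.H1.AVS.DEQ
import Pool.Agent.H1.AVS.SHI
import Pool.Agent.H1.PRL.PLP
import Pool.Agent.H15.PRL.LT1
import Pool.Agent.H15.PRL.LU2
import Pool.Agent.H20.PRL.CBP
import Pool.Agent.H20.PRL.LCC
import Pool.Agent.H22.PRL.GDF
import Pool.Agent.H25.PRL.CGB
import Pool.Agent.H25.PRL.IDN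
import Pool.Agent.H32.PRL.FLP
import Pool.Agent.H32.PRL.LSM
import Pool.Agent.H32.PRL.MLG
import Pool.Agent.H32.PRL.SLC
import Pool.Agent.H33.PRL.EXI
import Pool.Agent.H33.PRL.TYM
import Pool.Agent.H34.PRL.OAL
import Pool.Agent.H34.PRL.QRC
import Pool.Agent.H4.PRL.CLA
import Pool.Agent.H4.PRL.LMI
import Pool.Agent.H40.PRL.DNP
import Pool.Agent.H40.PRL.LU1
import Pool.Agent.H40.PRL.TWP
import Pool.Agent.H40.PRL.TYQ
import Pool.Agent.H44.PRL.LHS
import Pool.Agent.H44.PRL.TCT
import Pool.Agent.H52.PRL.LI1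
import Pool.Agent.H52.PRL.RKP
import Pool.Agent.H52.PRL.SMP
import Pool.Agent.H54.PRL.LT2
import Pool.Agent.H55.PRL.KYP
import Pool.Agent.H55.PRL.TYP
import Pool.Agent.H58.PRL.LBB
import Pool.Agent.H6.PRL.CYM
import Pool.Agent.H6.PRL.SCD
import Pool.Agent.H60.PRL.FB3
import Pool.Agent.H64.PRL.HPF
import Pool.Agent.H64.PRL.NIR
import Pool.Agent.H64.PRL.SEL
import Pool.Agent.H66.PRL.AVP
import Pool.Agent.H66.PRL.PRP
import Pool.Agent.H67.PRL.QRR
import Pool.Agent.H75.PRL.FIQ
import Pool.Agent.H75.PRL.HRS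
import Pool.Agent.H75.PRL.QFP
import Pool.Agent.H75.PRL.SHA
import Pool.Agent.H77.PRL.BLC
import Pool.Agent.H77.PRL.LAW
import Pool.Agent.H77.PRL.SLZ
import Pool.Agent.H77.PRL.SQR
import Pool.Agent.H81.PRL.LHI
import Pool.Agent.H81.PRL.SPU
import Pool.Agent.H83.PRL.NUP
import Pool.Agent.H87.PRL.CYC
import Pool.Agent.H87.PRL.DIA
import Pool.Agent.H97.PRL.CNP
import Pool.Agent.H97.PRL.FB4
import Pool.Agent.H97.PRL.LHL
import Pool.Agent.H75.PRL.MN2

/-!
# PRL: all modules together
-/

set_option autoImplicit false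

namespace Pool.PRL

open Pool.AVR Pool.AVS Pool.RZ Pool.Agent.H70.AVS Pool.Agent.H16.AVS Pool.Agent.H33.PRL Pool.Agent.H81.PRL
  Pool.Agent.H64.PRL

/-- The main theorem for every finite field of odd order. -/
theorem mainPR (F : Type) [Field F] [Finite F] (h2 : (2 : F) ≠ 0) : MainPR F := by
  have hKER : KERStmt := by apply KER_thm <;> assumption
  have hHOM : HOMStmt := by apply hom_thm <;> assumption
  have hINJ : INJStmt := by apply inj_thm <;> assumption
  have hISO : ISOStmt := by apply iso_thm <;> assumption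
  have hCHP : CHPStmt := by apply chp_thm <;> assumption
  have hSYB : SYBStmt := by apply syb_thm <;> assumption
  have hCHB : CHBStmt := by apply chb_thm <;> assumption
  have hBAS : BASStmt := by apply bas_thm <;> assumption
  have hSTAB : STABStmt := by apply STAB_thm <;> assumption
  have hLAT : LATStmt := by apply lat_thm <;> assumption
  have hSCL : SCLStmt := by apply scl_thm <;> assumption
  have hDEN : DENStmt := by apply den_thm <;> assumption
  have hDNI : DNIStmt := by apply dni_thm <;> assumption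
  have hBIR : BIRStmt := by apply bir_thm <;> assumption
  have hNRM : NRMStmt := by apply nrm_thm <;> assumption
  have hKEY : KEYStmt := by apply key_thm <;> assumption
  have hGRP : GRPStmt := by apply grp_thm <;> assumption
  have hACT : ACTStmt := by apply act_thm <;> assumption
  have hCNB : CNBStmt := by apply cnb_thm <;> assumption
  have hCNF : CNFStmt := by apply cnf_thm <;> assumption
  have hFIN : FINStmt := by apply fin_thm <;> assumption
  have hSTE : STEStmt := by apply ste_thm <;> assumption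
  have hDSC : DSCStmt := by apply DSC_thm <;> assumption
  have hICB : ICBStmt := by apply icb_thm <;> assumption
  have hLDP : LDPStmt := by apply ldp_thm <;> assumption
  have hEQB : EQBStmt := by apply eqb_thm <;> assumption
  have hRED : REDStmt := by apply red_thm <;> assumption
  have hRNK : RNKStmt := by apply rnk_thm <;> assumption
  have hAAV : AAVStmt := by apply aav_thm <;> assumption
  have hPLL : PLLStmt := by apply pll_thm <;> assumption
  have hMWL : MWLStmt := by apply mwl_thm <;> assumption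
  have hST1 : ST1Stmt := by apply st1_thm <;> assumption
  have hST2 : ST2Stmt := by apply ST2.st2_thm <;> assumption
  have hLDA : LDAStmt := by apply lda_thm <;> assumption
  have hLDB : LDBStmt := by apply ldb_thm <;> assumption
  have hLDC : LDCStmt := by apply H29.ldc_thm <;> assumption
  have hLDN : LDNStmt := by apply H29.ldn_thm <;> assumption
  have hLDT : LDTStmt := by apply ldt_thm <;> assumption
  have hLN2 : LN2Stmt := by apply ln2_thm <;> assumption
  have hTOP : TOPStmt := by apply top_thm <;> assumption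
  have hNUM : NUMStmt := by apply NUM_thm <;> assumption
  have hEQF : EQFStmt := by apply eqf_thm <;> assumption
  have hTAI : TAIStmt := by apply tai_thm <;> assumption
  have hDEL : DELStmt := by apply del_thm <;> assumption
  have hTA5 : TA5Stmt := by apply ta5_thm <;> assumption
  have hDE5 : DE5Stmt := by apply de5_thm <;> assumption
  have hPRG : PRGStmt := by apply prg_thm <;> assumption
  have hZET : ZETStmt := by apply zet_thm <;> assumption
  have hSFI : SFIStmt := by apply sfi_thm <;> assumption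
  -- the modules of AVS
  have hNGH : NGHStmt := ngh_thm
  have hCHI : CHIStmt := chi_thm
  have hTRC : TRCStmt := trc_thm hNGH
  have hINH : INHStmt := inh_thm
  have hPOL : POLStmt := pol_thm
  have hSYH : SYHStmt := syh_thm
  have hCHH : CHHStmt := chh_thm
  have hGLU : GLUStmt := glu_thm
  have hNR2 : NR2Stmt := nr2_thm
  have hGLB : GLBStmt := glb_thm hGLU hNR2 hBIR hPOL
  have hCLE : CLEStmt := Pool.Agent.H16.AVS.cle_thm
  have hCPH : CPHStmt := cph_thm hCHI
  have hEQP : EQPStmt := eqp_thm
  have hBIN : BINStmt := bin_thm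
  have hSHP : SHPStmt := SHP_thm
  have hSHC : SHCStmt := shc_thm
  -- the modules of RZ
  have hLM : LMStmt := lm_thm
  have hNUN : NUNStmt := nun_thm hNGH
  have hUPM : UPMStmt := upm_thm
  have hUSE : USEStmt := use_thm hLM hNUN
  have hTRE : TREStmt := tre_thm hLM hNUN hUPM
  have hINF : INFStmt := inf_thm hNGH
  have hBSH : BSHStmt := by apply bsh_thm <;> assumption
  have hEXH : EXHStmt := by apply exh_thm <;> assumption
  have hPTB : PTBStmt := by apply ptb_thm <;> assumption
  have hSOL : SOLStmt := by apply sol_thm <;> assumption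
  have hISV : ISVStmt := by apply isv_thm <;> assumption
  have hDIX : DIXStmt := by apply dix_thm <;> assumption
  have hSLP : SLPStmt := by apply SLP_thm <;> assumption
  have hDEQ : DEQStmt := by apply deq_thm <;> assumption
  have hCON : CONStmt := by apply con_thm <;> assumption
  have hDBL : DBLStmt := by apply dbl_thm <;> assumption
  have hTRN : TRNStmt := by apply trn_thm <;> assumption
  have hNFO : NFOStmt := by apply nfo_thm <;> assumption
  have hLTO : LTOStmt := by apply Pool.Agent.H70.AVS.lto_thm <;> assumption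
  have hDS1 : DS1Stmt := by apply ds1_thm <;> assumption
  have hDS2 : DS2Stmt := by apply ds2_thm <;> assumption
  have hUNI : UNIStmt := by apply uni_thm <;> assumption
  have hHSM : HSMStmt := by apply hsm_thm <;> assumption
  have hEBU : EBUStmt := by apply ebu_thm <;> assumption
  have hLCL : LCLStmt := by apply lcl_thm <;> assumption
  have hTRS : TRSStmt := by apply trs_thm <;> assumption
  have hCPP : CPPStmt := by apply cpp_thm <;> assumption
  have hCPI : CPIStmt := by apply cpi_thm <;> assumption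
  have hRIP : RIPStmt := by apply rip_thm <;> assumption
  have hRII : RIIStmt := by apply rii_thm <;> assumption
  have hAPX : APXStmt := by apply apx_thm <;> assumption
  have hTRA : TRAStmt := by apply tra_thm <;> assumption
  have hLLG : LLGStmt := by apply llg_thm <;> assumption
  have hLAC : LACStmt := by apply lac_thm <;> assumption
  have hSEH : SEHStmt := by apply Pool.Agent.H16.AVS.seh_thm <;> assumption
  have hEMB : EMBStmt := by apply Pool.Agent.H16.AVS.emb_thm <;> assumption
  have hSHI : SHIStmt := by apply shi_thm <;> assumption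
  have hMAS : MASStmt := by apply mas_thm <;> assumption
  have hLDE : LDEStmt := by apply lde_thm <;> assumption
  have hQF : QFStmt := qf_thm
  have hSQ : SQStmt := sq_thm hQF
  have hFB1 : FB1Stmt := fb1_thm
  have hFB2 : FB2Stmt := fb2_thm
  -- the modules of PRL
  have hIDN : Pool.PRL.IDNStmt := by apply idn <;> assumption
  have hFLP : Pool.PRL.FLPStmt := by apply flp <;> assumption
  have hPAR : Pool.PRL.PARStmt := by apply par <;> assumption
  have hSLC : Pool.PRL.SLCStmt := by apply slc <;> assumption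
  have hSLZ : Pool.PRL.SLZStmt := by apply slz <;> assumption
  have hBLC : Pool.PRL.BLCStmt := by apply blc <;> assumption
  have hSPU : Pool.PRL.SPUStmt := by apply spu <;> assumption
  have hTYM : Pool.PRL.TYMStmt := by apply tym <;> assumption
  have hCLA : Pool.PRL.CLAStmt := by apply cla <;> assumption
  have hTYP : Pool.PRL.TYPStmt := by apply typ <;> assumption
  have hLMI : Pool.PRL.LMIStmt := by apply lmi <;> assumption
  have hQFP : Pool.PRL.QFPStmt := by apply qfp <;> assumption
  have hPLP : Pool.PRL.PLPStmt := by apply plp <;> assumption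
  have hLBB : Pool.PRL.LBBStmt := by apply lbb_thm <;> assumption
  have hLCC : Pool.PRL.LCCStmt := by apply lcc_thm <;> assumption
  have hEIL : Pool.PRL.EILStmt := by apply eil <;> assumption
  have hOAL : Pool.PRL.OALStmt := by apply oal <;> assumption
  have hEXI : Pool.PRL.EXIStmt := by apply exi <;> assumption
  have hTYQ : Pool.PRL.TYQStmt := by apply tyq_thm <;> assumption
  have hCGB : Pool.PRL.CGBStmt := by apply cgb <;> assumption
  have hDIA : Pool.PRL.DIAStmt := by apply dia_thm <;> assumption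
  have hQRC : Pool.PRL.QRCStmt := by apply qrc <;> assumption
  have hHPF : Pool.PRL.HPFStmt := by apply hpf <;> assumption
  have hLHL : Pool.PRL.LHLStmt := by apply lhl <;> assumption
  have hLHS : Pool.PRL.LHSStmt := by apply lhs_thm <;> assumption
  have hLHI : Pool.PRL.LHIStmt := by apply lhi <;> assumption
  have hHRS : Pool.PRL.HRSStmt := by apply hrs <;> assumption
  have hSCD : Pool.PRL.SCDStmt := by apply scd_thm <;> assumption
  have hCYM : Pool.PRL.CYMStmt := by apply cym <;> assumption
  have hCYC : Pool.PRL.CYCStmt := by apply cyc_thm <;> assumption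
  have hLU1 : Pool.PRL.LU1Stmt := by apply lu1_thm <;> assumption
  have hSMP : Pool.PRL.SMPStmt := by apply smp <;> assumption
  have hLSM : Pool.PRL.LSMStmt := by apply lsm <;> assumption
  have hLSU : Pool.PRL.LSUStmt := by apply lsu <;> assumption
  have hLU2 : Pool.PRL.LU2Stmt := by apply lu2 <;> assumption
  have hSQR : Pool.PRL.SQRStmt := by apply sqr <;> assumption
  have hSQL : Pool.PRL.SQLStmt := by apply sql <;> assumption
  have hLT1 : Pool.PRL.LT1Stmt := by apply lt1 <;> assumption
  have hLT2 : Pool.PRL.LT2Stmt := by apply lt2_thm <;> assumption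
  have hLI1 : Pool.PRL.LI1Stmt := by apply li1 <;> assumption
  have hSEL : Pool.PRL.SELStmt := by apply sel <;> assumption
  have hTWP : Pool.PRL.TWPStmt := by apply twp_thm <;> assumption
  have hKYP : Pool.PRL.KYPStmt := by apply kyp <;> assumption
  have hCNP : Pool.PRL.CNPStmt := by apply cnp <;> assumption
  have hTCT : Pool.PRL.TCTStmt := by apply tct_thm <;> assumption
  have hFB3 : Pool.PRL.FB3Stmt := by apply fb3 <;> assumption
  have hCBP : Pool.PRL.CBPStmt := by apply cbp_thm <;> assumption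
  have hFB4 : Pool.PRL.FB4Stmt := by apply fb4 <;> assumption
  have hNUP : Pool.PRL.NUPStmt := by apply nup_thm <;> assumption
  have hDNP : Pool.PRL.DNPStmt := by apply dnp_thm <;> assumption
  have hPRP : Pool.PRL.PRPStmt := by apply prp_thm <;> assumption
  have hAVP : Pool.PRL.AVPStmt := by apply avp_thm <;> assumption
  have hQRR : Pool.PRL.QRRStmt := by apply qrr <;> assumption
  have hMLG : Pool.PRL.MLGStmt := by apply mlg <;> assumption
  have hGDF : Pool.PRL.GDFStmt := by apply gdf <;> assumption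
  have hLAW : Pool.PRL.LAWStmt := by apply law <;> assumption
  have hNIR : Pool.PRL.NIRStmt := by apply nir_thm <;> assumption
  have hRKP : Pool.PRL.RKPStmt := by apply rkp <;> assumption
  have hFIQ : Pool.PRL.FIQStmt := by apply fiq <;> assumption
  have hSHA : Pool.PRL.SHAStmt := by apply sha <;> assumption
  exact man2 hLAW hFIQ hSHA hNIR hAVP hTWP hCNF hDSC hSHC F h2

end Pool.PRL
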