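import Pool.Agent.H77.RZ.Stmts
import Pool.Agent.H75.PRL.S4

/-!
# The Poonen-Rains law for 2-Selmer groups over `F(t)`: definitions

`F` finite of odd order, `K = F(t)`, `f = (a, b, c)`, `E_f : y² = x³ + a x² + b x + c`,
`tw d f` the quadratic twist of `f` by `d`.  `T` is a finite set of monic irreducible polynomials of
even degree.
-/

set_option autoImplicit false

namespace Pool.PRL

open Polynomial Matrix Pool.AVR Pool.AVS Pool.RZ

section Defs

variable {F : Type} [Field F]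

/-- `a` is a square modulo `P`. -/
def SqM (P a : F[X]) : Prop := ∃ w : F[X], P ∣ a - w ^ 2

/-- Modulo `P` the cubic `f` is `(X - e) (X² + β X + γ)` and the quadratic factor has no root
(normalised representatives). -/
def Spl (P : F[X]) (f : F[X] × F[X] × F[X]) (e β γ : F[X]) : Prop :=
  (∀ x : F[X], ¬ P ∣ x ^ 2 + β * x + γ) ∧ P ∣ f.1 - (β - e) ∧ P ∣ f.2.1 - (γ - e * β) ∧
    P ∣ f.2.2 + e * γ ∧ e.degree < P.degree ∧ β.degree < P.degree ∧ γ.degree < P.degree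

/-- Modulo `P` the cubic is the product of a linear polynomial and of an irreducible quadratic
polynomial. -/
def T12P (P : F[X]) (f : F[X] × F[X] × F[X]) : Prop := ∃ e β γ : F[X], Spl P f e β γ

/-- A uniformizer at the prime of degree two above `P`, a unit at the prime of degree one. -/
noncomputable def vp (P β γ : F[X]) : F[X][X] := (X ^ 2 + C β * X + C γ) ^ 2 + C P

/-- The type of the class of `h` at `P`. -/
def Typ (P : F[X]) (f : F[X] × F[X] × F[X]) (x : Ty) (h : (RatFunc F)[X]) : Prop :=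
  ∃ (e β γ : F[X]) (s : (RatFunc F)[X]) (p : F[X][X]), Spl P f e β γ ∧
    cubK f ∣ h * s ^ 2 - lf (vp P β γ ^ x.1.val * p) ∧ UnP P f p ∧
    (x.2 = 0 ↔ SqM P (p.eval e * (e ^ 2 + β * e + γ) ^ x.1.val))

/-- At `P`, the symmetric matrix `G` is, for some lattice, the orthogonal sum of a unit and of
`P` times an anisotropic form, modulo `P`. -/
def OAP (P : F[X]) (G : Matrix (Fin 3) (Fin 3) (RatFunc F)) : Prop :=
  ∃ g : Matrix (Fin 3) (Fin 3) (RatFunc F), g.det ≠ 0 ∧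
    UI (IP P) ((gᵀ * G * g) 0 0) ∧
    (∀ i j, ¬ (i = 0 ∧ j = 0) → (gᵀ * G * g) i j / rf P ∈ IP P) ∧
    ∀ x y : RatFunc F, x ∈ IP P → y ∈ IP P →
      ((gᵀ * G * g) 1 1 * x ^ 2 + 2 * (gᵀ * G * g) 1 2 * (x * y) + (gᵀ * G * g) 2 2 * y ^ 2) /
        rf P ^ 2 ∈ IP P → x / rf P ∈ IP P ∧ y / rf P ∈ IP P

/-- `A` and `B` have a common isotropic vector modulo `P`. -/
def TrP (P : F[X]) (B : Matrix (Fin 3) (Fin 3) F[X]) : Prop :=
  ∃ z : Fin 3 → F[X], (∃ i, ¬ P ∣ z i) ∧ P ∣ bil (AA F[X]) z z ∧ P ∣ bil B z z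

/-- Modulo `P` the matrix `B` is a nonzero square times `l²`, `l = A z` isotropic; modulo `P²` the
vector `z` is isotropic for `A` and is an eigenvector with eigenvalue divisible by `P`. -/
def BSh (P : F[X]) (B : Matrix (Fin 3) (Fin 3) F[X]) : Prop :=
  ∃ (z : Fin 3 → F[X]) (μ w : F[X]), (∃ i, ¬ P ∣ z i) ∧ ¬ P ∣ w ∧
    P ^ 2 ∣ bil (AA F[X]) z z ∧
    (∀ i, P ^ 2 ∣ (B *ᵥ z) i - P * μ * (AA F[X] *ᵥ z) i) ∧
    ∀ i j, P ∣ B i j - w ^ 2 * ((AA F[X] *ᵥ z) i * (AA F[X] *ᵥ z) j)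

/-- The same shape for a pair of matrices over `F(t)`. -/
def BShK (P : F[X]) (G B : Matrix (Fin 3) (Fin 3) (RatFunc F)) : Prop :=
  ∃ (z : Fin 3 → RatFunc F) (μ w : RatFunc F), (∀ i, z i ∈ IP P) ∧ (∃ i, z i / rf P ∉ IP P) ∧
    μ ∈ IP P ∧ w ∈ IP P ∧ w / rf P ∉ IP P ∧ bil G z z / rf P ^ 2 ∈ IP P ∧
    (∀ i, ((B *ᵥ z) i - rf P * μ * (G *ᵥ z) i) / rf P ^ 2 ∈ IP P) ∧
    ∀ i j, (B i j - w ^ 2 * ((G *ᵥ z) i * (G *ᵥ z) j)) / rf P ∈ IP P

/-- The bilinear form of a binary matrix. -/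
def bil2 {R : Type} [CommRing R] (M : Matrix (Fin 2) (Fin 2) R) (u v : Fin 2 → R) : R :=
  u ⬝ᵥ (M *ᵥ v)

/-- The local conditions for the matrix `B` of a class with types `y P`, `P ∈ T`. -/
def LocY (T : Finset F[X]) (y : F[X] → Ty) (B : Matrix (Fin 3) (Fin 3) F[X]) : Prop :=
  ∀ P ∈ T, (y P = (0, 0) → TrP P B) ∧ (y P = (0, 1) → ¬ TrP P B) ∧ (y P = (1, 0) → BSh P B)

/-- The product of the primes of `S`. -/
noncomputable def pr (S : Finset F[X]) : F[X] := ∏ P ∈ S, P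

open Classical in
/-- The primes of `T` with type `(1, 0)`. -/
noncomputable def odd (T : Finset F[X]) (y : F[X] → Ty) : Finset F[X] :=
  T.filter fun P => (y P).1 = 1

/-- The substitution `X ↦ X / d`. -/
noncomputable def scd (d : F[X]) (h : (RatFunc F)[X]) : (RatFunc F)[X] :=
  h.comp (C (rf d)⁻¹ * X)

/-- The class of `h` (for `f`) is, over `L`, the class of a point of the twist by `d`. -/
def LSD {L : Type} [Field L] (ι : RatFunc F →+* L) (d : F[X]) (f : F[X] × F[X] × F[X])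
    (h : (RatFunc F)[X]) : Prop :=
  ∃ x y : L, OnC (ι (kf (tw d f)).1) (ι (kf (tw d f)).2.1) (ι (kf (tw d f)).2.2) x y ∧ y ≠ 0 ∧
    ∃ s : L[X], (cubK f).map ι ∣ (C x - C (ι (rf d)) * X) - h.map ι * s ^ 2

/-- The classes of square norm which are classes of units at all primes outside `T`. -/
def Rc (f : F[X] × F[X] × F[X]) (T : Finset F[X]) : Set ((Alg f)ˣ ⧸ Sq f) :=
  {ξ | ∃ (u : (Alg f)ˣ) (h : (RatFunc F)[X]), (QuotientGroup.mk u : (Alg f)ˣ ⧸ Sq f) = ξ ∧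
    (u : Alg f) = AdjoinRoot.mk (cubK f) h ∧
    IsSquare (Algebra.norm (RatFunc F) (AdjoinRoot.mk (cubK f) h)) ∧
    ∀ P : F[X], P.Monic → Irreducible P → P ∉ T → US P f h}

/-- The class `ξ` has type `x` at `P`. -/
def TyC (f : F[X] × F[X] × F[X]) (P : F[X]) (x : Ty) (ξ : (Alg f)ˣ ⧸ Sq f) : Prop :=
  ∃ (u : (Alg f)ˣ) (h : (RatFunc F)[X]), (QuotientGroup.mk u : (Alg f)ˣ ⧸ Sq f) = ξ ∧
    (u : Alg f) = AdjoinRoot.mk (cubK f) h ∧ Typ P f x h

/-- The nontrivial classes, unit classes outside `T`, with types `y P`, `P ∈ T`. -/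
def PatR (f : F[X] × F[X] × F[X]) (T : Finset F[X]) (y : F[X] → Ty) :
    Set ((Alg f)ˣ ⧸ Sq f) :=
  {ξ ∈ Rc f T | ξ ≠ 1 ∧ ∀ P ∈ T, TyC f P (y P) ξ}

end Defs

section Family

variable (F : Type) [Field F]

/-- The family: squarefree discriminant, linear times irreducible quadratic at the primes of `T`,
irreducible at infinity. -/
def FmT (n : ℕ) (T : Finset F[X]) : Set (F[X] × F[X] × F[X]) :=
  {f ∈ SF F n | (∀ P ∈ T, T12P P f) ∧ NR (top3 n f)}

/-- The density of the family, for the primes of `S` (outside `T`). -/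
noncomputable def ddT (T S : Finset F[X]) : ℝ :=
  d3 F * (∏ P ∈ T, ((Nat.card F : ℝ) ^ P.natDegree - 1) / (2 * (Nat.card F : ℝ) ^ P.natDegree)) *
    ∏ P ∈ S, dens (AdjoinRoot (P ^ 2))

variable {F}

/-- `T` consists of monic irreducible polynomials of even degree. -/
def EvT (T : Finset F[X]) : Prop := ∀ P ∈ T, P.Monic ∧ Irreducible P ∧ Even P.natDegree

end Family

section Hilbert

variable {F : Type} [Field F]

/-- The exponent of `P`. -/
noncomputable def ordP (P a : F[X]) : ℕ := multiplicity P a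

/-- The cofactor. -/
noncomputable def cofP (P a : F[X]) : F[X] := a / P ^ ordP P a

/-- The Hilbert symbol of `a` and `b` at `P` is `1`. -/
def HbP (P a b : F[X]) : Prop :=
  SqM P ((-1) ^ (ordP P a * ordP P b) * cofP P a ^ ordP P b * cofP P b ^ ordP P a)

/-- The Hilbert symbol of `a` and `b` at infinity is `1`. -/
def HbI (a b : F[X]) : Prop :=
  IsSquare ((-1) ^ (a.natDegree * b.natDegree) * a.leadingCoeff ^ b.natDegree *
    b.leadingCoeff ^ a.natDegree)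

/-- Over `L` the form `a x² + b y² - a b z²` is isotropic. -/
def Iso2 {L : Type} [Field L] (a b : L) : Prop :=
  ∃ x y z : L, (x ≠ 0 ∨ y ≠ 0 ∨ z ≠ 0) ∧ a * x ^ 2 + b * y ^ 2 = a * b * z ^ 2

/-- Over `L` the symmetric matrix is isotropic. -/
def IsoM {L : Type} [Field L] (G : Matrix (Fin 3) (Fin 3) L) : Prop :=
  ∃ z : Fin 3 → L, z ≠ 0 ∧ bil G z z = 0

end Hilbert

end Pool.PRL
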