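import Pool.Agent.H75.PRL.FIP

/-! # PRL, module MAN: the main theorem from the modules -/

set_option autoImplicit false

namespace Pool.PRL

open Polynomial Matrix Pool.AVR Pool.AVS Pool.RZ

open FIP in
open Classical in
theorem man (hLAW : LAWStmt) (hFIP : FIPStmt) (hNIR : NIRStmt) (hRKP : RKPStmt)
    (hAVP : AVPStmt) (hIDN : IDNStmt) (hCNF : CNFStmt) (hDSC : DSCStmt) : MANStmt := by
  intro F _ _ h2 ε hε
  obtain ⟨hPRpos, _, _, _, hPR0, _, hPR1⟩ := hIDN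
  have hq1 : 1 < Nat.card F := Finite.one_lt_card
  have hq0 : (0 : ℝ) < Nat.card F := by exact_mod_cast (by omega : 0 < Nat.card F)
  have h2K : (2 : RatFunc F) ≠ 0 := by
    intro h
    apply h2
    have h3 : algebraMap F (RatFunc F) 2 = algebraMap F (RatFunc F) 0 := by
      rw [map_ofNat, map_zero]
      exact h
    exact (algebraMap F (RatFunc F)).injective h3
  have hdiscmap : ∀ f : F[X] × F[X] × F[X],
      disc (algebraMap F[X] (RatFunc F) f.1) (algebraMap F[X] (RatFunc F) f.2.1)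
        (algebraMap F[X] (RatFunc F) f.2.2) = algebraMap F[X] (RatFunc F)
          (disc f.1 f.2.1 f.2.2) := by
    intro f
    simp only [disc, map_add, map_sub, map_mul, map_pow, map_ofNat]
  have hsep : ∀ f : F[X] × F[X] × F[X], (cubK f).Separable ↔ disc f.1 f.2.1 f.2.2 ≠ 0 := by
    intro f
    rw [cubK, (hDSC (RatFunc F) h2K _ _ _).1, hdiscmap]
    exact (map_ne_zero_iff _ (RatFunc.algebraMap_injective F))
  have hIrrEll : ∀ n, Irr F n ⊆ Ell F n := fun n f hf => ⟨hf.1, (hsep f).1 hf.2.2⟩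
  have hε' : 0 < ε / 3 := by positivity
  obtain ⟨k0, hk0⟩ := hLAW F h2 (ε / 3) hε'
  refine ⟨2 * k0 + 1, ?_, ?_⟩
  · intro k
    obtain ⟨E1, hE1⟩ := hNIR F k
    obtain ⟨E2, hE2⟩ := hNIR F 2
    obtain ⟨T1, h3, h4⟩ := hE1 (2 * (2 * (E1 + E2))) (by omega)
    obtain ⟨T2, h5, h6⟩ := hE2 (2 * (E1 + E2)) (by omega)
    exact ⟨2 * (E1 + E2), T1, T2, ⟨even_two_mul _, h4, h6, h5⟩, h3⟩
  intro e T1 T2 ha ho hk
  obtain ⟨j, hj⟩ := ho
  have hj2 : T1.card / 2 = j := by omega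
  have hdis := adm_dis ha
  have hev := adm_ev ha
  obtain ⟨N, hN⟩ := hk0 T1 T2 j hdis hev ha.2.2.2 hj (by omega)
  obtain ⟨⟨δ, hδ, N1, hN1⟩, _⟩ := hAVP F h2 (T1 ∪ T2) hev
  set E : ℕ := e * (T1.card / 2 + 1) with hE
  refine ⟨δ / (Nat.card F : ℝ) ^ (12 * E), by positivity, N + N1 + 1 + E, ?_⟩
  intro m hm
  obtain ⟨n, rfl⟩ : ∃ n, m = n + E := ⟨m - E, by omega⟩
  have hn1 : 1 ≤ n := by omega
  obtain ⟨hfin, hbad⟩ := hN n (by omega)
  obtain ⟨_, hdens⟩ := hN1 n (by omega)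
  have hFm0 : (0 : ℝ) < (FmT F n (T1 ∪ T2)).ncard := lt_of_lt_of_le (by positivity) hdens
  have hne : (FmT F n (T1 ∪ T2)).Nonempty := by
    rw [Set.nonempty_iff_ne_empty]
    intro h
    rw [h, Set.ncard_empty] at hFm0
    simp at hFm0
  obtain ⟨hsub, hZfin, hZc, hS0, hlaw, heven⟩ := hFIP F h2 (ε / 3) e n T1 T2 hε' ha
    ⟨j, hj⟩ hn1 hfin hne hbad
  rw [← hE] at hsub hZfin hZc hlaw heven
  have hEfin : (Ell F (n + E)).Finite :=
    (hCNF F h2 (n + E) (by omega)).1.subset fun f hf => hf.1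
  have hZsub : ZF e T1 T2 (n + E) ⊆ Ell F (n + E) := hsub.trans (hIrrEll _)
  have hZ0 : (0 : ℝ) < (ZF e T1 T2 (n + E)).ncard := by
    rw [hZc]
    push_cast
    exact mul_pos (by exact_mod_cast hS0) hFm0
  have hEc : ((Ell F (n + E)).ncard : ℝ) ≤ (Nat.card F : ℝ) ^ (12 * (n + E) + 3) := by
    have h3 : (Ell F (n + E)).ncard ≤ (Fam F (n + E)).ncard :=
      Set.ncard_le_ncard (fun f hf => hf.1) (hCNF F h2 (n + E) (by omega)).1
    rw [(hCNF F h2 (n + E) (by omega)).2.1] at h3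
    exact_mod_cast h3
  have hsel : ∀ r : ℕ, {g | g ∈ ZF e T1 T2 (n + E) ∧ (Sel g).ncard = 2 ^ r}.Finite :=
    fun r => hZfin.subset fun g hg => hg.1
  refine ⟨hZsub, hEfin, ?_, ?_, ?_, ?_, ?_, ?_, ?_⟩
  · have h3 : (ZF e T1 T2 (n + E)).ncard ≤ (Ell F (n + E)).ncard := Set.ncard_le_ncard hZsub hEfin
    have h4 : 0 < (ZF e T1 T2 (n + E)).ncard := by exact_mod_cast hZ0
    omega
  · calc δ / (Nat.card F : ℝ) ^ (12 * E) * (Ell F (n + E)).ncard
        ≤ δ / (Nat.card F : ℝ) ^ (12 * E) * (Nat.card F : ℝ) ^ (12 * (n + E) + 3) :=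
          mul_le_mul_of_nonneg_left hEc (by positivity)
      _ = δ * (Nat.card F : ℝ) ^ (12 * n + 3) := by
          rw [show 12 * (n + E) + 3 = 12 * n + 3 + 12 * E by ring, pow_add]
          field_simp
      _ ≤ (FmT F n (T1 ∪ T2)).ncard := hdens
      _ ≤ (ZF e T1 T2 (n + E)).ncard := by
          rw [hZc]
          push_cast
          have h3 : (1 : ℝ) ≤ (Sl T1 T2).card := by exact_mod_cast hS0
          nlinarith
  · intro R
    refine (hlaw R).trans (le_of_eq (by ring))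
  · exact heven.trans (by linarith)
  · have h3 := hlaw 1
    rw [Finset.sum_range_one, pow_zero] at h3
    have h4 := (abs_le.1 h3).1
    have h5 : (0.2097 - ε) ≤ ({g | g ∈ ZF e T1 T2 (n + E) ∧ (Sel g).ncard = 1}.ncard : ℝ) /
        (ZF e T1 T2 (n + E)).ncard := by linarith
    rw [le_div_iff₀ hZ0] at h5
    refine h5.trans ?_
    have h6 : {g | g ∈ ZF e T1 T2 (n + E) ∧ (Sel g).ncard = 1}.ncard ≤
        {g | g ∈ ZF e T1 T2 (n + E) ∧ Finite (EK g)}.ncard :=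
      Set.ncard_le_ncard (fun g hg => ⟨hg.1, (hRKP F h2 _ g (hsub hg.1)).1 hg.2⟩)
        (hZfin.subset fun g hg => hg.1)
    exact_mod_cast h6
  · have h3 := hlaw 2
    rw [Finset.sum_range_succ, Finset.sum_range_one, pow_zero, pow_one] at h3
    have h4 := abs_le.1 (le_refl |({g | g ∈ ZF e T1 T2 (n + E) ∧ (Sel g).ncard = 1}.ncard : ℝ) /
      (ZF e T1 T2 (n + E)).ncard - PR 0|)
    have h5 := abs_le.1 (le_refl |({g | g ∈ ZF e T1 T2 (n + E) ∧ (Sel g).ncard = 2}.ncard : ℝ) /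
      (ZF e T1 T2 (n + E)).ncard - PR 1|)
    have h6 : (0.6291 - ε) ≤ (({g | g ∈ ZF e T1 T2 (n + E) ∧ (Sel g).ncard = 1}.ncard : ℝ) +
        ({g | g ∈ ZF e T1 T2 (n + E) ∧ (Sel g).ncard = 2}.ncard : ℝ)) /
        (ZF e T1 T2 (n + E)).ncard := by
      rw [add_div]
      linarith [h4.1, h5.1]
    rw [le_div_iff₀ hZ0] at h6
    refine h6.trans ?_
    have h7 : Disjoint {g | g ∈ ZF e T1 T2 (n + E) ∧ (Sel g).ncard = 1}
        {g | g ∈ ZF e T1 T2 (n + E) ∧ (Sel g).ncard = 2} := by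
      rw [Set.disjoint_left]
      rintro g ⟨_, h8⟩ ⟨_, h9⟩
      omega
    have h8 := Set.ncard_union_eq h7 (hZfin.subset fun g hg => hg.1)
      (hZfin.subset fun g hg => hg.1)
    have h9 : ({g | g ∈ ZF e T1 T2 (n + E) ∧ (Sel g).ncard = 1} ∪
        {g | g ∈ ZF e T1 T2 (n + E) ∧ (Sel g).ncard = 2}).ncard ≤
        {g | g ∈ ZF e T1 T2 (n + E) ∧ AddGroup.FG (EK g) ∧ rk g ≤ 1}.ncard := by
      refine Set.ncard_le_ncard ?_ (hZfin.subset fun g hg => hg.1)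
      rintro g (hg | hg)
      · exact ⟨hg.1, (hRKP F h2 _ g (hsub hg.1)).2 (Or.inl hg.2)⟩
      · exact ⟨hg.1, (hRKP F h2 _ g (hsub hg.1)).2 (Or.inr hg.2)⟩
    rw [h8] at h9
    exact_mod_cast h9
  · have h3 : n + E - E = n := by omega
    rw [h3]
    have h4 : ({f | f ∈ FmT F n (T1 ∪ T2) ∧ ¬ LawF ε T1 T2 f}.ncard : ℝ) ≤
        ({f | f ∈ FmT F n (T1 ∪ T2) ∧ ¬ LawF (ε / 3) T1 T2 f}.ncard : ℝ) := by
      have h5 := Set.ncard_le_ncard (s := {f | f ∈ FmT F n (T1 ∪ T2) ∧ ¬ LawF ε T1 T2 f})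
        (t := {f | f ∈ FmT F n (T1 ∪ T2) ∧ ¬ LawF (ε / 3) T1 T2 f})
        (fun f hf => ⟨hf.1, fun hl => hf.2 ⟨hl.1, hl.2.1, fun R => (hl.2.2 R).trans
          (by linarith)⟩⟩) (hfin.subset fun f hf => hf.1)
      exact_mod_cast h5
    refine h4.trans (hbad.trans ?_)
    exact mul_le_mul_of_nonneg_right (by linarith) hFm0.le

end Pool.PRL
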