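import Pool.Agent.H75.PRL.FIP
import Pool.Agent.H77.RZ.Final

/-!
# The Poonen-Rains law: the main statement, for general and for short equations
-/

set_option autoImplicit false

namespace Pool.PRL

open Polynomial Matrix Pool.AVR Pool.AVS Pool.RZ

section

variable {F : Type} [Field F]

open Classical in
/-- The law for a family. -/
def LawZ (ε : ℝ) (Z : Set (F[X] × F[X] × F[X])) : Prop :=
  (∀ R : ℕ, ∑ r ∈ Finset.range R,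
    |({g | g ∈ Z ∧ (Sel g).ncard = 2 ^ r}.ncard : ℝ) / Z.ncard - PR r| ≤ ε) ∧
  |({g | g ∈ Z ∧ ∃ r : ℕ, Even r ∧ (Sel g).ncard = 2 ^ r}.ncard : ℝ) / Z.ncard - 1 / 2| ≤ ε ∧
  (0.2097 - ε) * Z.ncard ≤ {g | g ∈ Z ∧ Finite (EK g)}.ncard ∧
  (0.6291 - ε) * Z.ncard ≤ {g | g ∈ Z ∧ AddGroup.FG (EK g) ∧ rk g ≤ 1}.ncard

/-- The law for a subfamily `Z` of `S` of positive density. -/
def PosLaw (ε c : ℝ) (Z S : Set (F[X] × F[X] × F[X])) : Prop :=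
  Z ⊆ S ∧ S.Finite ∧ 0 < S.ncard ∧ c * S.ncard ≤ Z.ncard ∧ LawZ ε Z

/-- The twists of the elements of `A`. -/
def ZA (T1 T2 : Finset F[X]) (A : Set (F[X] × F[X] × F[X])) : Set (F[X] × F[X] × F[X]) :=
  {g | ∃ f ∈ A, ∃ S ∈ Sl T1 T2, g = tw (pr S) f}

end

open Classical in
/-- FIQ: from the law for one curve to the law for a family. -/
def FIQStmt : Prop :=
  ∀ (F : Type) [Field F] [Finite F], (2 : F) ≠ 0 → ∀ (ε : ℝ) (e n : ℕ) (T1 T2 : Finset F[X])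
    (A : Set (F[X] × F[X] × F[X])),
    0 < ε → Adm e T1 T2 → Odd T1.card → A ⊆ FmT F n (T1 ∪ T2) → A.Finite → A.Nonempty →
    ({f | f ∈ A ∧ ¬ LawF ε T1 T2 f}.ncard : ℝ) ≤ ε * A.ncard →
    ZA T1 T2 A ⊆ Irr F (n + e * (T1.card / 2 + 1)) ∧ (ZA T1 T2 A).Finite ∧
    (ZA T1 T2 A).ncard = (Sl T1 T2).card * A.ncard ∧ 0 < (Sl T1 T2).card ∧
    LawZ (3 * ε) (ZA T1 T2 A)

open Classical in
/-- SHA: short equations. -/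
def SHAStmt : Prop :=
  ∀ (F : Type) [Field F] [Finite F], (2 : F) ≠ 0 → (3 : F) ≠ 0 → ∀ (n : ℕ) (ε : ℝ)
    (T1 T2 : Finset F[X]), EvT (T1 ∪ T2) →
    (FmT F n (T1 ∪ T2)).ncard = Nat.card F ^ (2 * n + 1) *
      {f | f ∈ FmT F n (T1 ∪ T2) ∧ f.1 = 0}.ncard ∧
    {f | f ∈ FmT F n (T1 ∪ T2) ∧ ¬ LawF ε T1 T2 f}.ncard = Nat.card F ^ (2 * n + 1) *
      {f | (f ∈ FmT F n (T1 ∪ T2) ∧ f.1 = 0) ∧ ¬ LawF ε T1 T2 f}.ncard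

variable (F : Type) [Field F]

open Classical in
/-- The main theorem. -/
def MainPR : Prop :=
  ∀ ε : ℝ, 0 < ε →
    (∀ k : ℕ, ∃ (e : ℕ) (T1 T2 : Finset F[X]), Adm e T1 T2 ∧ T1.card = k) ∧
    ∃ k0 : ℕ, ∀ (e : ℕ) (T1 T2 : Finset F[X]), Adm e T1 T2 → Odd T1.card → k0 ≤ T1.card →
    ∃ c : ℝ, 0 < c ∧ ∃ N : ℕ, ∀ m : ℕ, N ≤ m →
      PosLaw ε c (ZF e T1 T2 m) (Ell F m) ∧
      ({f | f ∈ FmT F (m - e * (T1.card / 2 + 1)) (T1 ∪ T2) ∧ ¬ LawF ε T1 T2 f}.ncard : ℝ) ≤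
        ε * (FmT F (m - e * (T1.card / 2 + 1)) (T1 ∪ T2)).ncard ∧
      ((3 : F) ≠ 0 → PosLaw ε c {g | g ∈ ZF e T1 T2 m ∧ g.1 = 0} (Sht F m) ∧
        {g | g ∈ ZF e T1 T2 m ∧ g.1 = 0} ⊆ MinE F m)

end Pool.PRL
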